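import Pool.Agent.Helper95.PV.Meas
import Pool.Agent.Helper18.PV.Rand

/-! Block PV-DEC: the law of a kick and resampling of the noise of one cell (from the abstract files `Pool/Agent/Helper18/PV/Rand.lean`). -/

set_option autoImplicit false
open MeasureTheory Real Set
open scoped ENNReal

namespace Pool.Agent.Helper95.PV

open Pool.Agent.Helper18.UC (T2 rep toT nn)
open Pool.Agent.Helper18.FD (NN rr pr cl uu lm Bump k1 k2 NN_pos NN_ge cl_of_mem)

variable {d : Dat}

theorem PP_eq : PP = Pool.Agent.Helper18.PV.law Ix := rfl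

theorem kick_law {K : ℝ} (hK : K ≠ 0) (b : UnitAddCircle) {f : UnitAddCircle → ℝ≥0∞} (hf : Measurable f) :
    ∫⁻ u, f (b + ((K * cl u : ℝ) : UnitAddCircle)) ∂uu ≤ ENNReal.ofReal (1 + 1 / |K|) * ∫⁻ x, f x := by
  refine (Pool.Agent.Helper18.PV.rand' hK b hf).trans ?_
  have hK' : 0 < |K| := abs_pos.2 hK
  refine mul_le_mul_left (ENNReal.ofReal_le_ofReal ?_) _
  have : 1 / (2 * |K|) ≤ 1 / |K| := one_div_le_one_div_of_le hK' (by linarith)
  linarith

theorem res_mp (i : Ix) :
    MeasurePreserving (fun q : Om × ℝ => Function.update q.1 i q.2) (PP.prod uu) PP :=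
  Pool.Agent.Helper18.PV.res_mp i

theorem res1 (i : Ix) {F : Om → ℝ≥0∞} (hF : Measurable F) :
    ∫⁻ ω, F ω ∂PP = ∫⁻ ω, ∫⁻ u, F (Function.update ω i u) ∂uu ∂PP :=
  Pool.Agent.Helper18.PV.res1 i hF

theorem measurable_upd (l i : ℕ) :
    Measurable fun q : Om × (ℝ × ℝ) => upd l i q.2.1 q.2.2 q.1 := by
  have h1 : Measurable fun q : Om × (ℝ × ℝ) => Function.update q.1 ((l, i, false) : Ix) q.2.1 :=
    (Pool.Agent.Helper18.PV.measurable_upd ((l, i, false) : Ix)).comp
      (measurable_fst.prodMk (measurable_fst.comp measurable_snd))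
  exact (Pool.Agent.Helper18.PV.measurable_upd ((l, i, true) : Ix)).comp
    (h1.prodMk (measurable_snd.comp measurable_snd))

theorem res2 (l i : ℕ) {F : Om → ℝ≥0∞} (hF : Measurable F) :
    ∫⁻ ω, F ω ∂PP = ∫⁻ ω, ∫⁻ u, ∫⁻ v, F (upd l i u v ω) ∂uu ∂uu ∂PP :=
  Pool.Agent.Helper18.PV.res2 ((l, i, false) : Ix) ((l, i, true) : Ix) hF

theorem update_eq (l i : ℕ) (u : ℝ) (ω : Om) :
    Function.update ω (l, i, false) u = upd l i u (ω (l, i, true)) ω := by
  unfold upd
  have h1 : ω (l, i, true) = Function.update ω ((l, i, false) : Ix) u (l, i, true) := by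
    rw [Function.update_of_ne (by simp)]
  rw [h1, Function.update_eq_self]

end Pool.Agent.Helper95.PV
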