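import Pool.Agent.Helper95.PV.PSys
import Pool.Agent.Helper18.FD.Unif

/-! Block PV-DCOMP (helper2): the deterministic part: from the integrated exponent to the component. Compare `FD/Comp2.lean`.

`S = PS a R s f1 f2`, `T = TF a f1`, `FE.component` gives `lam`; threshold `t = (1/(1+s)) log |a| + C` (`ps_kk`), `Ω = {t < lam}`, `m = vol Ωᶜ`, `U = ∫ log (|2 + a f2| + 2)`, `W = ∫ lam` (uniqueness of limits, `hmean`), so `U - |a|^(-c₁) ≤ W`.
1. Subadditivity on the invariant set `Ω`: `∫_Ω lam ≤ ∫_Ω log nn (A)` (as `sub_inv`, `lam_inv` in `FD/Comp2.lean`; here `log (nn (S.M n (rep z)))/n → lam z` a.e.: from the statement of `FE.component` on `fderiv`, `‖clm B‖ ≤ nn B ≤ 2 ‖clm B‖` and `ae_torus`, or from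
   `FE.exists_lam`) `= U - ∫_Ωᶜ log nn (A) ≤ U - (1 - s/4) log |a| (m - |a|^(-c₁))`, because `nn (A) ≥ |a f2| ≥ |a|^(1 - s/4)` outside a set of measure `≤ |a|^(-c₁)` (`hsmall`) and `log nn (A) ≥ 0`.
2. `W = ∫_Ω lam + ∫_Ωᶜ lam ≤ U - (1 - s/4) log |a| (m - |a|^(-c₁)) + t m`, so `((1 - s/4) log |a| - t) m ≤ |a|^(-c₁) (1 + log |a|)`; `(1 - s/4) - 1/(1+s) ≥ s/4`, so `m ≤ |a|^(-c)`.
3. On `Ω` the exponent is a constant `L`, `L (1 - m) = W - ∫_Ωᶜ lam ∈ [W - t m, W]`, `U - |a|^(-c₁) ≤ W ≤ U`, `|U| ≤ 3 log |a|`: `|L - U| ≤ ..`; and `|U - ∫ log |a f2|| ≤ |a|^(-c₁)` by `hll`: for `y ≠ 0`: `0 ≤ log (|2 + y| + 2) - log |y| ≤ log (1 + 4/|y|)`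
   (`f2 ≠ 0` a.e. and `log |a f2|` is integrable because `∫⁻ ll < ∞`). -/

set_option autoImplicit false
open MeasureTheory Real Set Filter Topology
open scoped ENNReal

namespace Pool.Agent.Helper95.PV

open Pool.Agent.Helper18.UC (T2 rep toT nn clm sh)
open Pool.Agent.Helper11.FE (Sys IsT Half)

/-- the conclusion -/
def Big (c a : ℝ) (f1 f2 : ℝ → ℝ) : Prop :=
  ∃ (Ω : Set T2) (L : ℝ), MeasurableSet Ω ∧ (TF a f1) ⁻¹' Ω =ᵐ[volume] Ω ∧ 1 - |a| ^ (-c) ≤ volume.real Ω ∧
    (∀ (ξ : ℂ) (h : T2 → ℂ), Measurable h → (∀ᵐ z, z ∈ Ω → h (TF a f1 z) = ξ * h z) →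
      ∃ w : ℂ, ∀ᵐ z, z ∈ Ω → h z = w) ∧
    IntervalIntegrable (fun x => Real.log |a * f2 x|) volume 0 1 ∧
    |L - (∫ x in (0 : ℝ)..1, Real.log |a * f2 x|)| ≤ |a| ^ (-c) ∧
    ∀ᵐ q : ℝ × ℝ, toT q ∈ Ω →
      Tendsto (fun n : ℕ => Real.log ‖fderiv ℝ ((FF a f1)^[n]) q‖ / n) atTop (𝓝 L)

/-! ### general facts on systems -/

variable {S : Sys} {B : ℝ} {T : T2 → T2}

/-- from the plane to the torus -/
private theorem ae_rep2 {P : ℝ × ℝ → Prop} (h : ∀ᵐ q : ℝ × ℝ, P q) : ∀ᵐ z : T2, P (rep z) := by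
  obtain ⟨N, hN1, hN2, hN3⟩ := exists_measurable_superset_of_null (ae_iff.mp h)
  rw [ae_iff]
  refine measure_mono_null (t := rep ⁻¹' N) (fun z hz => hN1 hz) ?_
  rw [Pool.Agent.Helper18.UC.vol_rep hN2]
  exact measure_mono_null inter_subset_left hN3

/-- from the torus to the plane -/
private theorem ae_plane2 {P : T2 → Prop} (h : ∀ᵐ z, P z) : ∀ᵐ q : ℝ × ℝ, P (toT q) := by
  obtain ⟨N, hN1, hN2, hN3⟩ := exists_measurable_superset_of_null (ae_iff.mp h)
  have h0 : volume (toT ⁻¹' N ∩ (Ico (0:ℝ) 1 ×ˢ Ico (0:ℝ) 1)) = 0 := by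
    rw [← Pool.Agent.Helper18.UC.vol_rep (Pool.Agent.Helper18.UC.measurable_toT hN2)]
    have : rep ⁻¹' (toT ⁻¹' N) = N := by
      ext z
      simp [Pool.Agent.Helper18.UC.toT_rep]
    rw [this, hN3]
  have h1 : ∀ k : ℤ × ℤ, volume ((fun q : ℝ × ℝ => q + ((k.1 : ℝ), (k.2 : ℝ))) ⁻¹'
      (toT ⁻¹' N ∩ (Ico (0:ℝ) 1 ×ˢ Ico (0:ℝ) 1))) = 0 := by
    intro k
    rw [measure_preimage_add_right, h0]
  rw [ae_iff]
  refine measure_mono_null ?_ (measure_iUnion_null h1)
  intro q hq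
  obtain ⟨u, w, h2⟩ := Pool.Agent.Helper18.UC.rep_toT q
  refine mem_iUnion.mpr ⟨(u, w), ?_⟩
  have h3 : q + ((u : ℝ), (w : ℝ)) = rep (toT q) := by
    rw [h2]
    rfl
  rw [mem_preimage, h3]
  refine ⟨?_, Pool.Agent.Helper18.UC.rep_mem _⟩
  change toT (rep (toT q)) ∈ N
  rw [Pool.Agent.Helper18.UC.toT_rep]
  exact hN1 hq

private theorem lg2 (h : Half S B) (n : ℕ) (q : ℝ × ℝ) :
    0 ≤ Real.log (nn (S.M n q)) ∧ Real.log (nn (S.M n q)) ≤ Real.log 2 + n * Real.log S.L := by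
  have h2 := Pool.Agent.Helper11.FE.two_le_nn h n q
  have hL := Pool.Agent.Helper11.FE.L_pos h
  refine ⟨Real.log_nonneg (by linarith), ?_⟩
  have h3 : nn (S.M n q) ≤ 2 * S.L ^ n := by
    clear h2
    induction n with
    | zero => rw [Pool.Agent.Helper11.FE.M_zero, Pool.Agent.Helper18.UC.nn_one]; simp
    | succ n ih =>
      calc nn (S.M (n + 1) q) ≤ S.L * nn (S.M n q) := Pool.Agent.Helper11.FE.nn_succ_le h n q
        _ ≤ S.L * (2 * S.L ^ n) := mul_le_mul_of_nonneg_left ih hL.le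
        _ = 2 * S.L ^ (n + 1) := by ring
  have h4 := Real.log_le_log (by linarith) h3
  rw [Real.log_mul (by norm_num) (by positivity), Real.log_pow] at h4
  exact h4

private theorem prob2 : IsProbabilityMeasure (volume : Measure T2) := by
  have h1 : IsProbabilityMeasure (volume : Measure UnitAddCircle) := ⟨by
    rw [AddCircle.measure_univ, ENNReal.ofReal_one]⟩
  change IsProbabilityMeasure ((volume : Measure UnitAddCircle).prod (volume : Measure UnitAddCircle))
  infer_instance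

private theorem ms2 (h : Half S B) (n : ℕ) : Measurable fun z : T2 => Real.log (nn (S.M n (rep z))) :=
  Real.measurable_log.comp ((Pool.Agent.Helper11.FE.nn_cont h n).measurable.comp
    Pool.Agent.Helper18.UC.measurable_rep)

private theorem in2 (h : Half S B) (n : ℕ) :
    Integrable (fun z : T2 => Real.log (nn (S.M n (rep z)))) volume := by
  have := prob2
  exact Integrable.of_bound (ms2 h n).aestronglyMeasurable
    (Real.log 2 + n * Real.log S.L) (Eventually.of_forall fun z => by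
      obtain ⟨h1, h2⟩ := lg2 h n (rep z)
      rw [Real.norm_eq_abs, abs_of_nonneg h1]
      exact h2)

private theorem set_iter2 (hT : IsT S T) {Ω : Set T2} (hm : MeasurableSet Ω)
    (hΩ : T ⁻¹' Ω =ᵐ[volume] Ω) {F : T2 → ℝ} (hF : Measurable F) (n : ℕ) :
    ∫ z in Ω, F (T^[n] z) = ∫ z in Ω, F z := by
  have hT1 := hT.mp.iterate n
  have h1 : (T^[n]) ⁻¹' Ω =ᵐ[volume] Ω :=
    hT.mp.quasiMeasurePreserving.preimage_iterate_ae_eq n hΩ
  have h2 := setIntegral_map (μ := volume) (g := T^[n]) (f := F) (s := Ω) hm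
    hF.aestronglyMeasurable hT1.measurable.aemeasurable
  rw [hT1.map_eq] at h2
  rw [h2]
  exact (setIntegral_congr_set h1).symm

/-- subadditivity on an invariant set -/
private theorem sub2 (h : Half S B) (hT : IsT S T) {Ω : Set T2} (hm : MeasurableSet Ω)
    (hΩ : T ⁻¹' Ω =ᵐ[volume] Ω) (n : ℕ) :
    ∫ z in Ω, Real.log (nn (S.M n (rep z))) ≤ Real.log 2 + n * ∫ z in Ω, Real.log (nn (S.M 1 (rep z))) := by
  have := prob2
  induction n with
  | zero =>
    have h1 : ∫ z in Ω, Real.log (nn (S.M 0 (rep z))) ≤ ∫ z in Ω, Real.log 2 := by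
      refine integral_mono_of_nonneg (Eventually.of_forall fun z => (lg2 h 0 (rep z)).1)
        (integrable_const _) (Eventually.of_forall fun z => ?_)
      have h2 := (lg2 h 0 (rep z)).2
      rw [Nat.cast_zero, zero_mul, add_zero] at h2
      exact h2
    rw [Nat.cast_zero, zero_mul, add_zero]
    refine h1.trans ?_
    rw [setIntegral_const, smul_eq_mul]
    have h2 : volume.real Ω ≤ 1 := measureReal_le_one
    have h3 : 0 ≤ Real.log 2 := Real.log_nonneg (by norm_num)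
    nlinarith
  | succ n ih =>
    have hT1 := hT.mp.iterate n
    have h1 : Integrable (fun z : T2 => Real.log (nn (S.M 1 (rep (T^[n] z))))) volume := by
      have h' := hT1.integrable_comp (in2 h 1).aestronglyMeasurable
      exact h'.2 (in2 h 1)
    have h2 : ∫ z in Ω, Real.log (nn (S.M (n + 1) (rep z))) ≤
        ∫ z in Ω, (Real.log (nn (S.M 1 (rep (T^[n] z)))) + Real.log (nn (S.M n (rep z)))) := by
      refine integral_mono (in2 h (n + 1)).integrableOn
        (h1.integrableOn.add (in2 h n).integrableOn) fun z => ?_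
      have e1 : S.M (n + 1) (rep z) = S.M 1 (rep (T^[n] z)) * S.M n (rep z) := by
        rw [Pool.Agent.Helper11.FE.M_rep h hT, Pool.Agent.Helper11.FE.M_succ S n,
          show (1 : ℕ) = 0 + 1 from rfl, Pool.Agent.Helper11.FE.M_succ S 0,
          Pool.Agent.Helper11.FE.M_zero, Matrix.mul_one]
        rfl
      have p1 := Pool.Agent.Helper11.FE.two_le_nn h 1 (rep (T^[n] z))
      have p2 := Pool.Agent.Helper11.FE.two_le_nn h n (rep z)
      have p3 := Pool.Agent.Helper11.FE.two_le_nn h (n + 1) (rep z)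
      change Real.log (nn (S.M (n + 1) (rep z))) ≤
        Real.log (nn (S.M 1 (rep (T^[n] z)))) + Real.log (nn (S.M n (rep z)))
      rw [← Real.log_mul (by linarith) (by linarith)]
      refine Real.log_le_log (by linarith) ?_
      rw [e1]
      exact Pool.Agent.Helper18.UC.nn_mul _ _
    rw [integral_add h1.integrableOn (in2 h n).integrableOn,
      set_iter2 hT hm hΩ (F := fun z => Real.log (nn (S.M 1 (rep z)))) (ms2 h 1) n] at h2
    push_cast
    linarith

/-- the integral of the exponent over an invariant set -/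
private theorem lam2 (h : Half S B) (hT : IsT S T) {Ω : Set T2} (hm : MeasurableSet Ω)
    (hΩ : T ⁻¹' Ω =ᵐ[volume] Ω) {lam : T2 → ℝ}
    (hlim : ∀ᵐ z, Tendsto (fun n : ℕ => Real.log (nn (S.M n (rep z))) / n) atTop (𝓝 (lam z))) :
    ∫ z in Ω, lam z ≤ ∫ z in Ω, Real.log (nn (S.M 1 (rep z))) := by
  have := prob2
  have hl7 : 0 ≤ Real.log S.L := Real.log_nonneg (by linarith [Pool.Agent.Helper11.FE.L_ge4 h])
  have hl2 : 0 ≤ Real.log 2 := Real.log_nonneg (by norm_num)
  have h1 : Tendsto (fun n : ℕ => ∫ z in Ω, Real.log (nn (S.M n (rep z))) / n) atTop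
      (𝓝 (∫ z in Ω, lam z)) := by
    refine tendsto_integral_of_dominated_convergence (fun _ => Real.log 2 + Real.log S.L)
      (fun n => ((ms2 h n).div_const _).aestronglyMeasurable) (integrable_const _)
      (fun n => Eventually.of_forall fun z => ?_) (ae_restrict_of_ae hlim)
    obtain ⟨h1, h2⟩ := lg2 h n (rep z)
    rw [Real.norm_eq_abs, abs_of_nonneg (div_nonneg h1 (Nat.cast_nonneg n))]
    rcases Nat.eq_zero_or_pos n with h0 | h0
    · subst h0
      simp only [Nat.cast_zero, div_zero]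
      linarith
    · have hn1 : (1 : ℝ) ≤ n := by exact_mod_cast h0
      rw [div_le_iff₀ (by linarith)]
      nlinarith
  have h2 : Tendsto (fun n : ℕ => Real.log 2 / n + ∫ z in Ω, Real.log (nn (S.M 1 (rep z)))) atTop
      (𝓝 (0 + ∫ z in Ω, Real.log (nn (S.M 1 (rep z))))) :=
    (tendsto_const_div_atTop_nhds_zero_nat _).add_const _
  rw [zero_add] at h2
  refine le_of_tendsto_of_tendsto h1 h2 ?_
  filter_upwards [eventually_ge_atTop 1] with n hn
  have hn0 : (0 : ℝ) < n := by exact_mod_cast hn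
  rw [integral_div, div_le_iff₀ hn0, add_mul, div_mul_cancel₀ _ hn0.ne']
  have := sub2 h hT hm hΩ n
  linarith

/-- the limit with `nn` -/
private theorem lim2 (h : Half S B) {lam : T2 → ℝ}
    (hlim : ∀ᵐ q : ℝ × ℝ, Tendsto (fun n : ℕ => Real.log ‖fderiv ℝ (S.F^[n]) q‖ / n) atTop
        (𝓝 (lam (toT q)))) :
    ∀ᵐ z : T2, Tendsto (fun n : ℕ => Real.log (nn (S.M n (rep z))) / n) atTop (𝓝 (lam z)) := by
  filter_upwards [ae_rep2 hlim] with z hz
  rw [Pool.Agent.Helper18.UC.toT_rep] at hz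
  have h2 : Tendsto (fun n : ℕ => Real.log ‖fderiv ℝ (S.F^[n]) (rep z)‖ / n + Real.log 2 / n) atTop
      (𝓝 (lam z + 0)) := hz.add (tendsto_const_div_atTop_nhds_zero_nat _)
  rw [add_zero] at h2
  have key : ∀ n : ℕ, Real.log ‖fderiv ℝ (S.F^[n]) (rep z)‖ ≤ Real.log (nn (S.M n (rep z))) ∧
      Real.log (nn (S.M n (rep z))) ≤ Real.log ‖fderiv ℝ (S.F^[n]) (rep z)‖ + Real.log 2 := by
    intro n
    rw [(Pool.Agent.Helper11.FE.hasFDerivAt_iter h n (rep z)).fderiv]
    have a1 := Pool.Agent.Helper18.UC.norm_clm_le (S.M n (rep z))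
    have a2 := Pool.Agent.Helper18.UC.nn_le_clm (S.M n (rep z))
    have a3 := Pool.Agent.Helper11.FE.two_le_nn h n (rep z)
    have a4 : 0 < ‖clm (S.M n (rep z))‖ := by linarith
    refine ⟨Real.log_le_log a4 a1, ?_⟩
    have a5 := Real.log_le_log (by linarith) a2
    rw [Real.log_mul (by norm_num) a4.ne'] at a5
    linarith
  refine tendsto_of_tendsto_of_tendsto_of_le_of_le hz h2 (fun n => ?_) (fun n => ?_)
  · exact div_le_div_of_nonneg_right (key n).1 (Nat.cast_nonneg n)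
  · change Real.log (nn (S.M n (rep z))) / n ≤ Real.log ‖fderiv ℝ (S.F^[n]) (rep z)‖ / n + Real.log 2 / n
    rw [← add_div]
    exact div_le_div_of_nonneg_right (key n).2 (Nat.cast_nonneg n)

/-! ### numbers -/

private theorem num2 {c₁ C θ : ℝ} (hc₁ : 0 < c₁) (hC : 0 < C) (hθ : 0 < θ) :
    ∃ c A : ℝ, 0 < c ∧ 100 ≤ A ∧ ∀ x : ℝ, A ≤ x → 1 ≤ θ * Real.log x - C ∧
      x ^ (-c₁) < 1 ∧ x ^ (-c₁) * (1 + Real.log x) ≤ x ^ (-c) ∧ x ^ (-c) ≤ 1 / 2 ∧
      3 * x ^ (-c₁) + 2 * (x ^ (-c₁) * (1 + Real.log x) * (Real.log x + C)) ≤ x ^ (-c) := by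
  obtain ⟨e, he⟩ : ∃ e, e = c₁ / 8 := ⟨_, rfl⟩
  have he0 : 0 < e := by
    rw [he]
    positivity
  have hc8 : c₁ = 8 * e := by
    rw [he]
    ring
  have hee : 0 < 1 / e := by positivity
  obtain ⟨K, hK⟩ : ∃ K, K = 3 + 2 * ((1 + 1 / e) * (1 / e + C)) + (1 + 1 / e) := ⟨_, rfl⟩
  have hK0 : 3 ≤ K := by
    rw [hK]
    have : 0 ≤ (1 + 1 / e) * (1 / e + C) := by positivity
    linarith
  refine ⟨4 * e, max 100 (max (K ^ (1 / (2 * e))) (Real.exp ((1 + C) / θ))), by positivity, le_max_left _ _,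
    fun x hx => ?_⟩
  have hx100 : 100 ≤ x := (le_max_left _ _).trans hx
  have hxK : K ^ (1 / (2 * e)) ≤ x := (le_max_left _ _).trans ((le_max_right _ _).trans hx)
  have hxe : Real.exp ((1 + C) / θ) ≤ x := (le_max_right _ _).trans ((le_max_right _ _).trans hx)
  have hx0 : 0 < x := by linarith
  have hx1 : 1 ≤ x := by linarith
  have hlog0 : 0 ≤ Real.log x := Real.log_nonneg hx1
  have hKc : K ≤ x ^ (2 * e) := by
    calc K = (K ^ (1 / (2 * e))) ^ (2 * e) := by
          rw [← Real.rpow_mul (by linarith), one_div, inv_mul_cancel₀ (by positivity), Real.rpow_one]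
      _ ≤ x ^ (2 * e) := Real.rpow_le_rpow (by positivity) hxK (by positivity)
  have hlog : Real.log x ≤ x ^ e / e := Real.log_le_rpow_div hx0.le he0
  have hxe1 : 1 ≤ x ^ e := Real.one_le_rpow hx1 he0.le
  have hl1 : 1 + Real.log x ≤ (1 + 1 / e) * x ^ e := by
    have : (1 + 1 / e) * x ^ e = x ^ e + x ^ e / e := by ring
    rw [this]
    linarith
  have hl2 : Real.log x + C ≤ (1 / e + C) * x ^ e := by
    have : (1 / e + C) * x ^ e = x ^ e / e + C * x ^ e := by ring
    rw [this]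
    nlinarith
  have p8 : 0 < x ^ (-(8 * e)) := by positivity
  have p4 : 0 < x ^ (-(4 * e)) := by positivity
  have q4 : x ^ (-(4 * e)) = x ^ (2 * e) * (x ^ (2 * e) * x ^ (-(8 * e))) := by
    rw [← Real.rpow_add hx0, ← Real.rpow_add hx0]
    congr 1
    ring
  have q2 : x ^ (2 * e) = x ^ e * x ^ e := by
    rw [← Real.rpow_add hx0]
    congr 1
    ring
  have q42 : x ^ (-(4 * e)) = (x ^ (2 * e) * x ^ (2 * e))⁻¹ := by
    rw [Real.rpow_neg hx0.le, ← Real.rpow_add hx0]
    congr 2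
    ring
  have hx2 : 1 ≤ x ^ (2 * e) := by linarith
  rw [hc8]
  refine ⟨?_, ?_, ?_, ?_, ?_⟩
  · have h1 : (1 + C) / θ ≤ Real.log x := by
      rw [Real.le_log_iff_exp_le hx0]
      exact hxe
    rw [div_le_iff₀ hθ] at h1
    linarith
  · exact Real.rpow_lt_one_of_one_lt_of_neg (by linarith) (by linarith)
  · calc x ^ (-(8 * e)) * (1 + Real.log x) ≤ x ^ (-(8 * e)) * ((1 + 1 / e) * x ^ e) :=
          mul_le_mul_of_nonneg_left hl1 p8.le
      _ ≤ x ^ (-(8 * e)) * (x ^ (2 * e) * x ^ (2 * e)) := by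
          refine mul_le_mul_of_nonneg_left ?_ p8.le
          refine mul_le_mul ?_ ?_ (by positivity) (by positivity)
          · refine le_trans ?_ hKc
            rw [hK]
            have : 0 ≤ (1 + 1 / e) * (1 / e + C) := by positivity
            linarith
          · rw [q2]
            nlinarith
      _ = x ^ (-(4 * e)) := by
          rw [q4]
          ring
  · rw [q42]
    rw [show (1 : ℝ) / 2 = 2⁻¹ by norm_num]
    refine inv_anti₀ (by norm_num) ?_
    nlinarith
  · have h1 : (1 + Real.log x) * (Real.log x + C) ≤ ((1 + 1 / e) * x ^ e) * ((1 / e + C) * x ^ e) :=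
      mul_le_mul hl1 hl2 (by positivity) (by positivity)
    have h2 : 3 + 2 * ((1 + Real.log x) * (Real.log x + C)) ≤ K * x ^ (2 * e) := by
      have h3 : 2 * (((1 + 1 / e) * x ^ e) * ((1 / e + C) * x ^ e)) =
        2 * ((1 + 1 / e) * (1 / e + C)) * x ^ (2 * e) := by
        rw [q2]
        ring
      have h4 : 0 ≤ (1 + 1 / e) * x ^ (2 * e) := by positivity
      rw [hK]
      nlinarith
    calc 3 * x ^ (-(8 * e)) + 2 * (x ^ (-(8 * e)) * (1 + Real.log x) * (Real.log x + C)) =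
          x ^ (-(8 * e)) * (3 + 2 * ((1 + Real.log x) * (Real.log x + C))) := by ring
      _ ≤ x ^ (-(8 * e)) * (x ^ (2 * e) * x ^ (2 * e)) := by
          refine mul_le_mul_of_nonneg_left (h2.trans ?_) p8.le
          exact mul_le_mul_of_nonneg_right hKc (by positivity)
      _ = x ^ (-(4 * e)) := by
          rw [q4]
          ring

/-! ### the integrals -/

private theorem int01 {G : ℝ → ℝ} (hG : Continuous G) :
    ∫ z : T2, G (rep z).1 = ∫ x in (0 : ℝ)..1, G x := by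
  have hrm : Measurable fun z : T2 => (rep z).1 := measurable_fst.comp Pool.Agent.Helper18.UC.measurable_rep
  have h1 := integral_map (μ := (volume : Measure T2)) hrm.aemeasurable (f := G)
    hG.aestronglyMeasurable
  rw [Pool.Agent.Helper18.FD.rep_law] at h1
  rw [intervalIntegral.integral_of_le (by norm_num), ← integral_Ico_eq_integral_Ioc]
  exact h1.symm

/-- the comparison of the two integrals -/
private theorem cmp2 {y : ℝ → ℝ} (hy : Continuous y) {ε : ℝ} (hε : 0 ≤ ε)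
    (hll : ∫⁻ x in Ico (0 : ℝ) 1, ll (y x) ≤ ENNReal.ofReal ε) :
    IntervalIntegrable (fun x => Real.log (|y x|)) volume 0 1 ∧
    |(∫ x in (0 : ℝ)..1, Real.log (|2 + y x| + 2)) - ∫ x in (0 : ℝ)..1, Real.log (|y x|)| ≤ ε := by
  have hll' : ∫⁻ x in Ico (0 : ℝ) 1, ll (y x) ≠ ⊤ := ne_top_of_le_ne_top ENNReal.ofReal_ne_top hll
  have hm : Measurable fun x => ll (y x) := meas_ll.comp hy.measurable
  have h1 : ∀ᵐ x ∂(volume.restrict (Ico (0 : ℝ) 1)), ll (y x) < ⊤ := ae_lt_top hm hll'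
  have hG : Continuous fun x => Real.log (|2 + y x| + 2) := by
    refine Continuous.log (by fun_prop) fun x => ?_
    have := abs_nonneg (2 + y x)
    linarith
  have hL : Measurable fun x => Real.log (|y x|) := (hy.measurable.abs).log
  have h2 : ∀ᵐ x ∂(volume.restrict (Ico (0 : ℝ) 1)), 0 ≤ Real.log (|2 + y x| + 2) - Real.log (|y x|) ∧
      ENNReal.ofReal (Real.log (|2 + y x| + 2) - Real.log (|y x|)) ≤ ll (y x) := by
    filter_upwards [h1] with x hx
    have h0 : y x ≠ 0 := by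
      intro h0
      rw [h0, ll, if_pos rfl] at hx
      exact lt_irrefl _ hx
    have h3 : 0 < |y x| := abs_pos.2 h0
    have h4 : |y x| ≤ |2 + y x| + 2 := by
      have h5 := abs_sub (2 + y x) 2
      have h6 : 2 + y x - 2 = y x := by ring
      rw [h6, abs_of_nonneg (show (0 : ℝ) ≤ 2 by norm_num)] at h5
      exact h5
    have h5 : |2 + y x| + 2 ≤ |y x| + 4 := by
      have h6 := abs_add_le 2 (y x)
      rw [abs_of_nonneg (show (0 : ℝ) ≤ 2 by norm_num)] at h6
      linarith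
    refine ⟨sub_nonneg.2 (Real.log_le_log h3 h4), ?_⟩
    rw [ll, if_neg h0]
    refine ENNReal.ofReal_le_ofReal ?_
    rw [← Real.log_div (by linarith) h3.ne']
    refine Real.log_le_log (by positivity) ?_
    rw [div_le_iff₀ h3]
    have h7 : (1 + 4 / |y x|) * |y x| = |y x| + 4 := by
      field_simp
    rw [h7]
    exact h5
  have hgm : AEStronglyMeasurable (fun x => Real.log (|2 + y x| + 2) - Real.log (|y x|))
      (volume.restrict (Ico (0 : ℝ) 1)) := (hG.measurable.sub hL).aestronglyMeasurable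
  have h3 : ∫⁻ x in Ico (0 : ℝ) 1, ENNReal.ofReal (Real.log (|2 + y x| + 2) - Real.log (|y x|)) ≤
      ENNReal.ofReal ε := (lintegral_mono_ae (h2.mono fun x hx => hx.2)).trans hll
  have hgi : Integrable (fun x => Real.log (|2 + y x| + 2) - Real.log (|y x|))
      (volume.restrict (Ico (0 : ℝ) 1)) := by
    refine ⟨hgm, ?_⟩
    rw [hasFiniteIntegral_iff_ofReal (h2.mono fun x hx => hx.1)]
    exact h3.trans_lt ENNReal.ofReal_lt_top
  have hg : ∫ x in Ico (0 : ℝ) 1, (Real.log (|2 + y x| + 2) - Real.log (|y x|)) ≤ ε := by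
    rw [integral_eq_lintegral_of_nonneg_ae (h2.mono fun x hx => hx.1) hgm]
    exact ENNReal.toReal_le_of_le_ofReal hε h3
  have hg0 : 0 ≤ ∫ x in Ico (0 : ℝ) 1, (Real.log (|2 + y x| + 2) - Real.log (|y x|)) :=
    integral_nonneg_of_ae (h2.mono fun x hx => hx.1)
  have hGi : Integrable (fun x => Real.log (|2 + y x| + 2)) (volume.restrict (Ico (0 : ℝ) 1)) :=
    (hG.integrableOn_Icc (a := 0) (b := 1)).mono_set Ico_subset_Icc_self
  have hLi : Integrable (fun x => Real.log (|y x|)) (volume.restrict (Ico (0 : ℝ) 1)) := by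
    refine (hGi.sub hgi).congr (Eventually.of_forall fun x => ?_)
    show Real.log (|2 + y x| + 2) - (Real.log (|2 + y x| + 2) - Real.log (|y x|)) = Real.log (|y x|)
    ring
  refine ⟨(intervalIntegrable_iff_integrableOn_Ico_of_le (by norm_num)).2 hLi, ?_⟩
  rw [intervalIntegral.integral_of_le (by norm_num), intervalIntegral.integral_of_le (by norm_num),
    ← integral_Ico_eq_integral_Ioc, ← integral_Ico_eq_integral_Ioc, ← integral_sub hGi hLi,
    abs_of_nonneg hg0]
  exact hg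

private theorem nnPS (a R s : ℝ) (f1 f2 : ℝ → ℝ) (q : ℝ × ℝ) :
    nn ((PS a R s f1 f2).M 1 q) = |2 + a * f2 q.1| + 2 := by
  have h1 : (PS a R s f1 f2).M 1 q = AF a f2 q := by
    have h2 := Pool.Agent.Helper11.FE.M_succ (PS a R s f1 f2) 0 q
    rw [Pool.Agent.Helper11.FE.M_zero, Matrix.mul_one] at h2
    exact h2
  rw [h1]
  unfold AF mv nn
  simp
  ring

/-- lower bound for the integral of `log nn (A)` -/
private theorem low2 {a R s : ℝ} {f1 f2 : ℝ → ℝ} (ha : 100 ≤ |a|) (hs1 : s ≤ 1)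
    (h : Half (PS a R s f1 f2) 100) (hf : Continuous f2) {ε : ℝ} (hε : 0 ≤ ε)
    (hsm : volume {x : ℝ | x ∈ Ico (0 : ℝ) 1 ∧ |f2 x| < |a| ^ (-(s / 4))} ≤ ENNReal.ofReal ε)
    {B : Set T2} (hB : MeasurableSet B) :
    (1 - s / 4) * Real.log |a| * (volume.real B - ε) ≤ ∫ z in B, Real.log (nn ((PS a R s f1 f2).M 1 (rep z))) := by
  have := prob2
  have ha0 : 0 < |a| := by linarith
  have hlog : 0 ≤ Real.log |a| := Real.log_nonneg (by linarith)
  set E : Set T2 := {z : T2 | |f2 (rep z).1| < |a| ^ (-(s / 4))} with hE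
  have hrm : Measurable fun z : T2 => (rep z).1 := measurable_fst.comp Pool.Agent.Helper18.UC.measurable_rep
  have hEm : MeasurableSet E := measurableSet_lt (hf.abs.measurable.comp hrm) measurable_const
  have hEe : volume.real E ≤ ε := by
    have hS : MeasurableSet {x : ℝ | |f2 x| < |a| ^ (-(s / 4))} :=
      measurableSet_lt hf.abs.measurable measurable_const
    have h2 := Measure.map_apply (μ := (volume : Measure T2)) hrm hS
    rw [Pool.Agent.Helper18.FD.rep_law, Measure.restrict_apply hS] at h2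
    have h3 : volume E = volume ({x : ℝ | |f2 x| < |a| ^ (-(s / 4))} ∩ Ico 0 1) := h2.symm
    rw [measureReal_def, h3]
    refine ENNReal.toReal_le_of_le_ofReal hε (le_trans (measure_mono ?_) hsm)
    rintro x ⟨hx1, hx2⟩
    exact ⟨hx2, hx1⟩
  have h1 : ∫ z in B \ E, Real.log (nn ((PS a R s f1 f2).M 1 (rep z))) ≤
      ∫ z in B, Real.log (nn ((PS a R s f1 f2).M 1 (rep z))) :=
    setIntegral_mono_set (in2 h 1).integrableOn
      (Eventually.of_forall fun z => (lg2 h 1 _).1) (Eventually.of_forall fun z hz => hz.1)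
  have h2 : ∫ z in B \ E, (1 - s / 4) * Real.log |a| ≤
      ∫ z in B \ E, Real.log (nn ((PS a R s f1 f2).M 1 (rep z))) := by
    refine setIntegral_mono_on (integrable_const _).integrableOn (in2 h 1).integrableOn
      (hB.diff hEm) fun z hz => ?_
    have h3 : |a| ^ (-(s / 4)) ≤ |f2 (rep z).1| := not_lt.1 hz.2
    have h4 : |a| ^ (1 - s / 4) ≤ |a * f2 (rep z).1| := by
      rw [abs_mul, show (1 : ℝ) - s / 4 = 1 + (-(s / 4)) by ring, Real.rpow_add ha0, Real.rpow_one]
      exact mul_le_mul_of_nonneg_left h3 ha0.le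
    have h5 : |a * f2 (rep z).1| ≤ |2 + a * f2 (rep z).1| + 2 := by
      have h5 := abs_sub (2 + a * f2 (rep z).1) 2
      have h6 : 2 + a * f2 (rep z).1 - 2 = a * f2 (rep z).1 := by ring
      rw [h6, abs_of_nonneg (show (0 : ℝ) ≤ 2 by norm_num)] at h5
      exact h5
    rw [nnPS, ← Real.log_rpow ha0]
    exact Real.log_le_log (by positivity) (h4.trans h5)
  have h3 : volume.real B - ε ≤ volume.real (B \ E) := by
    have h5 : volume.real B ≤ volume.real (B \ E) + volume.real E := by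
      refine (measureReal_mono ?_).trans (measureReal_union_le _ _)
      intro z hz
      by_cases hzE : z ∈ E
      · exact Or.inr hzE
      · exact Or.inl ⟨hz, hzE⟩
    linarith
  rw [setIntegral_const, smul_eq_mul] at h2
  have h4 : (1 - s / 4) * Real.log |a| * (volume.real B - ε) ≤
      (1 - s / 4) * Real.log |a| * volume.real (B \ E) :=
    mul_le_mul_of_nonneg_left h3 (mul_nonneg (by linarith) hlog)
  linarith

theorem dcomp {s : ℝ} (hs : 0 < s) (hs1 : s ≤ 1) {R : ℝ} (hR : 1 ≤ R) {c₁ : ℝ} (hc₁ : 0 < c₁) :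
    ∃ c A : ℝ, 0 < c ∧ 100 ≤ A ∧ ∀ (a : ℝ) (f1 f2 : ℝ → ℝ), A ≤ |a| → PotOk R s f1 f2 →
      volume {x : ℝ | x ∈ Ico (0 : ℝ) 1 ∧ |f2 x| < |a| ^ (-(s / 4))} ≤ ENNReal.ofReal (|a| ^ (-c₁)) →
      ∫⁻ x in Ico (0 : ℝ) 1, ll (a * f2 x) ≤ ENNReal.ofReal (|a| ^ (-c₁)) →
      ∀ W : ℝ, Tendsto (fun n : ℕ => (∫ z : T2, Real.log (nn ((PS a R s f1 f2).M n (rep z)))) / n) atTop (𝓝 W) →
        (∫ x in (0 : ℝ)..1, Real.log (|2 + a * f2 x| + 2)) - |a| ^ (-c₁) ≤ W →
        Big c a f1 f2 := by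
  obtain ⟨A1, hA1, h1⟩ := ps_ok hs hs1 hR
  obtain ⟨C, A2, hC, hA2, h2⟩ := ps_kk hs hs1 hR
  have hp : (0:ℝ) < 1 + s := by linarith
  obtain ⟨θ, hθ⟩ : ∃ θ, θ = s / 4 := ⟨_, rfl⟩
  have hθ0 : 0 < θ := by
    rw [hθ]
    positivity
  have hθe : θ ≤ (1 - s / 4) - 1 / (1 + s) := by
    rw [hθ]
    have : s / 2 ≤ 1 - 1 / (1 + s) := by
      have h3 : 1 - 1 / (1 + s) = s / (1 + s) := by
        field_simp
        ring
      rw [h3]
      exact div_le_div_of_nonneg_left hs.le hp (by linarith)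
    linarith
  obtain ⟨c, A3, hc, hA3, hnum⟩ := num2 hc₁ hC hθ0
  refine ⟨c, max A1 (max A2 A3), hc, hA1.trans (le_max_left _ _), fun a f1 f2 hA hpot hsmall hll W hW hUW => ?_⟩
  have ha1 : A1 ≤ |a| := (le_max_left _ _).trans hA
  have ha2 : A2 ≤ |a| := (le_max_left _ _).trans ((le_max_right _ _).trans hA)
  have ha3 : A3 ≤ |a| := (le_max_right _ _).trans ((le_max_right _ _).trans hA)
  have ha : 100 ≤ |a| := hA1.trans ha1
  have ha0 : 0 < |a| := by linarith
  have hane : a ≠ 0 := abs_pos.1 ha0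
  obtain ⟨n1, n2, n3, n4, n5⟩ := hnum |a| ha3
  obtain ⟨k1, k2, k3⟩ := h2 a f1 f2 ha2
  have hlog0 : 0 ≤ Real.log |a| := Real.log_nonneg (by linarith)
  have := prob2
  have hε0 : 0 ≤ |a| ^ (-c₁) := by positivity
  -- the system is good
  have hex : ∃ x : ℝ, |a| ^ (-(s / 4)) ≤ |f2 x| := by
    by_contra hno
    push Not at hno
    have h3 : {x : ℝ | x ∈ Ico (0 : ℝ) 1 ∧ |f2 x| < |a| ^ (-(s / 4))} = Ico 0 1 := by
      ext x
      exact ⟨fun hx => hx.1, fun hx => ⟨hx, hno x⟩⟩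
    rw [h3, Real.volume_Ico, sub_zero] at hsmall
    have h4 := (ENNReal.ofReal_le_ofReal_iff hε0).1 hsmall
    linarith
  have hok := h1 a f1 f2 ha1 hpot hex
  have hF := hok.fwd
  have hT : IsT (PS a R s f1 f2) (TF a f1) := ps_isT hpot
  have hcy : Continuous fun x : ℝ => 2 + a * f2 x := by
    have h3 := hF.cont 0 0
    exact h3.comp (Continuous.prodMk_left (0 : ℝ))
  have hcf : Continuous f2 := by
    have h3 : f2 = fun x => (2 + a * f2 x - 2) / a := by
      funext x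
      field_simp
      ring
    rw [h3]
    exact (hcy.sub continuous_const).div_const _
  obtain ⟨lam, hlm, hbd, hinv, hlim, hmean, hcl⟩ := Pool.Agent.Helper11.FE.component hok hT
  obtain ⟨t, ht⟩ : ∃ t, t = 1 / (1 + s) * Real.log |a| + C := ⟨_, rfl⟩
  rw [← ht] at k1 k2
  obtain ⟨hmix, ⟨L0, hL0⟩, -⟩ := hcl t k1 k2
  have hlimT := lim2 hF hlim
  have hint : ∫ z : T2, lam z = W := tendsto_nhds_unique hmean hW
  obtain ⟨U, hU⟩ : ∃ U, U = ∫ x in (0 : ℝ)..1, Real.log (|2 + a * f2 x| + 2) := ⟨_, rfl⟩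
  rw [← hU] at hUW
  have hUT : ∫ z : T2, Real.log (nn ((PS a R s f1 f2).M 1 (rep z))) = U := by
    rw [hU, ← int01 (G := fun x => Real.log (|2 + a * f2 x| + 2))]
    · refine integral_congr_ae (Eventually.of_forall fun z => ?_)
      show Real.log (nn ((PS a R s f1 f2).M 1 (rep z))) = Real.log (|2 + a * f2 (rep z).1| + 2)
      rw [nnPS]
    · refine Continuous.log (by fun_prop) fun x => ?_
      have := abs_nonneg (2 + a * f2 x)
      linarith
  have hWU : W ≤ U := by
    have h3 := lam2 hF hT MeasurableSet.univ (by simp) hlimT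
    rw [Measure.restrict_univ, hint, hUT] at h3
    exact h3
  have hU0 : 0 ≤ U := by
    rw [← hUT]
    exact integral_nonneg fun z => (lg2 hF 1 _).1
  have hUC : U ≤ Real.log |a| + C := by
    have h3 : ∫ z : T2, Real.log (nn ((PS a R s f1 f2).M 1 (rep z))) ≤
        ∫ z : T2, Real.log (PS a R s f1 f2).L := by
      refine integral_mono (in2 hF 1) (integrable_const _) fun z => ?_
      show Real.log (nn ((PS a R s f1 f2).M 1 (rep z))) ≤ Real.log (PS a R s f1 f2).L
      have h4 := Pool.Agent.Helper11.FE.two_le_nn hF 1 (rep z)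
      refine Real.log_le_log (by linarith) ?_
      rw [show (1 : ℕ) = 0 + 1 from rfl, Pool.Agent.Helper11.FE.M_succ, Pool.Agent.Helper11.FE.M_zero,
        Matrix.mul_one]
      exact hF.bd _
    rw [hUT, integral_const, probReal_univ, one_smul] at h3
    linarith
  have ht0 : 0 ≤ t := by
    rw [ht]
    positivity
  have htl : t ≤ Real.log |a| + C := by linarith
  have hmeas : MeasurableSet {z : T2 | t < lam z} := measurableSet_lt measurable_const hlm
  have hinvΩ : (TF a f1) ⁻¹' {z : T2 | t < lam z} =ᵐ[volume] {z : T2 | t < lam z} := by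
    filter_upwards [hinv] with z hz
    show (t < lam (TF a f1 z)) = (t < lam z)
    rw [hz]
  obtain ⟨m, hm⟩ : ∃ m, m = volume.real {z : T2 | t < lam z}ᶜ := ⟨_, rfl⟩
  have hm0 : 0 ≤ m := by rw [hm]; exact measureReal_nonneg
  have hΩ : volume.real {z : T2 | t < lam z} = 1 - m := by
    rw [hm, probReal_compl_eq_one_sub hmeas]
    ring
  have hI : Integrable lam := Integrable.of_bound hlm.aestronglyMeasurable (Real.log (PS a R s f1 f2).L)
    (Eventually.of_forall fun z => by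
      rw [Real.norm_eq_abs, abs_of_nonneg (hbd z).1]
      exact (hbd z).2)
  have hsplit : (∫ z in {z : T2 | t < lam z}, lam z) + (∫ z in {z : T2 | t < lam z}ᶜ, lam z) = W := by
    rw [← hint]
    exact integral_add_compl hmeas hI
  have hB1 : ∫ z in {z : T2 | t < lam z}ᶜ, lam z ≤ t * m := by
    have h8 : ∫ z in {z : T2 | t < lam z}ᶜ, lam z ≤ ∫ z in {z : T2 | t < lam z}ᶜ, t := by
      refine setIntegral_mono_on hI.integrableOn ?_ hmeas.compl fun z hz => ?_
      · exact (integrable_const t).integrableOn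
      · exact not_lt.1 hz
    refine h8.trans (le_of_eq ?_)
    rw [setIntegral_const, smul_eq_mul, ← hm]
    ring
  have hB0 : 0 ≤ ∫ z in {z : T2 | t < lam z}ᶜ, lam z := integral_nonneg fun z => (hbd z).1
  have hO : ∫ z in {z : T2 | t < lam z}, lam z = L0 * (1 - m) := by
    rw [setIntegral_congr_ae hmeas (g := fun _ => L0) hL0, setIntegral_const, hΩ, smul_eq_mul]
    ring
  -- the bound of the measure
  have hO2 : ∫ z in {z : T2 | t < lam z}, lam z ≤ U -
      (1 - s / 4) * Real.log |a| * (m - |a| ^ (-c₁)) := by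
    have h3 := lam2 hF hT hmeas hinvΩ hlimT
    have h5 : (∫ z in {z : T2 | t < lam z}, Real.log (nn ((PS a R s f1 f2).M 1 (rep z)))) +
        (∫ z in {z : T2 | t < lam z}ᶜ, Real.log (nn ((PS a R s f1 f2).M 1 (rep z)))) = U := by
      rw [← hUT]
      exact integral_add_compl hmeas (in2 hF 1)
    have h6 := low2 ha hs1 hF hcf hε0 hsmall hmeas.compl
    rw [← hm] at h6
    linarith
  have hmb : m ≤ |a| ^ (-c₁) * (1 + Real.log |a|) := by
    have h3 : ((1 - s / 4) * Real.log |a| - t) * m ≤ |a| ^ (-c₁) +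
        (1 - s / 4) * Real.log |a| * |a| ^ (-c₁) := by
      have e : (1 - s / 4) * Real.log |a| * (m - |a| ^ (-c₁)) =
        (1 - s / 4) * Real.log |a| * m - (1 - s / 4) * Real.log |a| * |a| ^ (-c₁) := by ring
      rw [e] at hO2
      have e2 : ((1 - s / 4) * Real.log |a| - t) * m = (1 - s / 4) * Real.log |a| * m - t * m := by ring
      rw [e2]
      linarith
    have h4 : θ * Real.log |a| - C ≤ (1 - s / 4) * Real.log |a| - t := by
      rw [ht]
      have := mul_le_mul_of_nonneg_right hθe hlog0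
      have e : (1 - s / 4) * Real.log |a| - (1 / (1 + s) * Real.log |a| + C) =
        ((1 - s / 4) - 1 / (1 + s)) * Real.log |a| - C := by ring
      rw [e]
      linarith
    have h5 : m ≤ ((1 - s / 4) * Real.log |a| - t) * m := by
      have : 1 ≤ (1 - s / 4) * Real.log |a| - t := n1.trans h4
      nlinarith
    have h6 : (1 - s / 4) * Real.log |a| * |a| ^ (-c₁) ≤ Real.log |a| * |a| ^ (-c₁) := by
      refine mul_le_mul_of_nonneg_right ?_ hε0
      nlinarith
    linarith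
  have hmc : m ≤ |a| ^ (-c) := hmb.trans n3
  have hm2 : m ≤ 1 / 2 := hmc.trans n4
  -- the exponent
  have hkey : L0 * (1 - m) = W - ∫ z in {z : T2 | t < lam z}ᶜ, lam z := by
    rw [← hO, ← hsplit]
    ring
  have hprod : m * (Real.log |a| + C) ≤ |a| ^ (-c₁) * (1 + Real.log |a|) * (Real.log |a| + C) :=
    mul_le_mul_of_nonneg_right hmb (by linarith)
  have hfin : |L0 - U| ≤ 2 * (|a| ^ (-c₁) + |a| ^ (-c₁) * (1 + Real.log |a|) * (Real.log |a| + C)) := by
    have hup : (L0 - U) * (1 - m) ≤ |a| ^ (-c₁) + m * (Real.log |a| + C) := by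
      have h3 : (L0 - U) * (1 - m) = L0 * (1 - m) - U + m * U := by ring
      rw [h3, hkey]
      have := mul_le_mul_of_nonneg_left hUC hm0
      linarith
    have hlow : -(|a| ^ (-c₁) + m * (Real.log |a| + C)) ≤ (L0 - U) * (1 - m) := by
      have h3 : (L0 - U) * (1 - m) = L0 * (1 - m) - U + m * U := by ring
      rw [h3, hkey]
      have h4 := mul_nonneg hm0 hU0
      have h5 : t * m ≤ m * (Real.log |a| + C) := by
        rw [mul_comm]
        exact mul_le_mul_of_nonneg_left htl hm0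
      linarith
    have h6 : |(L0 - U) * (1 - m)| ≤ |a| ^ (-c₁) + m * (Real.log |a| + C) :=
      abs_le.2 ⟨hlow, hup⟩
    rw [abs_mul, abs_of_nonneg (show 0 ≤ 1 - m by linarith)] at h6
    have h7 : |L0 - U| * (1 / 2) ≤ |L0 - U| * (1 - m) :=
      mul_le_mul_of_nonneg_left (by linarith) (abs_nonneg _)
    linarith
  obtain ⟨hcI, hcmp⟩ := cmp2 (y := fun x => a * f2 x) (hcf.const_mul a |> fun h => by simpa using h) hε0 hll
  rw [← hU] at hcmp
  refine ⟨{z : T2 | t < lam z}, L0, hmeas, hinvΩ, ?_, ?_, hcI, ?_, ?_⟩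
  · rw [hΩ]
    linarith
  · intro ξ h hh hE
    exact hmix ξ h hh hE
  · have h3 : L0 - (∫ x in (0 : ℝ)..1, Real.log |a * f2 x|) =
        (L0 - U) + (U - ∫ x in (0 : ℝ)..1, Real.log |a * f2 x|) := by ring
    rw [h3]
    refine (abs_add_le _ _).trans ?_
    linarith
  · filter_upwards [hlim, ae_plane2 hL0] with q hq1 hq2 hq3
    rw [hq2 hq3] at hq1
    exact hq1

end Pool.Agent.Helper95.PV
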