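import Pool.Agent.Helper95.PV.Dec

/-! Block PV-ND: nondegeneracy.

* `nd_pt`: for fixed `x ∈ [0,1)`, `i = cel 0 x` (level 0, `NN 0 = 8`): by `res1` for the coordinate `(0, i, true)` and `h_inn`: `p2 (update ω (0,i,true) v) x = p2 ω x + κ 8^(-s) (cl v - cl (ω (0,i,true)))`
  (`update ω (l,i,true) v = upd l i (ω (l,i,false)) v ω`), and `uu {v | |P + κ 8^(-s) v| < δ} ≤ (1/2) 2 δ/(κ 8^(-s)) ≤ 8 δ/κ`.
* `nd_a` (`1/R ≤ κ`): Tonelli, `8 δ/κ ≤ 8 R δ`; for `δ > 1` use that the measure is at most one; `b = 1`.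
* `nd_b` (background nondegenerate: `volume {x ∈ [0,1) | |g2 x| < δ} ≤ R δ^(1/R)`, noise bounded by `C`): if `δ < κ²`: `8 δ/κ ≤ 8 δ^(1/2)`; if `κ² ≤ δ ≤ 1`: `|g2 x| ≤ |p2 ω x| + κ C < δ + C δ^(1/2) ≤ (1 + C) δ^(1/2)`, so the measure is at most
  `R ((1+C) δ^(1/2))^(1/R)`; `b = 1/(2R)`.
* `ll`: `log (1 + 4/|y|)`, infinite at `y = 0`. `ll_mean`: `log (1 + u) ≤ (2/b) u^(b/2)` for `u ≥ 0`, so `ll y ≤ (2/b) 4^(b/2) |y|^(-b/2)`, and
  `∫⁻ |p2|^(-b/2) = ∫_0^∞ P (|p2|^(-b/2) > t) dt ≤ 1 + ∫_1^∞ B t^(-2) dt = 1 + B` (layer cake; `P(|p2| < t^(-2/b)) ≤ B t^(-2)`). -/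

set_option autoImplicit false
open MeasureTheory Real Set Filter Topology
open scoped ENNReal

namespace Pool.Agent.Helper95.PV

open Pool.Agent.Helper18.UC (T2 rep toT nn)
open Pool.Agent.Helper18.FD (NN rr pr cl uu lm Bump k1 k2 NN_pos NN_ge)

variable {d : Dat}

private theorem cl_eq_h5 {v : ℝ} (hv : v ∈ Icc (-1 : ℝ) 1) : cl v = v := by
  unfold cl
  rw [min_eq_right hv.2, max_eq_right hv.1]

private theorem uu_small_h5 {K δ P : ℝ} (hK : 0 < K) :
    uu {v | |P + K * cl v| < δ} ≤ ENNReal.ofReal (δ / K) := by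
  have hm : MeasurableSet (Icc (-1 : ℝ) 1) := measurableSet_Icc
  have h1 : uu {v | |P + K * cl v| < δ} = (2 : ℝ≥0∞)⁻¹ * volume ({v | |P + K * cl v| < δ} ∩ Icc (-1 : ℝ) 1) := by
    rw [uu, Measure.smul_apply, Measure.restrict_apply' hm, smul_eq_mul]
  rw [h1]
  have h2 : {v | |P + K * cl v| < δ} ∩ Icc (-1 : ℝ) 1 ⊆ Ioo ((-δ - P) / K) ((δ - P) / K) := by
    rintro v ⟨hv, hv1⟩
    simp only [mem_ofPred_eq] at hv
    rw [cl_eq_h5 hv1, abs_lt] at hv
    constructor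
    · rw [div_lt_iff₀ hK]; linarith [hv.1]
    · rw [lt_div_iff₀ hK]; linarith [hv.2]
  calc (2 : ℝ≥0∞)⁻¹ * volume ({v | |P + K * cl v| < δ} ∩ Icc (-1 : ℝ) 1)
      ≤ (2 : ℝ≥0∞)⁻¹ * volume (Ioo ((-δ - P) / K) ((δ - P) / K)) := by gcongr
    _ = ENNReal.ofReal (δ / K) := by
        rw [Real.volume_Ioo, show (2 : ℝ≥0∞)⁻¹ = ENNReal.ofReal (1 / 2) by
          rw [one_div, ENNReal.ofReal_inv_of_pos (by norm_num)]; norm_num,
          ← ENNReal.ofReal_mul (by norm_num)]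
        congr 1
        field_simp
        ring

private theorem p2_meas_h5 (hd : d.Ok) (x : ℝ) : Measurable fun ω : Om => d.p2 ω x :=
  (p_meas hd).2.comp (measurable_id.prodMk measurable_const)

theorem nd_pt (hd : d.Ok) (x : ℝ) {δ : ℝ} (hδ : 0 < δ) :
    PP {ω | |d.p2 ω x| < δ} ≤ ENNReal.ofReal (8 * δ / d.κ) := by
  set i := cel 0 (x : UnitAddCircle) with hi
  have hil : i < NN 0 := cel_lt 0 _
  have hin : |(NN 0 : ℝ) * rr (x - i / NN 0)| ≤ 1 / 2 := by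
    have := inn_cel 0 (x : UnitAddCircle)
    unfold inn at this
    rw [tc_coe] at this
    exact this
  have hms : MeasurableSet {ω : Om | |d.p2 ω x| < δ} :=
    measurableSet_lt ((p2_meas_h5 hd x).abs) measurable_const
  have hF : Measurable (Set.indicator {ω : Om | |d.p2 ω x| < δ} (fun _ => (1 : ℝ≥0∞))) :=
    measurable_const.indicator hms
  have h1 : PP {ω | |d.p2 ω x| < δ} =
      ∫⁻ ω, Set.indicator {ω : Om | |d.p2 ω x| < δ} (fun _ => (1 : ℝ≥0∞)) ω ∂PP := by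
    rw [lintegral_indicator hms, setLIntegral_one]
  rw [h1, res1 (0, i, true) hF]
  have hK : 0 < d.κ * (NN 0 : ℝ) ^ (-d.s) :=
    mul_pos hd.hκ (Real.rpow_pos_of_pos (by unfold NN; positivity) _)
  have h2 : ∀ ω : Om, ∫⁻ u, Set.indicator {ω : Om | |d.p2 ω x| < δ} (fun _ => (1 : ℝ≥0∞))
      (Function.update ω (0, i, true) u) ∂uu ≤ ENNReal.ofReal (8 * δ / d.κ) := by
    intro ω
    have e1 : ∀ u : ℝ, Function.update ω (0, i, true) u = upd 0 i (ω (0, i, false)) u ω := by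
      intro u
      unfold upd
      rw [Function.update_eq_self]
    have e2 : ∀ u : ℝ, d.p2 (Function.update ω (0, i, true) u) x =
        (d.p2 ω x - d.κ * (NN 0 : ℝ) ^ (-d.s) * cl (ω (0, i, true))) +
          (d.κ * (NN 0 : ℝ) ^ (-d.s)) * cl u := by
      intro u
      rw [e1 u]
      unfold Dat.p2
      rw [(h_inn hd.hχ hd.hs hil (ω (0, i, false)) u ω hin).2]
      ring
    have e3 : ∀ u : ℝ, Set.indicator {ω : Om | |d.p2 ω x| < δ} (fun _ => (1 : ℝ≥0∞))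
        (Function.update ω (0, i, true) u) = Set.indicator {v : ℝ | |(d.p2 ω x - d.κ * (NN 0 : ℝ) ^ (-d.s) *
          cl (ω (0, i, true))) + (d.κ * (NN 0 : ℝ) ^ (-d.s)) * cl v| < δ} (fun _ => (1 : ℝ≥0∞)) u := by
      intro u
      simp only [Set.indicator, mem_ofPred_eq, e2 u]
    have hcl : Measurable cl := by
      unfold cl
      exact measurable_const.max (measurable_const.min measurable_id)
    have hms2 : MeasurableSet {v : ℝ | |(d.p2 ω x - d.κ * (NN 0 : ℝ) ^ (-d.s) *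
          cl (ω (0, i, true))) + (d.κ * (NN 0 : ℝ) ^ (-d.s)) * cl v| < δ} :=
      measurableSet_lt ((measurable_const.add (measurable_const.mul hcl)).abs) measurable_const
    rw [lintegral_congr e3, lintegral_indicator hms2, setLIntegral_one]
    refine (uu_small_h5 hK).trans (ENNReal.ofReal_le_ofReal ?_)
    rw [div_le_div_iff₀ hK hd.hκ]
    have h8 : (1 : ℝ) ≤ 8 * (NN 0 : ℝ) ^ (-d.s) := by
      have hN : (NN 0 : ℝ) = 8 := by unfold NN; norm_num
      rw [hN, Real.rpow_neg (by norm_num)]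
      have : (8 : ℝ) ^ d.s ≤ 8 ^ (1 : ℝ) :=
        Real.rpow_le_rpow_of_exponent_le (by norm_num) (by linarith [hd.hs1])
      rw [Real.rpow_one] at this
      have hp : 0 < (8 : ℝ) ^ d.s := Real.rpow_pos_of_pos (by norm_num) _
      rw [← div_eq_mul_inv, le_div_iff₀ hp]
      linarith
    have : 0 < δ * d.κ := mul_pos hδ hd.hκ
    nlinarith
  calc ∫⁻ ω, ∫⁻ u, Set.indicator {ω : Om | |d.p2 ω x| < δ} (fun _ => (1 : ℝ≥0∞))
          (Function.update ω (0, i, true) u) ∂uu ∂PP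
      ≤ ∫⁻ _ω, ENNReal.ofReal (8 * δ / d.κ) ∂PP := lintegral_mono h2
    _ = ENNReal.ofReal (8 * δ / d.κ) := by
        rw [lintegral_const, measure_univ, mul_one]

private theorem set_meas_h5 (hd : d.Ok) (δ : ℝ) :
    MeasurableSet {q : Om × ℝ | |d.p2 q.1 q.2| < δ} :=
  measurableSet_lt ((p_meas hd).2.abs) measurable_const

private theorem nd_le_one_h5 (E : Set (Om × ℝ)) :
    (PP.prod (volume.restrict (Ico (0 : ℝ) 1))) E ≤ 1 := by
  have : IsProbabilityMeasure (volume.restrict (Ico (0 : ℝ) 1)) :=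
    ⟨by rw [Measure.restrict_apply MeasurableSet.univ, univ_inter, Real.volume_Ico]; norm_num⟩
  exact prob_le_one

private theorem nd_pt2_h5 (hd : d.Ok) {δ : ℝ} (hδ : 0 < δ) :
    (PP.prod (volume.restrict (Ico (0 : ℝ) 1))) {q : Om × ℝ | |d.p2 q.1 q.2| < δ} ≤
      ENNReal.ofReal (8 * δ / d.κ) := by
  rw [Measure.prod_apply_symm (set_meas_h5 hd δ)]
  calc ∫⁻ x, PP ((fun ω => (ω, x)) ⁻¹' {q : Om × ℝ | |d.p2 q.1 q.2| < δ}) ∂volume.restrict (Ico (0 : ℝ) 1)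
      ≤ ∫⁻ _x, ENNReal.ofReal (8 * δ / d.κ) ∂volume.restrict (Ico (0 : ℝ) 1) :=
        lintegral_mono fun x => nd_pt hd x hδ
    _ = ENNReal.ofReal (8 * δ / d.κ) := by
        rw [lintegral_const, Measure.restrict_apply MeasurableSet.univ, univ_inter, Real.volume_Ico]
        norm_num

theorem nd_a {R : ℝ} (hR : 1 ≤ R) : ∃ B : ℝ, 1 ≤ B ∧ ∀ d : Dat, d.Ok → 1 / R ≤ d.κ → d.Nd B 1 := by
  refine ⟨8 * R, by linarith, fun d hd hκ δ hδ => (nd_pt2_h5 hd hδ).trans (ENNReal.ofReal_le_ofReal ?_)⟩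
  rw [Real.rpow_one, div_le_iff₀ hd.hκ]
  have h1 : 1 ≤ R * d.κ := by
    rw [div_le_iff₀ (by linarith)] at hκ
    linarith
  nlinarith

theorem nd_b {R C : ℝ} (hR : 1 ≤ R) (hC : 0 ≤ C) : ∃ B : ℝ, 1 ≤ B ∧ ∀ d : Dat, d.Ok →
    (∀ ω x, |h2 d.χ d.s ω x| ≤ C) →
    (∀ δ : ℝ, 0 < δ → volume {x : ℝ | x ∈ Ico (0 : ℝ) 1 ∧ |d.g2 x| < δ} ≤ ENNReal.ofReal (R * δ ^ (1 / R))) →
    d.Nd B (1 / (2 * R)) := by
  refine ⟨8 * (R * (1 + C)), by nlinarith [mul_nonneg (by linarith : (0:ℝ) ≤ R) hC], fun d hd hh hg δ hδ => ?_⟩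
  have hR0 : (0 : ℝ) < R := by linarith
  have hRC : 1 ≤ R * (1 + C) := by nlinarith [mul_nonneg hR0.le hC]
  rcases le_or_gt δ 1 with h1 | h1
  · rcases lt_or_ge δ (d.κ ^ 2) with hk | hk
    · refine (nd_pt2_h5 hd hδ).trans (ENNReal.ofReal_le_ofReal ?_)
      have hs : √δ < d.κ := by
        rw [show d.κ = √(d.κ ^ 2) from (Real.sqrt_sq hd.hκ.le).symm]
        exact Real.sqrt_lt_sqrt hδ.le hk
      have hs0 : 0 < √δ := Real.sqrt_pos.2 hδ
      have e1 : 8 * δ / d.κ ≤ 8 * √δ := by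
        rw [div_le_iff₀ hd.hκ]
        have : δ = √δ * √δ := (Real.mul_self_sqrt hδ.le).symm
        nlinarith
      have e2 : √δ ≤ δ ^ (1 / (2 * R)) := by
        rw [Real.sqrt_eq_rpow]
        refine Real.rpow_le_rpow_of_exponent_ge hδ h1 ?_
        rw [one_div_le_one_div (by positivity) (by norm_num)]
        linarith
      have e3 : 0 ≤ δ ^ (1 / (2 * R)) := Real.rpow_nonneg hδ.le _
      nlinarith
    · have hκs : d.κ ≤ √δ := by
        rw [show d.κ = √(d.κ ^ 2) from (Real.sqrt_sq hd.hκ.le).symm]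
        exact Real.sqrt_le_sqrt hk
      have hs0 : 0 < √δ := Real.sqrt_pos.2 hδ
      have hδs : δ ≤ √δ := by
        have : δ = √δ * √δ := (Real.mul_self_sqrt hδ.le).symm
        have h3 : √δ ≤ 1 := by rw [Real.sqrt_le_one]; exact h1
        nlinarith
      have hsub : {q : Om × ℝ | |d.p2 q.1 q.2| < δ} ⊆ univ ×ˢ {x : ℝ | |d.g2 x| < (1 + C) * √δ} := by
        rintro ⟨ω, x⟩ hq
        refine ⟨trivial, ?_⟩
        simp only [mem_ofPred_eq] at hq ⊢
        have e1 : d.g2 x = d.p2 ω x - d.κ * h2 d.χ d.s ω x := by unfold Dat.p2; ring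
        rw [e1]
        have e2 := abs_sub (d.p2 ω x) (d.κ * h2 d.χ d.s ω x)
        have e3 : |d.κ * h2 d.χ d.s ω x| ≤ √δ * C := by
          rw [abs_mul, abs_of_pos hd.hκ]
          exact mul_le_mul hκs (hh ω x) (abs_nonneg _) hs0.le
        linarith
      refine (measure_mono hsub).trans ?_
      rw [Measure.prod_prod, measure_univ, one_mul, Measure.restrict_apply' measurableSet_Ico]
      have e4 : {x : ℝ | |d.g2 x| < (1 + C) * √δ} ∩ Ico 0 1 =
          {x : ℝ | x ∈ Ico (0 : ℝ) 1 ∧ |d.g2 x| < (1 + C) * √δ} := by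
        ext x; simp only [mem_inter_iff, mem_ofPred_eq]; tauto
      rw [e4]
      refine (hg _ (by positivity)).trans (ENNReal.ofReal_le_ofReal ?_)
      rw [Real.mul_rpow (by positivity) hs0.le, Real.sqrt_eq_rpow, ← Real.rpow_mul hδ.le]
      have e5 : 1 / 2 * (1 / R) = 1 / (2 * R) := by field_simp
      rw [e5]
      have e6 : (1 + C) ^ (1 / R) ≤ 1 + C := by
        have := Real.rpow_le_rpow_of_exponent_le (by linarith : (1:ℝ) ≤ 1 + C)
          (by rw [div_le_one hR0]; exact hR : 1 / R ≤ 1)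
        rwa [Real.rpow_one] at this
      have e7 : 0 ≤ δ ^ (1 / (2 * R)) := Real.rpow_nonneg hδ.le _
      have e8 : R * ((1 + C) ^ (1 / R) * δ ^ (1 / (2 * R))) ≤ R * ((1 + C) * δ ^ (1 / (2 * R))) := by
        gcongr
      have e9 : 0 ≤ R * ((1 + C) * δ ^ (1 / (2 * R))) := by positivity
      nlinarith
  · refine (nd_le_one_h5 _).trans ?_
    rw [show (1 : ℝ≥0∞) = ENNReal.ofReal 1 by simp]
    refine ENNReal.ofReal_le_ofReal ?_
    have e1 : 1 ≤ δ ^ (1 / (2 * R)) := Real.one_le_rpow h1.le (by positivity)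
    nlinarith

theorem nd_mono {B B' b b' : ℝ} (hB : 0 ≤ B) (hBB : B ≤ B') (hB1 : 1 ≤ B') (hb : b' ≤ b) (hb' : 0 < b') (h : d.Nd B b) :
    d.Nd B' b' := by
  intro δ hδ
  rcases le_or_gt δ 1 with h1 | h1
  · refine (h δ hδ).trans (ENNReal.ofReal_le_ofReal ?_)
    have e1 : δ ^ b ≤ δ ^ b' := Real.rpow_le_rpow_of_exponent_ge hδ h1 hb
    have e2 : 0 ≤ δ ^ b := Real.rpow_nonneg hδ.le _
    exact mul_le_mul hBB e1 e2 (by linarith)
  · refine (nd_le_one_h5 _).trans ?_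
    rw [show (1 : ℝ≥0∞) = ENNReal.ofReal 1 by simp]
    refine ENNReal.ofReal_le_ofReal ?_
    have e1 : 1 ≤ δ ^ b' := Real.one_le_rpow h1.le hb'.le
    nlinarith

/-- `log (1 + 4/|y|)`, infinite at zero -/
noncomputable def ll (y : ℝ) : ℝ≥0∞ := if y = 0 then ⊤ else ENNReal.ofReal (Real.log (1 + 4 / |y|))

theorem meas_ll : Measurable ll := by
  unfold ll
  refine Measurable.ite (measurableSet_singleton 0) measurable_const ?_
  exact (Real.measurable_log.comp (measurable_const.add (measurable_const.div measurable_id.abs))).ennreal_ofReal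

/-- the defect of the mean logarithm -/
noncomputable def Jd (d : Dat) (ω : Om) : ℝ≥0∞ := ∫⁻ x in Ico (0 : ℝ) 1, ll (d.a * d.p2 ω x)

/-- the measure of the set where the second derivative is small -/
noncomputable def Kd (d : Dat) (ω : Om) : ℝ≥0∞ :=
  volume {x : ℝ | x ∈ Ico (0 : ℝ) 1 ∧ |d.p2 ω x| < |d.a| ^ (-(d.s / 4))}

private theorem log_le_h5 {u b : ℝ} (hu : 0 ≤ u) (hb : 0 < b) (hb1 : b ≤ 1) :
    Real.log (1 + u) ≤ 2 / b * u ^ (b / 2) := by
  have h1 : 0 < 1 + u := by linarith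
  have h2 : Real.log ((1 + u) ^ (b / 2)) ≤ (1 + u) ^ (b / 2) - 1 :=
    Real.log_le_sub_one_of_pos (Real.rpow_pos_of_pos h1 _)
  rw [Real.log_rpow h1] at h2
  have h3 : (1 + u) ^ (b / 2) ≤ 1 ^ (b / 2) + u ^ (b / 2) :=
    Real.rpow_add_le_add_rpow (by norm_num) hu (by linarith) (by linarith)
  rw [Real.one_rpow] at h3
  have h4 : b / 2 * Real.log (1 + u) ≤ u ^ (b / 2) := by linarith
  have h5 : Real.log (1 + u) = 2 / b * (b / 2 * Real.log (1 + u)) := by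
    field_simp
  rw [h5]
  gcongr

private theorem zero_set_h5 {B b : ℝ} (hb : 0 < b) (hn : d.Nd B b) :
    (PP.prod (volume.restrict (Ico (0 : ℝ) 1))) {q : Om × ℝ | d.p2 q.1 q.2 = 0} = 0 := by
  have h1 : ∀ δ : ℝ, 0 < δ → (PP.prod (volume.restrict (Ico (0 : ℝ) 1))) {q : Om × ℝ | d.p2 q.1 q.2 = 0} ≤
      ENNReal.ofReal (B * δ ^ b) := by
    intro δ hδ
    refine (measure_mono ?_).trans (hn δ hδ)
    intro q hq
    simp only [mem_ofPred_eq] at hq ⊢
    rw [hq, abs_zero]; exact hδ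
  have h2 : Tendsto (fun δ : ℝ => ENNReal.ofReal (B * δ ^ b)) (𝓝[>] 0) (𝓝 (ENNReal.ofReal (B * 0 ^ b))) := by
    refine (ENNReal.continuous_ofReal.tendsto _).comp ?_
    refine Tendsto.const_mul _ ?_
    exact ((Real.continuousAt_rpow_const 0 b (Or.inr hb.le)).tendsto).mono_left nhdsWithin_le_nhds
  rw [Real.zero_rpow hb.ne', mul_zero, ENNReal.ofReal_zero] at h2
  refine le_antisymm ?_ bot_le
  refine ge_of_tendsto h2 ?_
  filter_upwards [self_mem_nhdsWithin] with δ hδ using h1 δ hδ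

private theorem layer_h5 (hd : d.Ok) {B b : ℝ} (hB : 1 ≤ B) (hb : 0 < b) (hn : d.Nd B b) :
    ∫⁻ q, ENNReal.ofReal (|d.p2 q.1 q.2| ^ (-(b / 2))) ∂(PP.prod (volume.restrict (Ico (0 : ℝ) 1))) ≤
      ENNReal.ofReal (1 + B) := by
  set μ := PP.prod (volume.restrict (Ico (0 : ℝ) 1)) with hμ
  have hm : Measurable fun q : Om × ℝ => |d.p2 q.1 q.2| ^ (-(b / 2)) :=
    ((p_meas hd).2.abs).pow_const _
  rw [lintegral_eq_lintegral_meas_lt μ (Eventually.of_forall fun q => Real.rpow_nonneg (abs_nonneg _) _)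
    hm.aemeasurable]
  have hsplit : Ioi (0 : ℝ) = Ioc 0 1 ∪ Ioi 1 := (Ioc_union_Ioi_eq_Ioi (by norm_num)).symm
  rw [hsplit, lintegral_union measurableSet_Ioi (by
    rw [Set.disjoint_left]; intro x hx hx2; exact absurd hx.2 (not_le.2 hx2))]
  rw [ENNReal.ofReal_add (by norm_num) (by linarith)]
  refine add_le_add ?_ ?_
  · calc ∫⁻ t in Ioc (0 : ℝ) 1, μ {a | t < |d.p2 a.1 a.2| ^ (-(b / 2))}
        ≤ ∫⁻ _t in Ioc (0 : ℝ) 1, 1 := lintegral_mono fun t => nd_le_one_h5 _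
      _ = ENNReal.ofReal 1 := by
          rw [setLIntegral_one, Real.volume_Ioc]; norm_num
  · have h1 : ∀ t ∈ Ioi (1 : ℝ), μ {a | t < |d.p2 a.1 a.2| ^ (-(b / 2))} ≤ ENNReal.ofReal (B * t ^ (-2 : ℝ)) := by
      intro t ht
      have ht0 : (0 : ℝ) < t := lt_trans (by norm_num) ht
      have hδ : 0 < t ^ (-(2 / b)) := Real.rpow_pos_of_pos ht0 _
      refine (measure_mono ?_).trans ((hn _ hδ).trans (ENNReal.ofReal_le_ofReal ?_))
      · intro q hq
        simp only [mem_ofPred_eq] at hq ⊢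
        by_contra hcon
        push Not at hcon
        have h3 : |d.p2 q.1 q.2| ^ (-(b / 2)) ≤ (t ^ (-(2 / b))) ^ (-(b / 2)) :=
          Real.rpow_le_rpow_of_nonpos hδ hcon (by linarith)
        rw [← Real.rpow_mul ht0.le, show -(2 / b) * -(b / 2) = 1 by field_simp, Real.rpow_one] at h3
        linarith
      · rw [← Real.rpow_mul ht0.le, show -(2 / b) * b = -2 by field_simp]
    calc ∫⁻ t in Ioi (1 : ℝ), μ {a | t < |d.p2 a.1 a.2| ^ (-(b / 2))}
        ≤ ∫⁻ t in Ioi (1 : ℝ), ENNReal.ofReal (B * t ^ (-2 : ℝ)) :=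
          setLIntegral_mono' measurableSet_Ioi h1
      _ = ENNReal.ofReal (∫ t in Ioi (1 : ℝ), B * t ^ (-2 : ℝ)) := by
          rw [ofReal_integral_eq_lintegral_ofReal]
          · exact (integrableOn_Ioi_rpow_of_lt (by norm_num) (by norm_num)).const_mul B
          · filter_upwards [ae_restrict_mem measurableSet_Ioi] with t ht
            have ht0 : (0 : ℝ) < t := lt_trans (by norm_num) ht
            positivity
      _ ≤ ENNReal.ofReal B := by
          refine ENNReal.ofReal_le_ofReal ?_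
          rw [integral_const_mul, integral_Ioi_rpow_of_lt (by norm_num) (by norm_num)]
          norm_num

theorem ll_mean {B b : ℝ} (hB : 1 ≤ B) (hb : 0 < b) (hb1 : b ≤ 1) : ∃ C : ℝ, 0 < C ∧ ∀ d : Dat, d.Ok → d.Nd B b →
    ∫⁻ ω, Jd d ω ∂PP ≤ ENNReal.ofReal (C * |d.a| ^ (-(b / 2))) := by
  refine ⟨2 / b * 4 ^ (b / 2) * (1 + B), by positivity, fun d hd hn => ?_⟩
  set μ := PP.prod (volume.restrict (Ico (0 : ℝ) 1)) with hμ
  have ha : 0 < |d.a| := lt_of_lt_of_le (by norm_num) hd.ha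
  have hm : Measurable fun q : Om × ℝ => ll (d.a * d.p2 q.1 q.2) :=
    meas_ll.comp (measurable_const.mul (p_meas hd).2)
  have h1 : ∫⁻ ω, Jd d ω ∂PP = ∫⁻ q, ll (d.a * d.p2 q.1 q.2) ∂μ := by
    rw [hμ, lintegral_prod _ hm.aemeasurable]
    rfl
  rw [h1]
  have h2 : ∀ᵐ q ∂μ, ll (d.a * d.p2 q.1 q.2) ≤
      ENNReal.ofReal (2 / b * 4 ^ (b / 2) * |d.a| ^ (-(b / 2))) *
        ENNReal.ofReal (|d.p2 q.1 q.2| ^ (-(b / 2))) := by
    have h3 : ∀ᵐ q ∂μ, d.p2 q.1 q.2 ≠ 0 := by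
      rw [ae_iff]
      simpa using zero_set_h5 hb hn
    filter_upwards [h3] with q hq
    have hne : d.a * d.p2 q.1 q.2 ≠ 0 := mul_ne_zero (abs_pos.1 ha) hq
    unfold ll
    rw [if_neg hne, ← ENNReal.ofReal_mul (by positivity)]
    refine ENNReal.ofReal_le_ofReal ?_
    have hp : 0 < |d.p2 q.1 q.2| := abs_pos.2 hq
    refine (log_le_h5 (by positivity) hb hb1).trans (le_of_eq ?_)
    rw [abs_mul, Real.div_rpow (by norm_num) (by positivity), Real.mul_rpow ha.le hp.le,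
      Real.rpow_neg ha.le, Real.rpow_neg hp.le]
    field_simp
  calc ∫⁻ q, ll (d.a * d.p2 q.1 q.2) ∂μ
      ≤ ∫⁻ q, ENNReal.ofReal (2 / b * 4 ^ (b / 2) * |d.a| ^ (-(b / 2))) *
        ENNReal.ofReal (|d.p2 q.1 q.2| ^ (-(b / 2))) ∂μ := lintegral_mono_ae h2
    _ = ENNReal.ofReal (2 / b * 4 ^ (b / 2) * |d.a| ^ (-(b / 2))) *
        ∫⁻ q, ENNReal.ofReal (|d.p2 q.1 q.2| ^ (-(b / 2))) ∂μ := by
        rw [lintegral_const_mul']
        exact ENNReal.ofReal_ne_top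
    _ ≤ ENNReal.ofReal (2 / b * 4 ^ (b / 2) * |d.a| ^ (-(b / 2))) * ENNReal.ofReal (1 + B) := by
        gcongr
        exact layer_h5 hd hB hb hn
    _ = ENNReal.ofReal (2 / b * 4 ^ (b / 2) * (1 + B) * |d.a| ^ (-(b / 2))) := by
        rw [← ENNReal.ofReal_mul (by positivity)]
        congr 1
        ring

theorem kd_mean (hd : d.Ok) {B b : ℝ} (hn : d.Nd B b) :
    ∫⁻ ω, Kd d ω ∂PP ≤ ENNReal.ofReal (B * |d.a| ^ (-(d.s / 4 * b))) := by
  have ha : 0 < |d.a| := lt_of_lt_of_le (by norm_num) hd.ha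
  have hδ : 0 < |d.a| ^ (-(d.s / 4)) := Real.rpow_pos_of_pos ha _
  have h1 := hn _ hδ
  rw [← Real.rpow_mul ha.le, show -(d.s / 4) * b = -(d.s / 4 * b) by ring] at h1
  refine le_trans (le_of_eq ?_) h1
  rw [Measure.prod_apply (set_meas_h5 hd _)]
  refine lintegral_congr fun ω => ?_
  unfold Kd
  rw [Measure.restrict_apply' measurableSet_Ico]
  congr 1
  ext x
  simp only [mem_ofPred_eq, mem_inter_iff, mem_preimage]
  tauto

end Pool.Agent.Helper95.PV
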