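import Pool.Agent.Helper95.PV.Lw
import Pool.Agent.Helper95.PV.Nd

/-! Block PV-PAR: families of data depending on a parameter: joint measurability. Port of `FD/Par1.lean`, `FD/Par.lean` (`par_meas`).

`h1`, `h2` are jointly measurable in `(ω, x)` (`h_meas`; `χ` and `s` do not depend on the parameter), so `(p, ω, x) ↦ ((D p).p1 ω x, (D p).p2 ω x)` is measurable; then `cc`, `va`, `sk`, iterates, `Mm`, `un`, `Lw` (infimum of countably many), `Hi`, `Jd`
(`Measurable.lintegral_prod_right'`), `Kd` (`measurable_measure_prodMk_left`). -/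

set_option autoImplicit false
open MeasureTheory Real Set Filter Topology
open scoped ENNReal

namespace Pool.Agent.Helper95.PV

open Pool.Agent.Helper18.UC (T2 rep toT nn)
open Pool.Agent.Helper18.FD (NN rr pr cl uu lm Bump k1 k2 NN_pos NN_ge)

/-- a measurable family of data with the same bump and the same smoothness -/
structure Fam {P : Type*} [MeasurableSpace P] (D : P → Dat) : Prop where
  ok : ∀ p, (D p).Ok
  eχ : ∀ p p', (D p).χ = (D p').χ
  es : ∀ p p', (D p).s = (D p').s
  ma : Measurable fun p => (D p).a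
  mκ : Measurable fun p => (D p).κ
  m1 : Measurable fun r : P × ℝ => (D r.1).g1 r.2
  m2 : Measurable fun r : P × ℝ => (D r.1).g2 r.2

/-! ### joint measurability of the pieces -/

private structure MF1 {P : Type*} [MeasurableSpace P] (D : P → Dat) : Prop where
  ok : ∀ p, (D p).Ok
  ma : Measurable fun p => (D p).a
  q1 : Measurable fun r : P × (Om × ℝ) => (D r.1).p1 r.2.1 r.2.2
  q2 : Measurable fun r : P × (Om × ℝ) => (D r.1).p2 r.2.1 r.2.2

section aux1

variable {P : Type*} [MeasurableSpace P] {D : P → Dat}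

private theorem meas_coe1 : Measurable fun x : ℝ => (x : UnitAddCircle) :=
  (AddCircle.continuous_mk' (1 : ℝ)).measurable

private theorem meas_x1 : Measurable fun p : P × Pt => p.2.2.1 :=
  measurable_fst.comp (measurable_snd.comp measurable_snd)

private theorem meas_rx1 : Measurable fun p : P × Pt => (p.1, (p.2.1, rp p.2.2.1)) :=
  measurable_fst.prodMk ((measurable_fst.comp measurable_snd).prodMk (meas_rp.comp meas_x1))

private theorem MF1.meas_sk (h : MF1 D) : Measurable fun p : P × Pt => sk (D p.1) p.2 := by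
  have h1 : Measurable fun p : P × Pt => (D p.1).p1 p.2.1 (rp p.2.2.1) := h.q1.comp meas_rx1
  have h2 : Measurable fun p : P × Pt => 2 * rp p.2.2.1 + (D p.1).a * (D p.1).p1 p.2.1 (rp p.2.2.1) :=
    ((meas_rp.comp meas_x1).const_mul 2).add ((h.ma.comp measurable_fst).mul h1)
  have h3 : Measurable fun p : P × Pt => cc (D p.1) p.2.1 p.2.2.1 := meas_coe1.comp h2
  have h4 : Measurable fun p : P × Pt => cc (D p.1) p.2.1 p.2.2.1 - p.2.2.2 :=
    h3.sub (measurable_snd.comp (measurable_snd.comp measurable_snd))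
  exact (measurable_fst.comp measurable_snd).prodMk (h4.prodMk meas_x1)

private theorem MF1.meas_vv (h : MF1 D) : Measurable fun p : P × Pt => vv (D p.1) p.2 := by
  have h1 : Measurable fun p : P × Pt => (D p.1).p2 p.2.1 (rp p.2.2.1) := h.q2.comp meas_rx1
  exact measurable_const.add ((h.ma.comp measurable_fst).mul h1)

private theorem MF1.meas_iter (h : MF1 D) (n : ℕ) :
    Measurable fun p : P × Pt => (sk (D p.1))^[n] p.2 := by
  induction n with
  | zero => exact measurable_snd
  | succ n ih =>
    have e : (fun p : P × Pt => (sk (D p.1))^[n + 1] p.2) =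
        fun p : P × Pt => sk (D p.1) ((sk (D p.1))^[n] p.2) := by
      funext p
      rw [Function.iterate_succ_apply']
    rw [e]
    exact h.meas_sk.comp (measurable_fst.prodMk ih)

private theorem MF1.meas_Mm (h : MF1 D) (n : ℕ) :
    ∀ i j : Fin 2, Measurable fun p : P × Pt => Mm (D p.1) n p.2 i j := by
  induction n with
  | zero =>
    intro i j
    simp only [Mm_zero]
    exact measurable_const
  | succ n ih =>
    intro i j
    have h2 : Measurable fun p : P × Pt => (p.1, (sk (D p.1))^[n] p.2) :=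
      measurable_fst.prodMk (h.meas_iter n)
    have h1 : Measurable fun p : P × Pt => vv (D p.1) ((sk (D p.1))^[n] p.2) := h.meas_vv.comp h2
    have h3 : ∀ k l : Fin 2, Measurable fun p : P × Pt =>
        mv (vv (D p.1) ((sk (D p.1))^[n] p.2)) k l := by
      intro k l
      unfold mv
      fin_cases k <;> fin_cases l
      · exact h1
      · exact measurable_const
      · exact measurable_const
      · exact measurable_const
    have e : (fun p : P × Pt => Mm (D p.1) (n + 1) p.2 i j) = fun p : P × Pt =>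
        mv (vv (D p.1) ((sk (D p.1))^[n] p.2)) i 0 * Mm (D p.1) n p.2 0 j +
          mv (vv (D p.1) ((sk (D p.1))^[n] p.2)) i 1 * Mm (D p.1) n p.2 1 j := by
      funext p
      rw [Mm_succ, Matrix.mul_apply, Fin.sum_univ_two]
    rw [e]
    exact ((h3 i 0).mul (ih 0 j)).add ((h3 i 1).mul (ih 1 j))

private theorem MF1.meas_log (h : MF1 D) (n : ℕ) :
    Measurable fun p : P × Pt => Real.log (nn (Mm (D p.1) n p.2)) := by
  have h1 := h.meas_Mm n
  have h2 : Measurable fun p : P × Pt => nn (Mm (D p.1) n p.2) := by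
    unfold nn
    exact (((h1 0 0).abs.add (h1 0 1).abs).add (h1 1 0).abs).add (h1 1 1).abs
  exact Real.measurable_log.comp h2

private theorem MF1.meas_un (h : MF1 D) (n : ℕ) :
    Measurable fun p : P × Om => un (D p.1) p.2 n := by
  have h1 : Measurable fun p : (P × Om) × T2 =>
      Real.log (nn (Mm (D p.1.1) n (p.1.2, p.2))) :=
    (h.meas_log n).comp ((measurable_fst.comp measurable_fst).prodMk
      ((measurable_snd.comp measurable_fst).prodMk measurable_snd))
  exact (h1.stronglyMeasurable.integral_prod_right').measurable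

private theorem MF1.meas_Lw (h : MF1 D) : Measurable fun p : P × Om => Lw (D p.1) p.2 := by
  refine measurable_of_tendsto_metrizable (f := fun n : ℕ => fun p : P × Om =>
    un (D p.1) p.2 n / n) (fun n => (h.meas_un n).div_const _) ?_
  rw [tendsto_pi_nhds]
  intro p
  exact Lw_tendsto (h.ok p.1) p.2

private theorem MF1.meas_Hi (h : MF1 D) : Measurable fun p : P × Om => Hi (D p.1) p.2 := by
  have e : (fun p : P × Om => Hi (D p.1) p.2) = fun p : P × Om => un (D p.1) p.2 1 :=
    funext fun p => (un_one (h.ok p.1) p.2).symm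
  rw [e]
  exact h.meas_un 1

private theorem MF1.meas_p2 (h : MF1 D) :
    Measurable fun r : (P × Om) × ℝ => (D r.1.1).p2 r.1.2 r.2 :=
  h.q2.comp ((measurable_fst.comp measurable_fst).prodMk
    ((measurable_snd.comp measurable_fst).prodMk measurable_snd))

private theorem MF1.meas_Jd (h : MF1 D) : Measurable fun p : P × Om => Jd (D p.1) p.2 := by
  have h1 : Measurable fun r : (P × Om) × ℝ => ll ((D r.1.1).a * (D r.1.1).p2 r.1.2 r.2) :=
    meas_ll.comp ((h.ma.comp (measurable_fst.comp measurable_fst)).mul h.meas_p2)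
  exact h1.lintegral_prod_right'

private theorem MF1.meas_Kd (h : MF1 D) {s : ℝ} (hs : ∀ p, (D p).s = s) :
    Measurable fun p : P × Om => Kd (D p.1) p.2 := by
  have hS : MeasurableSet {r : (P × Om) × ℝ |
      r.2 ∈ Ico (0 : ℝ) 1 ∧ |(D r.1.1).p2 r.1.2 r.2| < |(D r.1.1).a| ^ (-(s / 4))} := by
    refine MeasurableSet.inter (measurable_snd measurableSet_Ico) ?_
    exact measurableSet_lt h.meas_p2.abs
      ((h.ma.comp (measurable_fst.comp measurable_fst)).abs.pow_const _)
  have e : (fun p : P × Om => Kd (D p.1) p.2) = fun p : P × Om => volume (Prod.mk p ⁻¹'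
      {r : (P × Om) × ℝ | r.2 ∈ Ico (0 : ℝ) 1 ∧
        |(D r.1.1).p2 r.1.2 r.2| < |(D r.1.1).a| ^ (-(s / 4))}) := by
    funext p
    unfold Kd
    rw [hs p.1]
    rfl
  rw [e]
  exact measurable_measure_prodMk_left hS

end aux1

theorem par_meas {P : Type*} [MeasurableSpace P] {D : P → Dat} (hD : Fam D) :
    (Measurable fun r : P × Om => Lw (D r.1) r.2) ∧ (Measurable fun r : P × Om => Hi (D r.1) r.2) ∧
    (Measurable fun r : P × Om => Jd (D r.1) r.2) ∧ Measurable fun r : P × Om => Kd (D r.1) r.2 := by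
  rcases isEmpty_or_nonempty P with hP | ⟨⟨p₀⟩⟩
  · exact ⟨measurable_of_empty _, measurable_of_empty _, measurable_of_empty _, measurable_of_empty _⟩
  have hok := hD.ok p₀
  obtain ⟨χ, hχ⟩ : ∃ χ, χ = (D p₀).χ := ⟨_, rfl⟩
  obtain ⟨s, hs⟩ : ∃ s, s = (D p₀).s := ⟨_, rfl⟩
  have e1 : ∀ p, (D p).χ = χ := fun p => (hD.eχ p p₀).trans hχ.symm
  have e2 : ∀ p, (D p).s = s := fun p => (hD.es p p₀).trans hs.symm
  have hB : Bump χ := by rw [hχ]; exact hok.hχ
  have hs0 : 0 < s := by rw [hs]; exact hok.hs
  obtain ⟨-, b1, b2⟩ := h_meas hB hs0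
  have hx : Measurable fun p : P × (Om × ℝ) => (p.1, p.2.2) :=
    measurable_fst.prodMk (measurable_snd.comp measurable_snd)
  have hk : Measurable fun p : P × (Om × ℝ) => (D p.1).κ := hD.mκ.comp measurable_fst
  have hM : MF1 D := by
    refine ⟨hD.ok, hD.ma, ?_, ?_⟩
    · simp only [Dat.p1, e1, e2]
      exact (hD.m1.comp hx).add (hk.mul (b1.comp measurable_snd))
    · simp only [Dat.p2, e1, e2]
      exact (hD.m2.comp hx).add (hk.mul (b2.comp measurable_snd))
  exact ⟨hM.meas_Lw, hM.meas_Hi, hM.meas_Jd, hM.meas_Kd e2⟩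

end Pool.Agent.Helper95.PV
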