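import Pool.Agent.Helper95.PV.Comb
import Pool.Agent.Helper95.PV.DComp
import Pool.Agent.Helper95.PV.Par

/-! Block PV-FINAL: the final theorems, from `fix`, `kd_mean`, `ll_mean`, `nd_a`, `nd_b`, `dcomp`, `par_meas` and a Borel-Cantelli argument (compare `FD/Final.lean`, `FD/Par.lean`). -/

set_option autoImplicit false
open MeasureTheory Real Set Filter Topology
open scoped ENNReal

namespace Pool.Agent.Helper95.PV

open Pool.Agent.Helper18.UC (T2 rep toT nn nn_nonneg)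
open Pool.Agent.Helper18.FD (NN rr pr cl uu lm Bump k1 k2 NN_pos NN_ge)

/-! ### from a bound in the mean for every parameter to almost every noise and most parameters -/

theorem bcz {Ω : Type*} [MeasurableSpace Ω] {μ : Measure Ω} [IsFiniteMeasure μ] {c A : ℝ}
    (hc : 0 < c) (hc1 : c ≤ 1) (hA : 1 ≤ A) {Z : ℝ × Ω → ℝ≥0∞} (hZ : Measurable Z)
    (h : ∀ a, A ≤ |a| → ∫⁻ ω, Z (a, ω) ∂μ ≤ ENNReal.ofReal (|a| ^ (-c))) :
    ∀ᵐ ω ∂μ, ∃ R₀ : ℝ, ∀ R : ℝ, R₀ ≤ R →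
      volume {a : ℝ | |a| ≤ R ∧ ¬ (A ≤ |a| ∧ Z (a, ω) ≤ ENNReal.ofReal (|a| ^ (-(c / 4))))} ≤
        ENNReal.ofReal (R ^ (1 - c / 4)) := by
  classical
  -- the bad set and the weight
  let S : Set (ℝ × Ω) := {r | A ≤ |r.1| ∧ ENNReal.ofReal (|r.1| ^ (-(c / 4))) < Z r}
  have habs : Measurable fun r : ℝ × Ω => |r.1| := measurable_fst.abs
  have hS : MeasurableSet S := by
    have h1 : MeasurableSet {r : ℝ × Ω | A ≤ |r.1|} := measurableSet_le measurable_const habs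
    have h2 : MeasurableSet {r : ℝ × Ω | ENNReal.ofReal (|r.1| ^ (-(c / 4))) < Z r} :=
      measurableSet_lt (habs.pow_const _).ennreal_ofReal hZ
    exact h1.inter h2
  let Φ : ℝ × Ω → ℝ≥0∞ := S.indicator fun r => ENNReal.ofReal (|r.1| ^ (-(1 - c / 2)))
  have hΦ : Measurable Φ := (habs.pow_const _).ennreal_ofReal.indicator hS
  -- the integral over the noise
  have hint : ∀ a : ℝ, ∫⁻ ω, Φ (a, ω) ∂μ ≤
      ENNReal.ofReal (2 ^ (1 + c / 4)) * ENNReal.ofReal ((1 + ‖a‖) ^ (-(1 + c / 4))) := by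
    intro a
    by_cases ha : A ≤ |a|
    · have hx : 0 < |a| := lt_of_lt_of_le one_pos (hA.trans ha)
      have ht : 0 < |a| ^ (-(c / 4)) := rpow_pos_of_pos hx _
      have h1 : ∀ ω, Φ (a, ω) = ({ω | ENNReal.ofReal (|a| ^ (-(c / 4))) < Z (a, ω)} : Set Ω).indicator
          (fun _ => ENNReal.ofReal (|a| ^ (-(1 - c / 2)))) ω := by
        intro ω
        by_cases hω : ENNReal.ofReal (|a| ^ (-(c / 4))) < Z (a, ω)
        · rw [Set.indicator_of_mem (show ω ∈ ({ω | ENNReal.ofReal (|a| ^ (-(c / 4))) < Z (a, ω)} : Set Ω) from hω)]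
          exact Set.indicator_of_mem (show (a, ω) ∈ S from ⟨ha, hω⟩) _
        · rw [Set.indicator_of_notMem
            (show ω ∉ ({ω | ENNReal.ofReal (|a| ^ (-(c / 4))) < Z (a, ω)} : Set Ω) from hω)]
          exact Set.indicator_of_notMem (fun hm : (a, ω) ∈ S => hω hm.2) _
      have hm : Measurable fun ω => Z (a, ω) := hZ.comp measurable_prodMk_left
      have hms : MeasurableSet {ω | ENNReal.ofReal (|a| ^ (-(c / 4))) < Z (a, ω)} :=
        measurableSet_lt measurable_const hm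
      rw [lintegral_congr h1, lintegral_indicator_const hms]
      -- Markov
      have h2 : ENNReal.ofReal (|a| ^ (-(c / 4))) * μ {ω | ENNReal.ofReal (|a| ^ (-(c / 4))) < Z (a, ω)} ≤
          ENNReal.ofReal (|a| ^ (-c)) := by
        have h3 := mul_meas_ge_le_lintegral (μ := μ) hm (ENNReal.ofReal (|a| ^ (-(c / 4))))
        refine le_trans (mul_le_mul_right (measure_mono ?_) _) (h3.trans (h a ha))
        intro ω hω
        exact (show ENNReal.ofReal (|a| ^ (-(c / 4))) < Z (a, ω) from hω).le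
      have h5 : μ {ω | ENNReal.ofReal (|a| ^ (-(c / 4))) < Z (a, ω)} ≤
          ENNReal.ofReal (|a| ^ (c / 4)) * ENNReal.ofReal (|a| ^ (-c)) := by
        have h6 : ENNReal.ofReal (|a| ^ (c / 4)) * ENNReal.ofReal (|a| ^ (-(c / 4))) = 1 := by
          rw [← ENNReal.ofReal_mul (rpow_nonneg hx.le _), ← rpow_add hx, add_neg_cancel, rpow_zero,
            ENNReal.ofReal_one]
        calc μ {ω | ENNReal.ofReal (|a| ^ (-(c / 4))) < Z (a, ω)}
            = ENNReal.ofReal (|a| ^ (c / 4)) * (ENNReal.ofReal (|a| ^ (-(c / 4))) *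
              μ {ω | ENNReal.ofReal (|a| ^ (-(c / 4))) < Z (a, ω)}) := by rw [← mul_assoc, h6, one_mul]
          _ ≤ _ := by gcongr
      refine (mul_le_mul_right h5 _).trans ?_
      rw [← ENNReal.ofReal_mul (rpow_nonneg hx.le _), ← ENNReal.ofReal_mul (rpow_nonneg hx.le _),
        ← ENNReal.ofReal_mul (rpow_nonneg zero_le_two _)]
      refine ENNReal.ofReal_le_ofReal ?_
      rw [← rpow_add hx, ← rpow_add hx, Real.norm_eq_abs]
      have h7 : -(1 - c / 2) + (c / 4 + -c) = -(1 + c / 4) := by ring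
      rw [h7]
      have h8 : (0 : ℝ) < 1 + |a| := by linarith
      have h9 : (1 + |a|) / 2 ≤ |a| := by linarith
      have h10 : |a| ^ (-(1 + c / 4)) ≤ ((1 + |a|) / 2) ^ (-(1 + c / 4)) :=
        rpow_le_rpow_of_nonpos (by positivity) h9 (by linarith)
      refine h10.trans (le_of_eq ?_)
      rw [div_rpow h8.le zero_le_two, rpow_neg zero_le_two, div_inv_eq_mul, mul_comm]
    · have h1 : ∀ ω, Φ (a, ω) = 0 := fun ω =>
        Set.indicator_of_notMem (fun hm : (a, ω) ∈ S => ha hm.1) _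
      rw [lintegral_congr h1, lintegral_zero]
      exact zero_le
  -- the total integral is finite
  have hfin : ∫⁻ ω, ∫⁻ a, Φ (a, ω) ∂volume ∂μ ≠ ⊤ := by
    have h1 : ∫⁻ ω, ∫⁻ a, Φ (a, ω) ∂volume ∂μ = ∫⁻ a, ∫⁻ ω, Φ (a, ω) ∂μ ∂volume :=
      (lintegral_lintegral_swap (f := fun a ω => Φ (a, ω)) hΦ.aemeasurable).symm
    rw [h1]
    refine ne_top_of_le_ne_top ?_ (lintegral_mono hint)
    rw [lintegral_const_mul' _ _ ENNReal.ofReal_ne_top]
    refine ENNReal.mul_ne_top ENNReal.ofReal_ne_top (ne_of_lt ?_)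
    refine finite_integral_one_add_norm ?_
    rw [Module.finrank_self]
    push_cast
    linarith
  have hZ' : ∀ᵐ ω ∂μ, ∫⁻ a, Φ (a, ω) ∂volume < ⊤ :=
    ae_lt_top (hΦ.comp measurable_swap).lintegral_prod_right' hfin
  filter_upwards [hZ'] with ω hω
  obtain ⟨K, hK0, hK⟩ : ∃ K : ℝ, 0 ≤ K ∧ ∫⁻ a, Φ (a, ω) ∂volume = ENNReal.ofReal K :=
    ⟨_, ENNReal.toReal_nonneg, (ENNReal.ofReal_toReal hω.ne).symm⟩
  refine ⟨max 1 ((2 * A + K) ^ (4 / c)), fun R hR => ?_⟩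
  have hR1 : 1 ≤ R := (le_max_left _ _).trans hR
  have hR0 : 0 < R := lt_of_lt_of_le one_pos hR1
  have hR2 : (2 * A + K) ^ (4 / c) ≤ R := (le_max_right _ _).trans hR
  have hAK : 0 ≤ 2 * A + K := by linarith
  -- the part of the bad set in the ball of radius `R`
  have hbad : volume {a : ℝ | |a| ≤ R ∧ (a, ω) ∈ S} ≤
      ENNReal.ofReal (R ^ (1 - c / 2)) * ENNReal.ofReal K := by
    have hm : MeasurableSet {a : ℝ | |a| ≤ R ∧ (a, ω) ∈ S} :=
      (measurableSet_le measurable_id.abs measurable_const).inter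
        (measurable_prodMk_right hS)
    have h1 : ENNReal.ofReal (R ^ (-(1 - c / 2))) * volume {a : ℝ | |a| ≤ R ∧ (a, ω) ∈ S} ≤
        ENNReal.ofReal K := by
      rw [← hK, ← lintegral_indicator_const hm]
      refine lintegral_mono fun a => ?_
      by_cases ha : a ∈ {a : ℝ | |a| ≤ R ∧ (a, ω) ∈ S}
      · rw [Set.indicator_of_mem ha]
        change _ ≤ S.indicator _ _
        rw [Set.indicator_of_mem ha.2]
        refine ENNReal.ofReal_le_ofReal ?_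
        have hx : 0 < |a| := lt_of_lt_of_le one_pos (hA.trans ha.2.1)
        exact rpow_le_rpow_of_nonpos hx ha.1 (by linarith)
      · rw [Set.indicator_of_notMem ha]
        exact zero_le
    have h2 : ENNReal.ofReal (R ^ (1 - c / 2)) * ENNReal.ofReal (R ^ (-(1 - c / 2))) = 1 := by
      rw [← ENNReal.ofReal_mul (rpow_nonneg hR0.le _), ← rpow_add hR0, add_neg_cancel, rpow_zero,
        ENNReal.ofReal_one]
    calc volume {a : ℝ | |a| ≤ R ∧ (a, ω) ∈ S}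
        = ENNReal.ofReal (R ^ (1 - c / 2)) * (ENNReal.ofReal (R ^ (-(1 - c / 2))) *
          volume {a : ℝ | |a| ≤ R ∧ (a, ω) ∈ S}) := by rw [← mul_assoc, h2, one_mul]
      _ ≤ _ := by gcongr
  have hsub : {a : ℝ | |a| ≤ R ∧ ¬ (A ≤ |a| ∧ Z (a, ω) ≤ ENNReal.ofReal (|a| ^ (-(c / 4))))} ⊆
      Icc (-A) A ∪ {a : ℝ | |a| ≤ R ∧ (a, ω) ∈ S} := by
    rintro a ⟨ha1, ha2⟩
    by_cases ha : A ≤ |a|
    · right
      refine ⟨ha1, ha, ?_⟩
      by_contra hcon
      exact ha2 ⟨ha, not_lt.1 hcon⟩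
    · left
      exact abs_le.1 (not_le.1 ha).le
  refine (measure_mono hsub).trans ((measure_union_le _ _).trans ((add_le_add le_rfl hbad).trans ?_))
  rw [Real.volume_Icc, ← ENNReal.ofReal_mul (rpow_nonneg hR0.le _),
    ← ENNReal.ofReal_add (by linarith) (mul_nonneg (rpow_nonneg hR0.le _) hK0)]
  refine ENNReal.ofReal_le_ofReal ?_
  have h3 : 1 ≤ R ^ (1 - c / 2) := one_le_rpow hR1 (by linarith)
  have h4 : 2 * A + K ≤ R ^ (c / 4) := by
    have h5 : ((2 * A + K) ^ (4 / c)) ^ (c / 4) ≤ R ^ (c / 4) :=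
      rpow_le_rpow (rpow_nonneg hAK _) hR2 (by positivity)
    have h5' : 4 / c * (c / 4) = 1 := by field_simp
    rwa [← rpow_mul hAK, h5', rpow_one] at h5
  have h6 : R ^ (1 - c / 4) = R ^ (c / 4) * R ^ (1 - c / 2) := by
    rw [← rpow_add hR0]
    congr 1
    ring
  rw [h6]
  have h7 : (2 * A + K) * R ^ (1 - c / 2) ≤ R ^ (c / 4) * R ^ (1 - c / 2) :=
    mul_le_mul_of_nonneg_right h4 (by linarith)
  nlinarith

/-! ### the datum -/

/-- the coupling is not small or the background is nondegenerate -/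
def NdC (R κ : ℝ) (g2 : ℝ → ℝ) : Prop := 1 / R ≤ κ ∨
  ∀ δ : ℝ, 0 < δ → volume {x : ℝ | x ∈ Ico (0 : ℝ) 1 ∧ |g2 x| < δ} ≤ ENNReal.ofReal (R * δ ^ (1 / R))

/-- the defect -/
noncomputable def Zd (d : Dat) (ω : Om) : ℝ≥0∞ := ENNReal.ofReal (Hi d ω - Lw d ω) + Jd d ω + Kd d ω

theorem ok_of {s : ℝ} (hs : 0 < s) (hs1 : s < 1) {χ : ℝ → ℝ} (hχ : Bump χ) {C : ℝ} (hC : 1 ≤ C)
    (h1 : ∀ ω x, |h1 χ s ω x| ≤ C) (h2 : ∀ ω x, |h2 χ s ω x| ≤ C) {R : ℝ} (hR : 1 ≤ R) {a κ : ℝ}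
    {g1 g2 : ℝ → ℝ} (ha : 100 ≤ |a|) (haR : R + C ≤ |a|) (hκ : 0 < κ) (hκ1 : κ ≤ 1) (hg : PotOk R s g1 g2) :
    (Dat.mk a κ s (R + C) χ g1 g2).Ok := by
  have key : ∀ x y : ℝ, |x| ≤ R → |y| ≤ C → |x + κ * y| ≤ R + C := by
    intro x y hx hy
    have e1 : |κ * y| ≤ C := by
      rw [abs_mul, abs_of_pos hκ]
      have := abs_nonneg y
      nlinarith
    exact (abs_add_le _ _).trans (add_le_add hx e1)
  have hcont : Continuous g2 := by
    rw [continuous_iff_continuousAt]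
    intro x
    have e1 : Tendsto (fun y : ℝ => R * |y - x| ^ s) (𝓝 x) (𝓝 0) := by
      have e2 : Continuous fun y : ℝ => R * |y - x| ^ s :=
        continuous_const.mul ((continuous_abs.comp (continuous_id.sub continuous_const)).rpow_const
          fun _ => Or.inr hs.le)
      have e3 := e2.tendsto x
      simpa [hs.ne'] using e3
    have e4 : Tendsto (fun y : ℝ => |g2 y - g2 x|) (𝓝 x) (𝓝 0) :=
      squeeze_zero (fun _ => abs_nonneg _) (fun y => hg.hold y x) e1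
    have e5 : Tendsto (fun y : ℝ => g2 y - g2 x) (𝓝 x) (𝓝 0) := (tendsto_zero_iff_abs_tendsto_zero _).2 e4
    have e6 := e5.add_const (g2 x)
    simpa [ContinuousAt] using e6
  exact
    { ha := ha
      hR := by show 1 ≤ R + C; linarith
      hRa := haR
      hκ := hκ
      hκ1 := hκ1
      hs := hs
      hs1 := hs1
      hχ := hχ
      c1 := continuous_iff_continuousAt.2 fun x => (hg.der x).continuousAt
      c2 := hcont
      e1 := hg.per1
      e2 := hg.per2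
      der := hg.der
      b1 := fun ω x => key _ _ (hg.bd1 x) (h1 ω x)
      b2 := fun ω x => key _ _ (hg.bd2 x) (h2 ω x) }

/-- the mean of the defect -/
theorem zd_mean {s : ℝ} (hs : 0 < s) (hs1 : s < 1) {R C : ℝ} (hR : 1 ≤ R) (hC : 1 ≤ C) :
    ∃ c A : ℝ, 0 < c ∧ c ≤ 1 ∧ 100 ≤ A ∧ ∀ d : Dat, d.Ok → d.s = s → (∀ ω x, |h2 d.χ d.s ω x| ≤ C) →
      A ≤ |d.a| → Real.exp (-|d.a| ^ c) ≤ d.κ → NdC R d.κ d.g2 →
      ∫⁻ ω, Zd d ω ∂PP ≤ ENNReal.ofReal (|d.a| ^ (-c)) := by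
  obtain ⟨B₁, hB₁, hnd1⟩ := nd_a hR
  obtain ⟨B₂, hB₂, hnd2⟩ := nd_b (C := C) hR (by linarith)
  obtain ⟨b, hb⟩ : ∃ b, b = 1 / (2 * R) := ⟨_, rfl⟩
  obtain ⟨B, hB⟩ : ∃ B, B = max B₁ B₂ := ⟨_, rfl⟩
  have hb0 : 0 < b := by rw [hb]; positivity
  have hb1 : b ≤ 1 := by
    rw [hb, div_le_one (by positivity)]
    linarith
  have hB1 : 1 ≤ B := by rw [hB]; exact hB₁.trans (le_max_left _ _)
  obtain ⟨c₁, A₁, hc₁, hc₁1, hA₁, hfix⟩ := fix hs hs1 hB1 hb0 hb1
  obtain ⟨C₂, hC₂, hll⟩ := ll_mean hB1 hb0 hb1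
  obtain ⟨c, hc⟩ : ∃ c, c = min c₁ (min (b / 2) (s / 4 * b)) / 2 := ⟨_, rfl⟩
  have hsb : 0 < s / 4 * b := by positivity
  have hm0 : 0 < min c₁ (min (b / 2) (s / 4 * b)) := lt_min hc₁ (lt_min (by positivity) hsb)
  have hc0 : 0 < c := by rw [hc]; positivity
  have e1 : 2 * c ≤ c₁ := by
    rw [hc]
    have := min_le_left c₁ (min (b / 2) (s / 4 * b))
    linarith
  have e2 : 2 * c ≤ b / 2 := by
    rw [hc]
    have := (min_le_right c₁ (min (b / 2) (s / 4 * b))).trans (min_le_left _ _)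
    linarith
  have e3 : 2 * c ≤ s / 4 * b := by
    rw [hc]
    have := (min_le_right c₁ (min (b / 2) (s / 4 * b))).trans (min_le_right _ _)
    linarith
  have hK0 : 0 ≤ 1 + C₂ + B := by linarith
  refine ⟨c, max A₁ ((1 + C₂ + B) ^ (1 / c)), hc0, by linarith, hA₁.trans (le_max_left _ _), ?_⟩
  intro d hd hds hh2 hA hκ hN
  have ha1 : A₁ ≤ |d.a| := (le_max_left _ _).trans hA
  have ha2 : (1 + C₂ + B) ^ (1 / c) ≤ |d.a| := (le_max_right _ _).trans hA
  have ha := hd.ha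
  have ha0 : 0 < |d.a| := by linarith
  have ha1' : 1 ≤ |d.a| := by linarith
  have hnd : d.Nd B b := by
    rcases hN with h | h
    · exact nd_mono (by linarith) (by rw [hB]; exact le_max_left _ _) hB1 hb1 hb0 (hnd1 d hd h)
    · have := hnd2 d hd hh2 h
      rw [← hb] at this
      exact nd_mono (by linarith) (by rw [hB]; exact le_max_right _ _) hB1 le_rfl hb0 this
  have hκ1 : Real.exp (-|d.a| ^ c₁) ≤ d.κ := by
    refine le_trans (Real.exp_le_exp.2 ?_) hκ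
    have := Real.rpow_le_rpow_of_exponent_le ha1' (show c ≤ c₁ by linarith)
    linarith
  have hf := hfix d hd hds hnd ha1 hκ1
  have hl := hll d hd hnd
  have hk := kd_mean hd hnd
  rw [hds] at hk
  have hLH : ∀ ω, 0 ≤ Hi d ω - Lw d ω := fun ω => sub_nonneg.2 (Lw_le_Hi hd ω)
  have hint : Integrable (fun ω => Hi d ω - Lw d ω) PP := by
    refine Integrable.of_bound ((meas_Hi hd).sub (meas_Lw hd)).aestronglyMeasurable (3 * Real.log |d.a|)
      (Eventually.of_forall fun ω => ?_)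
    rw [Real.norm_of_nonneg (hLH ω)]
    have := (Lw_bd hd ω).1
    have := (Hi_bd hd ω).2
    linarith
  have h1 : ∫⁻ ω, ENNReal.ofReal (Hi d ω - Lw d ω) ∂PP ≤ ENNReal.ofReal (|d.a| ^ (-c₁)) := by
    rw [← ofReal_integral_eq_lintegral_ofReal hint (ae_of_all _ hLH)]
    exact ENNReal.ofReal_le_ofReal hf
  have hmH : Measurable fun ω => ENNReal.ofReal (Hi d ω - Lw d ω) :=
    ((meas_Hi hd).sub (meas_Lw hd)).ennreal_ofReal
  have hmJ : Measurable fun ω => Jd d ω := by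
    have hp : Measurable fun q : Om × ℝ => ll (d.a * d.p2 q.1 q.2) :=
      meas_ll.comp (measurable_const.mul (p_meas hd).2)
    exact hp.lintegral_prod_right'
  have hsum : ∫⁻ ω, Zd d ω ∂PP ≤ ENNReal.ofReal (|d.a| ^ (-c₁)) +
      ENNReal.ofReal (C₂ * |d.a| ^ (-(b / 2))) + ENNReal.ofReal (B * |d.a| ^ (-(s / 4 * b))) := by
    unfold Zd
    rw [lintegral_add_left (f := fun ω => ENNReal.ofReal (Hi d ω - Lw d ω) + Jd d ω) (hmH.add hmJ),
      lintegral_add_left hmH]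
    exact add_le_add (add_le_add h1 hl) hk
  refine hsum.trans ?_
  rw [← ENNReal.ofReal_add (by positivity) (by positivity), ← ENNReal.ofReal_add (by positivity)
    (by positivity)]
  refine ENNReal.ofReal_le_ofReal ?_
  have a1 : |d.a| ^ (-c₁) ≤ |d.a| ^ (-(2 * c)) := Real.rpow_le_rpow_of_exponent_le ha1' (by linarith)
  have a2 : |d.a| ^ (-(b / 2)) ≤ |d.a| ^ (-(2 * c)) := Real.rpow_le_rpow_of_exponent_le ha1' (by linarith)
  have a3 : |d.a| ^ (-(s / 4 * b)) ≤ |d.a| ^ (-(2 * c)) := Real.rpow_le_rpow_of_exponent_le ha1' (by linarith)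
  have hKc : 1 + C₂ + B ≤ |d.a| ^ c := by
    calc 1 + C₂ + B = ((1 + C₂ + B) ^ (1 / c)) ^ c := by
          rw [← Real.rpow_mul hK0, one_div, inv_mul_cancel₀ hc0.ne', Real.rpow_one]
      _ ≤ |d.a| ^ c := Real.rpow_le_rpow (by positivity) ha2 hc0.le
  have q : |d.a| ^ (-c) = |d.a| ^ c * |d.a| ^ (-(2 * c)) := by
    rw [← Real.rpow_add ha0]
    congr 1
    ring
  have p0 : 0 ≤ |d.a| ^ (-(2 * c)) := by positivity
  rw [q]
  calc |d.a| ^ (-c₁) + C₂ * |d.a| ^ (-(b / 2)) + B * |d.a| ^ (-(s / 4 * b)) ≤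
        |d.a| ^ (-(2 * c)) + C₂ * |d.a| ^ (-(2 * c)) + B * |d.a| ^ (-(2 * c)) := by
        have := mul_le_mul_of_nonneg_left a2 hC₂.le
        have := mul_le_mul_of_nonneg_left a3 (show 0 ≤ B by linarith)
        linarith
    _ = (1 + C₂ + B) * |d.a| ^ (-(2 * c)) := by ring
    _ ≤ |d.a| ^ c * |d.a| ^ (-(2 * c)) := mul_le_mul_of_nonneg_right hKc p0

/-- the derivative matrices of the two notations agree -/
theorem Mm_eq {d : Dat} (hd : d.Ok) (R' : ℝ) (ω : Om) (n : ℕ) (z : T2) :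
    Mm d n (ω, z) = (PS d.a R' d.s (d.p1 ω) (d.p2 ω)).M n (rep z) := by
  have hit : ∀ n : ℕ, ((sk d)^[n] (ω, z)) = (ω, toT ((FF d.a (d.p1 ω))^[n] (rep z))) := by
    intro n
    rw [sk_iter]
    refine Prod.ext rfl ?_
    show (Tw d ω)^[n] z = _
    induction n with
    | zero => exact (Pool.Agent.Helper18.UC.toT_rep z).symm
    | succ n ih =>
      rw [Function.iterate_succ_apply', ih, Function.iterate_succ_apply']
      exact Tw_toT hd ω _
  induction n with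
  | zero => rw [Mm_zero, Pool.Agent.Helper11.FE.M_zero]
  | succ n ih =>
    rw [Mm_succ, Pool.Agent.Helper11.FE.M_succ, ih, hit n]
    congr 1
    show mv (va d ω (toT ((FF d.a (d.p1 ω))^[n] (rep z))).1) = mv (2 + d.a * d.p2 ω ((FF d.a (d.p1 ω))^[n] (rep z)).1)
    congr 1
    exact va_coe hd ω _

theorem big_mono {c c' a : ℝ} (ha : 1 ≤ |a|) (h : c' ≤ c) {f1 f2 : ℝ → ℝ} (hB : Big c a f1 f2) :
    Big c' a f1 f2 := by
  have h1 : |a| ^ (-c) ≤ |a| ^ (-c') := Real.rpow_le_rpow_of_exponent_le ha (by linarith)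
  obtain ⟨Ω, L, e1, e2, e3, e4, e0, e5, e6⟩ := hB
  exact ⟨Ω, L, e1, e2, by linarith, e4, e0, e5.trans h1, e6⟩

/-- small defect: large component -/
theorem big_of_zd {s : ℝ} (hs : 0 < s) (hs1 : s < 1) {R : ℝ} (hR : 1 ≤ R) {c₁ : ℝ} (hc₁ : 0 < c₁) :
    ∃ c A : ℝ, 0 < c ∧ 100 ≤ A ∧ ∀ d : Dat, d.Ok → d.s = s → A ≤ |d.a| → ∀ ω : Om,
      PotOk R s (d.p1 ω) (d.p2 ω) → Zd d ω ≤ ENNReal.ofReal (|d.a| ^ (-c₁)) → Big c d.a (d.p1 ω) (d.p2 ω) := by
  obtain ⟨c, A, hc, hA, h⟩ := dcomp hs hs1.le hR hc₁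
  refine ⟨c, A, hc, hA, ?_⟩
  intro d hd hds ha ω hp hZ
  have hx : 0 < |d.a| := by linarith [hd.ha]
  have z1 : ENNReal.ofReal (Hi d ω - Lw d ω) ≤ Zd d ω := by
    unfold Zd
    exact le_self_add.trans le_self_add
  have z2 : Jd d ω ≤ Zd d ω := by
    unfold Zd
    exact le_add_self.trans le_self_add
  have z3 : Kd d ω ≤ Zd d ω := by
    unfold Zd
    exact le_add_self
  refine h d.a (d.p1 ω) (d.p2 ω) ha hp ?_ (z2.trans hZ) (Lw d ω) ?_ ?_
  · have := z3.trans hZ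
    unfold Kd at this
    rw [hds] at this
    exact this
  · have h1 := Lw_tendsto hd ω
    refine h1.congr fun n => ?_
    congr 1
    unfold un
    refine integral_congr_ae (Eventually.of_forall fun z => ?_)
    show Real.log (nn (Mm d n (ω, z))) = Real.log (nn ((PS d.a R s (d.p1 ω) (d.p2 ω)).M n (rep z)))
    rw [Mm_eq hd R ω n z, hds]
  · have h1 := z1.trans hZ
    rw [ENNReal.ofReal_le_ofReal_iff (by positivity)] at h1
    unfold Hi at h1
    linarith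

/-- the noisy potential is admissible -/
theorem pot_add {s : ℝ} {χ : ℝ → ℝ} {C : ℝ} (hC : 1 ≤ C) {R : ℝ} {g1 g2 : ℝ → ℝ}
    (hg : PotOk R s g1 g2) {κ : ℝ} (hκ : 0 ≤ κ) (hκ1 : κ ≤ 1) {ω : Om}
    (p1 : ∀ x, h1 χ s ω (x + 1) = h1 χ s ω x) (p2 : ∀ x, h2 χ s ω (x + 1) = h2 χ s ω x)
    (b1 : ∀ x, |h1 χ s ω x| ≤ C) (b2 : ∀ x, |h2 χ s ω x| ≤ C)
    (dd : ∀ x, HasDerivAt (h1 χ s ω) (h2 χ s ω x) x)
    (hh : ∀ x y, |h2 χ s ω x - h2 χ s ω y| ≤ C * |x - y| ^ s) :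
    PotOk (R + C) s (fun x => g1 x + κ * h1 χ s ω x) (fun x => g2 x + κ * h2 χ s ω x) := by
  have key : ∀ x y : ℝ, |x| ≤ R → |y| ≤ C → |x + κ * y| ≤ R + C := by
    intro x y hx hy
    have e1 : |κ * y| ≤ C := by
      rw [abs_mul, abs_of_nonneg hκ]
      have := abs_nonneg y
      nlinarith
    exact (abs_add_le _ _).trans (add_le_add hx e1)
  refine ⟨fun x => ?_, fun x => ?_, fun x => ?_, fun x => key _ _ (hg.bd1 x) (b1 x),
    fun x => key _ _ (hg.bd2 x) (b2 x), fun x y => ?_⟩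
  · show g1 (x + 1) + κ * h1 χ s ω (x + 1) = g1 x + κ * h1 χ s ω x
    rw [hg.per1, p1]
  · show g2 (x + 1) + κ * h2 χ s ω (x + 1) = g2 x + κ * h2 χ s ω x
    rw [hg.per2, p2]
  · exact (hg.der x).add ((dd x).const_mul κ)
  · show |g2 x + κ * h2 χ s ω x - (g2 y + κ * h2 χ s ω y)| ≤ (R + C) * |x - y| ^ s
    have e1 : g2 x + κ * h2 χ s ω x - (g2 y + κ * h2 χ s ω y) =
      (g2 x - g2 y) + κ * (h2 χ s ω x - h2 χ s ω y) := by ring
    have e2 : 0 ≤ |x - y| ^ s := Real.rpow_nonneg (abs_nonneg _) _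
    have e3 : |κ * (h2 χ s ω x - h2 χ s ω y)| ≤ C * |x - y| ^ s := by
      rw [abs_mul, abs_of_nonneg hκ]
      have := abs_nonneg (h2 χ s ω x - h2 χ s ω y)
      have := hh x y
      nlinarith
    rw [e1, add_mul]
    exact (abs_add_le _ _).trans (add_le_add (hg.hold x y) e3)

theorem final {s : ℝ} (hs : 0 < s) (hs1 : s < 1) {χ : ℝ → ℝ} (hχ : Bump χ) {R : ℝ} (hR : 1 ≤ R) :
    ∃ c A : ℝ, 0 < c ∧ 100 ≤ A ∧
    -- one parameter
    (∀ (a κ : ℝ) (g1 g2 : ℝ → ℝ), A ≤ |a| → Real.exp (-|a| ^ c) ≤ κ → κ ≤ 1 → PotOk R s g1 g2 →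
      NdC R κ g2 →
      PP {ω | ¬ Big c a (fun x => g1 x + κ * h1 χ s ω x) (fun x => g2 x + κ * h2 χ s ω x)} ≤
        ENNReal.ofReal (|a| ^ (-c))) ∧
    -- families
    (∀ (κ : ℝ → ℝ) (g1 g2 : ℝ → ℝ → ℝ), Measurable κ →
      (Measurable fun r : ℝ × ℝ => g1 r.1 r.2) → (Measurable fun r : ℝ × ℝ => g2 r.1 r.2) →
      (∀ a, A ≤ |a| → Real.exp (-|a| ^ c) ≤ κ a ∧ κ a ≤ 1 ∧ PotOk R s (g1 a) (g2 a) ∧ NdC R (κ a) (g2 a)) →
      ∀ᵐ ω ∂PP, ∃ Λ : Set ℝ, MeasurableSet Λ ∧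
        (∃ R₀ : ℝ, ∀ r : ℝ, R₀ ≤ r → volume (Icc (-r) r \ Λ) ≤ ENNReal.ofReal (r ^ (1 - c))) ∧
        ∀ a ∈ Λ, A ≤ |a| ∧
          Big c a (fun x => g1 a x + κ a * h1 χ s ω x) (fun x => g2 a x + κ a * h2 χ s ω x)) := by
  have hs' : s < 1 := hs1
  obtain ⟨C, hC, hh⟩ := h_ok hχ hs hs'
  have hb1 : ∀ ω x, |h1 χ s ω x| ≤ C := fun ω x => (hh ω).2.2.2.2.2.2.2.1 x
  have hb2 : ∀ ω x, |h2 χ s ω x| ≤ C := fun ω x => (hh ω).2.2.2.2.2.2.2.2.1 x
  obtain ⟨c₁, A₁, hc₁, hc₁1, hA₁, hmean⟩ := zd_mean hs hs1 hR hC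
  obtain ⟨c₂, A₂, hc₂, hA₂, hbig⟩ := big_of_zd hs hs' (R := R + C) (by linarith)
    (show 0 < c₁ / 4 by positivity)
  obtain ⟨c, hc⟩ : ∃ c, c = min (c₁ / 4) c₂ := ⟨_, rfl⟩
  have hc0 : 0 < c := by rw [hc]; exact lt_min (by positivity) hc₂
  have hcc₁ : c ≤ c₁ / 4 := by rw [hc]; exact min_le_left _ _
  have hcc₂ : c ≤ c₂ := by rw [hc]; exact min_le_right _ _
  obtain ⟨A, hA⟩ : ∃ A, A = max (max A₁ A₂) (R + C) := ⟨_, rfl⟩
  have hA1 : A₁ ≤ A := by rw [hA]; exact (le_max_left _ _).trans (le_max_left _ _)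
  have hA2 : A₂ ≤ A := by rw [hA]; exact (le_max_right _ _).trans (le_max_left _ _)
  have hA3 : R + C ≤ A := by rw [hA]; exact le_max_right _ _
  have hA100 : 100 ≤ A := hA₁.trans hA1
  have hexp : ∀ a κ : ℝ, A ≤ |a| → Real.exp (-|a| ^ c) ≤ κ → Real.exp (-|a| ^ c₁) ≤ κ := by
    intro a κ ha h
    refine le_trans (Real.exp_le_exp.2 ?_) h
    have h1 : |a| ^ c ≤ |a| ^ c₁ := Real.rpow_le_rpow_of_exponent_le (by linarith) (by linarith)
    linarith
  have hok : ∀ (a κ : ℝ) (g1 g2 : ℝ → ℝ), A ≤ |a| → Real.exp (-|a| ^ c) ≤ κ → κ ≤ 1 →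
      PotOk R s g1 g2 → (Dat.mk a κ s (R + C) χ g1 g2).Ok := by
    intro a κ g1 g2 ha hκ hκ1 hg
    exact ok_of hs hs' hχ hC hb1 hb2 hR (hA100.trans ha) (hA3.trans ha) ((Real.exp_pos _).trans_le hκ) hκ1 hg
  have hmn : ∀ (a κ : ℝ) (g1 g2 : ℝ → ℝ), A ≤ |a| → Real.exp (-|a| ^ c) ≤ κ → κ ≤ 1 →
      PotOk R s g1 g2 → NdC R κ g2 →
      ∫⁻ ω, Zd (Dat.mk a κ s (R + C) χ g1 g2) ω ∂PP ≤ ENNReal.ofReal (|a| ^ (-c₁)) := by
    intro a κ g1 g2 ha hκ hκ1 hg hN
    exact hmean (Dat.mk a κ s (R + C) χ g1 g2) (hok a κ g1 g2 ha hκ hκ1 hg) rfl hb2 (hA1.trans ha)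
      (hexp a κ ha hκ) hN
  have hbg : ∀ (a κ : ℝ) (g1 g2 : ℝ → ℝ) (ω : Om), A ≤ |a| → Real.exp (-|a| ^ c) ≤ κ → κ ≤ 1 →
      PotOk R s g1 g2 →
      Zd (Dat.mk a κ s (R + C) χ g1 g2) ω ≤ ENNReal.ofReal (|a| ^ (-(c₁ / 4))) →
      Big c a (fun x => g1 x + κ * h1 χ s ω x) (fun x => g2 x + κ * h2 χ s ω x) := by
    intro a κ g1 g2 ω ha hκ hκ1 hg hZ
    have hκ0 : 0 < κ := (Real.exp_pos _).trans_le hκ
    refine big_mono (by linarith) hcc₂ ?_
    obtain ⟨-, -, -, -, q2, q3, -, q5, q6, -, q8, q9⟩ := hh ω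
    exact hbig (Dat.mk a κ s (R + C) χ g1 g2) (hok a κ g1 g2 ha hκ hκ1 hg) rfl (hA2.trans ha) ω
      (pot_add hC hg hκ0.le hκ1 q2 q3 q5 q6 q8 q9) hZ
  refine ⟨c, A, hc0, hA100, ?_, ?_⟩
  · intro a κ g1 g2 ha hκ hκ1 hg hN
    have ha1 : 1 ≤ |a| := by linarith
    have ha0 : 0 < |a| := by linarith
    have hsub : {ω | ¬ Big c a (fun x => g1 x + κ * h1 χ s ω x) (fun x => g2 x + κ * h2 χ s ω x)} ⊆
        {ω | ENNReal.ofReal (|a| ^ (-(c₁ / 4))) ≤ Zd (Dat.mk a κ s (R + C) χ g1 g2) ω} := by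
      intro ω hω
      by_contra hcon
      exact hω (hbg a κ g1 g2 ω ha hκ hκ1 hg (not_le.1 hcon).le)
    refine (measure_mono hsub).trans ?_
    have hd := hok a κ g1 g2 ha hκ hκ1 hg
    have hmZ : AEMeasurable (fun ω => Zd (Dat.mk a κ s (R + C) χ g1 g2) ω) PP := by
      have m1 : Measurable fun ω => ENNReal.ofReal
          (Hi (Dat.mk a κ s (R + C) χ g1 g2) ω - Lw (Dat.mk a κ s (R + C) χ g1 g2) ω) :=
        ((meas_Hi hd).sub (meas_Lw hd)).ennreal_ofReal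
      have hF : Fam (fun _ : Unit => Dat.mk a κ s (R + C) χ g1 g2) := by
        refine ⟨fun _ => hd, fun _ _ => rfl, fun _ _ => rfl, measurable_const, measurable_const, ?_, ?_⟩
        · exact hd.c1.measurable.comp measurable_snd
        · exact hd.c2.measurable.comp measurable_snd
      obtain ⟨-, -, m2, m3⟩ := par_meas hF
      have m2' := m2.comp (measurable_prodMk_left (x := ()) (β := Om))
      have m3' := m3.comp (measurable_prodMk_left (x := ()) (β := Om))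
      exact ((m1.add m2').add m3').aemeasurable
    have h3 := mul_meas_ge_le_lintegral₀ hmZ (ENNReal.ofReal (|a| ^ (-(c₁ / 4))))
    have h4 := h3.trans (hmn a κ g1 g2 ha hκ hκ1 hg hN)
    have h6 : ENNReal.ofReal (|a| ^ (c₁ / 4)) * ENNReal.ofReal (|a| ^ (-(c₁ / 4))) = 1 := by
      rw [← ENNReal.ofReal_mul (by positivity), ← Real.rpow_add ha0, add_neg_cancel, Real.rpow_zero,
        ENNReal.ofReal_one]
    calc PP {ω | ENNReal.ofReal (|a| ^ (-(c₁ / 4))) ≤ Zd (Dat.mk a κ s (R + C) χ g1 g2) ω}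
        = ENNReal.ofReal (|a| ^ (c₁ / 4)) * (ENNReal.ofReal (|a| ^ (-(c₁ / 4))) *
          PP {ω | ENNReal.ofReal (|a| ^ (-(c₁ / 4))) ≤ Zd (Dat.mk a κ s (R + C) χ g1 g2) ω}) := by
          rw [← mul_assoc, h6, one_mul]
      _ ≤ ENNReal.ofReal (|a| ^ (c₁ / 4)) * ENNReal.ofReal (|a| ^ (-c₁)) := by gcongr
      _ = ENNReal.ofReal (|a| ^ (-(3 * c₁ / 4))) := by
          rw [← ENNReal.ofReal_mul (by positivity), ← Real.rpow_add ha0]
          congr 2
          ring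
      _ ≤ ENNReal.ofReal (|a| ^ (-c)) :=
          ENNReal.ofReal_le_ofReal (Real.rpow_le_rpow_of_exponent_le ha1 (by linarith))
  · intro κ g1 g2 mκ m1 m2 h
    classical
    obtain ⟨D, hD1, hD2⟩ : ∃ D : ℝ → Dat,
        (∀ a, A ≤ |a| → D a = Dat.mk a (κ a) s (R + C) χ (g1 a) (g2 a)) ∧
        ∀ a, ¬ A ≤ |a| → D a = Dat.mk A (κ A) s (R + C) χ (g1 A) (g2 A) :=
      ⟨fun a => if A ≤ |a| then Dat.mk a (κ a) s (R + C) χ (g1 a) (g2 a) else
        Dat.mk A (κ A) s (R + C) χ (g1 A) (g2 A), fun a ha => if_pos ha, fun a ha => if_neg ha⟩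
    have hAabs : |A| = A := abs_of_pos (by linarith)
    have hokA : ∀ a, A ≤ |a| → (Dat.mk a (κ a) s (R + C) χ (g1 a) (g2 a)).Ok := fun a ha =>
      hok a (κ a) (g1 a) (g2 a) ha (h a ha).1 (h a ha).2.1 (h a ha).2.2.1
    have hset : MeasurableSet {a : ℝ | A ≤ |a|} := measurableSet_le measurable_const measurable_id.abs
    have hFam : Fam D := by
      refine ⟨?_, ?_, ?_, ?_, ?_, ?_, ?_⟩
      · intro a
        by_cases ha : A ≤ |a|
        · rw [hD1 a ha]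
          exact hokA a ha
        · rw [hD2 a ha]
          exact hokA A hAabs.ge
      · have h1 : ∀ a, (D a).χ = χ := by
          intro a
          by_cases ha : A ≤ |a|
          · rw [hD1 a ha]
          · rw [hD2 a ha]
        exact fun a b => (h1 a).trans (h1 b).symm
      · have h1 : ∀ a, (D a).s = s := by
          intro a
          by_cases ha : A ≤ |a|
          · rw [hD1 a ha]
          · rw [hD2 a ha]
        exact fun a b => (h1 a).trans (h1 b).symm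
      · have h1 : (fun a => (D a).a) = fun a => if A ≤ |a| then a else A := by
          funext a
          by_cases ha : A ≤ |a|
          · rw [hD1 a ha, if_pos ha]
          · rw [hD2 a ha, if_neg ha]
        rw [h1]
        exact Measurable.ite hset measurable_id measurable_const
      · have h1 : (fun a => (D a).κ) = fun a => if A ≤ |a| then κ a else κ A := by
          funext a
          by_cases ha : A ≤ |a|
          · rw [hD1 a ha, if_pos ha]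
          · rw [hD2 a ha, if_neg ha]
        rw [h1]
        exact Measurable.ite hset mκ measurable_const
      · have h1 : (fun r : ℝ × ℝ => (D r.1).g1 r.2) = fun r : ℝ × ℝ =>
            if A ≤ |r.1| then g1 r.1 r.2 else g1 A r.2 := by
          funext r
          by_cases hr : A ≤ |r.1|
          · rw [hD1 _ hr, if_pos hr]
          · rw [hD2 _ hr, if_neg hr]
        rw [h1]
        refine Measurable.ite (measurable_fst hset) m1 ?_
        have h2 : Measurable fun r : ℝ × ℝ => (A, r.2) := by fun_prop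
        exact m1.comp h2
      · have h1 : (fun r : ℝ × ℝ => (D r.1).g2 r.2) = fun r : ℝ × ℝ =>
            if A ≤ |r.1| then g2 r.1 r.2 else g2 A r.2 := by
          funext r
          by_cases hr : A ≤ |r.1|
          · rw [hD1 _ hr, if_pos hr]
          · rw [hD2 _ hr, if_neg hr]
        rw [h1]
        refine Measurable.ite (measurable_fst hset) m2 ?_
        have h2 : Measurable fun r : ℝ × ℝ => (A, r.2) := by fun_prop
        exact m2.comp h2
    obtain ⟨k1, k2, k3, k4⟩ := par_meas hFam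
    have k5 : Measurable fun r : ℝ × Om => ENNReal.ofReal (Hi (D r.1) r.2 - Lw (D r.1) r.2) :=
      (k2.sub k1).ennreal_ofReal
    have hZm' : Measurable fun r : ℝ × Om => Zd (D r.1) r.2 := by
      unfold Zd
      exact (k5.add k3).add k4
    obtain ⟨Z, hZm, hZe⟩ : ∃ Z : ℝ × Om → ℝ≥0∞, Measurable Z ∧ ∀ a, (fun ω => Z (a, ω)) = Zd (D a) :=
      ⟨fun r : ℝ × Om => Zd (D r.1) r.2, hZm', fun a => rfl⟩
    have hZe' : ∀ a ω, Z (a, ω) = Zd (D a) ω := fun a ω => congrFun (hZe a) ω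
    have hbc := bcz (μ := PP) hc₁ hc₁1 (show (1:ℝ) ≤ A by linarith) (Z := Z) hZm (fun a ha => by
        rw [hZe a, hD1 a ha]
        exact hmn a (κ a) (g1 a) (g2 a) ha (h a ha).1 (h a ha).2.1 (h a ha).2.2.1 (h a ha).2.2.2)
    filter_upwards [hbc] with ω hω
    refine ⟨{a : ℝ | A ≤ |a| ∧ Z (a, ω) ≤ ENNReal.ofReal (|a| ^ (-(c₁ / 4)))}, ?_, ?_, ?_⟩
    · refine hset.inter ?_
      have h1 : Measurable fun a : ℝ => Z (a, ω) := hZm.comp measurable_prodMk_right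
      have h2 : Measurable fun a : ℝ => |a| := measurable_id.abs
      have h3 : Measurable fun a : ℝ => ENNReal.ofReal (|a| ^ (-(c₁ / 4))) := (h2.pow_const _).ennreal_ofReal
      exact measurableSet_le h1 h3
    · obtain ⟨R₀, hR₀⟩ := hω
      refine ⟨max R₀ 1, fun r hr => ?_⟩
      have hr1 : 1 ≤ r := (le_max_right _ _).trans hr
      refine le_trans ((measure_mono ?_).trans (hR₀ r ((le_max_left _ _).trans hr))) ?_
      · rintro a ⟨h1, h2⟩
        exact ⟨abs_le.2 h1, h2⟩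
      · exact ENNReal.ofReal_le_ofReal (Real.rpow_le_rpow_of_exponent_le hr1 (by linarith))
    · rintro a ⟨haA, haL⟩
      rw [hZe', hD1 a haA] at haL
      obtain ⟨h1, h2, h3, h4⟩ := h a haA
      exact ⟨haA, hbg a (κ a) (g1 a) (g2 a) ω haA h1 h2 h3 haL⟩

end Pool.Agent.Helper95.PV
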