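import Pool.Agent.Helper95.PV.Meas

/-! Block PV-BAS: basic bounds for the derivative matrices, algebra of products. Port of `FD/Bas.lean`, `FD/Jun.lean`, `FD/Cone.lean`; here the matrix is `mv v = !![v, -1; 1, 0]`: `mv v = v e₁e₁ᵀ + J`.

* `rn1` = size of the first row, `cn1` = size of the first column. `jun`: `R * (mv v * L) = v (R e₁)(e₁ᵀ L) + R * (mv 0 * L)`. `row`: the first row of `mv v * X` is `v X₀ - X₁` (rows of `X`), the second row is `X₀`. `col`: the first column of `R * mv v`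
  is `v R e₁ + R e₂`, the second column is `-R e₁`.
* `nn (mv v) = |v| + 2`, `|v| ≤ 2 + |a| R ≤ 2 + |a|²`, so `nn ≤ |a|³` (`|a| ≥ 100`), `log nn (Mm d n p) ≤ log 2 + 3 n log |a|` (in fact without `log 2` for `n ≥ 1`).
* `cone`: if `|v_j| ≥ 2` for all `j < n`, the first column `(s_n, q_n)` of `Mm d n p` has `|q_n| ≤ |s_n|` and `|s_(n+1)| ≥ (|v_n| - 1)|s_n|`. -/

set_option autoImplicit false
open MeasureTheory Real Set
open scoped ENNReal

namespace Pool.Agent.Helper95.PV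

open Pool.Agent.Helper18.UC (T2 rep toT nn nn_nonneg nn_mul nn_one abs_entry_le)
open Pool.Agent.Helper18.FD (NN rr pr cl uu lm Bump k1 k2 NN_pos NN_ge)

noncomputable def rn1 (B : Matrix (Fin 2) (Fin 2) ℝ) : ℝ := |B 0 0| + |B 0 1|

noncomputable def cn1 (B : Matrix (Fin 2) (Fin 2) ℝ) : ℝ := |B 0 0| + |B 1 0|

private theorem max2_82 (a b : ℝ) (f : Fin 2 → ℝ) (h0 : f 0 = a) (h1 : f 1 = b) :
    ∃ i : Fin 2, |a| + |b| ≤ 2 * |f i| := by
  rcases le_total |a| |b| with h | h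
  · exact ⟨1, by rw [h1]; linarith⟩
  · exact ⟨0, by rw [h0]; linarith⟩

private theorem row0_82 (v : ℝ) (L : Matrix (Fin 2) (Fin 2) ℝ) (j : Fin 2) :
    (mv v * L) 0 j = v * L 0 j - L 1 j := by
  simp [mv, Matrix.mul_apply, Fin.sum_univ_two]
  ring

private theorem row1_82 (v : ℝ) (L : Matrix (Fin 2) (Fin 2) ℝ) (j : Fin 2) :
    (mv v * L) 1 j = L 0 j := by
  simp [mv, Matrix.mul_apply, Fin.sum_univ_two]

private theorem col0_82 (R : Matrix (Fin 2) (Fin 2) ℝ) (v : ℝ) (i : Fin 2) :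
    (R * mv v) i 0 = v * R i 0 + R i 1 := by
  simp [mv, Matrix.mul_apply, Fin.sum_univ_two]
  ring

private theorem col1_82 (R : Matrix (Fin 2) (Fin 2) ℝ) (v : ℝ) (i : Fin 2) :
    (R * mv v) i 1 = -R i 0 := by
  simp [mv, Matrix.mul_apply, Fin.sum_univ_two]

private theorem le_rn82 (B : Matrix (Fin 2) (Fin 2) ℝ) (j : Fin 2) : |B 0 j| ≤ rn1 B := by
  have h1 := abs_nonneg (B 0 0)
  have h2 := abs_nonneg (B 0 1)
  unfold rn1
  fin_cases j <;> simp

private theorem le_cn82 (B : Matrix (Fin 2) (Fin 2) ℝ) (i : Fin 2) : |B i 0| ≤ cn1 B := by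
  have h1 := abs_nonneg (B 0 0)
  have h2 := abs_nonneg (B 1 0)
  unfold cn1
  fin_cases i <;> simp

private theorem rn_nonneg82 (B : Matrix (Fin 2) (Fin 2) ℝ) : 0 ≤ rn1 B := by
  unfold rn1
  positivity

private theorem cn_nonneg82 (B : Matrix (Fin 2) (Fin 2) ℝ) : 0 ≤ cn1 B := by
  unfold cn1
  positivity

theorem det_mv (v : ℝ) : (mv v).det = 1 := by
  unfold mv
  rw [Matrix.det_fin_two_of]
  ring

theorem nn_mv (v : ℝ) : nn (mv v) = |v| + 2 := by
  unfold Pool.Agent.Helper18.UC.nn mv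
  simp
  ring

theorem jun (R L : Matrix (Fin 2) (Fin 2) ℝ) :
    ∃ y : ℝ, ∀ v : ℝ, |v - y| * (cn1 R * rn1 L) ≤ 4 * nn (R * (mv v * L)) := by
  obtain ⟨i, hi⟩ := max2_82 (R 0 0) (R 1 0) (fun i => R i 0) rfl rfl
  obtain ⟨j, hj⟩ := max2_82 (L 0 0) (L 0 1) (fun j => L 0 j) rfl rfl
  have hent : ∀ v, (R * (mv v * L)) i j = v * (R i 0 * L 0 j) - (R i 0 * L 1 j - R i 1 * L 0 j) := by
    intro v
    rw [Matrix.mul_apply, Fin.sum_univ_two, row0_82, row1_82]
    ring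
  have hprod : cn1 R * rn1 L ≤ 4 * |R i 0 * L 0 j| := by
    rw [abs_mul]
    have h2 : 0 ≤ |L 0 0| + |L 0 1| := by positivity
    calc (|R 0 0| + |R 1 0|) * (|L 0 0| + |L 0 1|) ≤ (2 * |R i 0|) * (2 * |L 0 j|) :=
          mul_le_mul hi hj h2 (by positivity)
      _ = 4 * (|R i 0| * |L 0 j|) := by ring
  by_cases h0 : R i 0 * L 0 j = 0
  · refine ⟨0, fun v => ?_⟩
    rw [h0, abs_zero, mul_zero] at hprod
    have h2 : cn1 R * rn1 L = 0 := le_antisymm hprod (mul_nonneg (cn_nonneg82 R) (rn_nonneg82 L))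
    rw [h2, mul_zero]
    have := nn_nonneg (R * (mv v * L))
    linarith
  · refine ⟨(R i 0 * L 1 j - R i 1 * L 0 j) / (R i 0 * L 0 j), fun v => ?_⟩
    have h1 : |v - (R i 0 * L 1 j - R i 1 * L 0 j) / (R i 0 * L 0 j)| * |R i 0 * L 0 j| =
        |(R * (mv v * L)) i j| := by
      rw [hent, ← abs_mul, sub_mul, div_mul_cancel₀ _ h0]
    have h2 := abs_entry_le (R * (mv v * L)) i j
    calc |v - (R i 0 * L 1 j - R i 1 * L 0 j) / (R i 0 * L 0 j)| * (cn1 R * rn1 L)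
        ≤ |v - (R i 0 * L 1 j - R i 1 * L 0 j) / (R i 0 * L 0 j)| * (4 * |R i 0 * L 0 j|) :=
          mul_le_mul_of_nonneg_left hprod (abs_nonneg _)
      _ = 4 * |(R * (mv v * L)) i j| := by rw [← h1]; ring
      _ ≤ 4 * nn (R * (mv v * L)) := by linarith

theorem row (X : Matrix (Fin 2) (Fin 2) ℝ) :
    ∃ y : ℝ, ∀ v : ℝ, |v - y| * rn1 X ≤ 4 * rn1 (mv v * X) := by
  obtain ⟨j, hj⟩ := max2_82 (X 0 0) (X 0 1) (fun j => X 0 j) rfl rfl
  by_cases h0 : X 0 j = 0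
  · refine ⟨0, fun v => ?_⟩
    rw [h0, abs_zero, mul_zero] at hj
    have h2 : rn1 X = 0 := le_antisymm hj (rn_nonneg82 X)
    rw [h2, mul_zero]
    have := rn_nonneg82 (mv v * X)
    linarith
  · refine ⟨X 1 j / X 0 j, fun v => ?_⟩
    have h1 : |v - X 1 j / X 0 j| * |X 0 j| = |(mv v * X) 0 j| := by
      rw [row0_82, ← abs_mul, sub_mul, div_mul_cancel₀ _ h0]
    have h2 := le_rn82 (mv v * X) j
    have h3 := abs_nonneg ((mv v * X) 0 j)
    calc |v - X 1 j / X 0 j| * rn1 X ≤ |v - X 1 j / X 0 j| * (2 * |X 0 j|) :=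
          mul_le_mul_of_nonneg_left hj (abs_nonneg _)
      _ = 2 * |(mv v * X) 0 j| := by rw [← h1]; ring
      _ ≤ 4 * rn1 (mv v * X) := by linarith

theorem row_nn (X : Matrix (Fin 2) (Fin 2) ℝ) (v : ℝ) : nn (mv v * X) = rn1 (mv v * X) + rn1 X := by
  unfold Pool.Agent.Helper18.UC.nn rn1
  rw [row1_82, row1_82]
  ring

theorem col (R : Matrix (Fin 2) (Fin 2) ℝ) :
    ∃ y : ℝ, ∀ v : ℝ, |v - y| * cn1 R ≤ 4 * cn1 (R * mv v) := by
  obtain ⟨i, hi⟩ := max2_82 (R 0 0) (R 1 0) (fun i => R i 0) rfl rfl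
  by_cases h0 : R i 0 = 0
  · refine ⟨0, fun v => ?_⟩
    rw [h0, abs_zero, mul_zero] at hi
    have h2 : cn1 R = 0 := le_antisymm hi (cn_nonneg82 R)
    rw [h2, mul_zero]
    have := cn_nonneg82 (R * mv v)
    linarith
  · refine ⟨-(R i 1 / R i 0), fun v => ?_⟩
    have h1 : |v - -(R i 1 / R i 0)| * |R i 0| = |(R * mv v) i 0| := by
      rw [col0_82, ← abs_mul, sub_neg_eq_add, add_mul, div_mul_cancel₀ _ h0]
    have h2 := le_cn82 (R * mv v) i
    have h3 := abs_nonneg ((R * mv v) i 0)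
    calc |v - -(R i 1 / R i 0)| * cn1 R ≤ |v - -(R i 1 / R i 0)| * (2 * |R i 0|) :=
          mul_le_mul_of_nonneg_left hi (abs_nonneg _)
      _ = 2 * |(R * mv v) i 0| := by rw [← h1]; ring
      _ ≤ 4 * cn1 (R * mv v) := by linarith

theorem col_nn (R : Matrix (Fin 2) (Fin 2) ℝ) (v : ℝ) : nn (R * mv v) = cn1 (R * mv v) + cn1 R := by
  unfold Pool.Agent.Helper18.UC.nn cn1
  rw [col1_82, col1_82, abs_neg, abs_neg]
  ring

variable {d : Dat}

theorem det_Mm (n : ℕ) (p : Pt) : (Mm d n p).det = 1 := by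
  induction n with
  | zero => rw [Mm_zero, Matrix.det_one]
  | succ n ih => rw [Mm_succ, Matrix.det_mul, ih, det_mv, mul_one]

theorem nn_ge_two {B : Matrix (Fin 2) (Fin 2) ℝ} (h : B.det = 1) : 2 ≤ nn B := by
  rw [Matrix.det_fin_two] at h
  have h1 : 1 ≤ |B 0 0| * |B 1 1| + |B 0 1| * |B 1 0| := by
    have h2 := le_abs_self (B 0 0 * B 1 1 - B 0 1 * B 1 0)
    have h3 := abs_sub (B 0 0 * B 1 1) (B 0 1 * B 1 0)
    rw [abs_mul, abs_mul] at h3
    linarith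
  unfold Pool.Agent.Helper18.UC.nn
  have a0 := abs_nonneg (B 0 0)
  have a1 := abs_nonneg (B 0 1)
  have a2 := abs_nonneg (B 1 0)
  have a3 := abs_nonneg (B 1 1)
  by_contra hc
  push Not at hc
  have h4 : (|B 0 0| + |B 0 1| + |B 1 0| + |B 1 1|) ^ 2 < 4 := by
    have : 0 ≤ |B 0 0| + |B 0 1| + |B 1 0| + |B 1 1| := by positivity
    nlinarith
  nlinarith [sq_nonneg (|B 0 0| - |B 1 1|), sq_nonneg (|B 0 1| - |B 1 0|),
    mul_nonneg (add_nonneg a0 a3) (add_nonneg a1 a2)]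

theorem rn1_pos {B : Matrix (Fin 2) (Fin 2) ℝ} (h : B.det = 1) : 0 < rn1 B := by
  rw [Matrix.det_fin_two] at h
  unfold rn1
  by_contra hc
  have a0 := abs_nonneg (B 0 0)
  have a1 := abs_nonneg (B 0 1)
  have h0 : B 0 0 = 0 := abs_eq_zero.1 (by linarith)
  have h1 : B 0 1 = 0 := abs_eq_zero.1 (by linarith)
  rw [h0, h1] at h
  norm_num at h

theorem cn1_pos {B : Matrix (Fin 2) (Fin 2) ℝ} (h : B.det = 1) : 0 < cn1 B := by
  rw [Matrix.det_fin_two] at h
  unfold cn1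
  by_contra hc
  have a0 := abs_nonneg (B 0 0)
  have a1 := abs_nonneg (B 1 0)
  have h0 : B 0 0 = 0 := abs_eq_zero.1 (by linarith)
  have h1 : B 1 0 = 0 := abs_eq_zero.1 (by linarith)
  rw [h0, h1] at h
  norm_num at h

theorem Mm_congr {p p' : Pt} {n : ℕ} (h : ∀ j < n, vv d ((sk d)^[j] p') = vv d ((sk d)^[j] p)) :
    Mm d n p' = Mm d n p := by
  induction n with
  | zero => rw [Mm_zero, Mm_zero]
  | succ n ih =>
    rw [Mm_succ, Mm_succ, h n (Nat.lt_succ_self n), ih fun j hj => h j (hj.trans (Nat.lt_succ_self n))]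

theorem nn_mv_le (hd : d.Ok) (p : Pt) : nn (mv (vv d p)) ≤ |d.a| ^ 3 := by
  rw [nn_mv]
  have h1 := vv_le hd p
  have h2 := hd.ha
  have h3 : |d.a| * d.R ≤ |d.a| * |d.a| := mul_le_mul_of_nonneg_left hd.hRa (abs_nonneg _)
  have h4 : 100 * (|d.a| * |d.a|) ≤ |d.a| ^ 3 := by
    have : |d.a| ^ 3 = |d.a| * (|d.a| * |d.a|) := by ring
    rw [this]
    exact mul_le_mul_of_nonneg_right h2 (by positivity)
  have h5 : 100 * 100 ≤ |d.a| * |d.a| := mul_le_mul h2 h2 (by norm_num) (abs_nonneg _)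
  linarith

private theorem nn_Mm_le82 (hd : d.Ok) (n : ℕ) (p : Pt) : nn (Mm d n p) ≤ 2 * (|d.a| ^ 3) ^ n := by
  induction n with
  | zero => rw [Mm_zero, nn_one, pow_zero, mul_one]
  | succ n ih =>
    rw [Mm_succ, pow_succ]
    refine (nn_mul _ _).trans ?_
    have h1 := nn_mv_le hd ((sk d)^[n] p)
    have h2 := nn_nonneg (Mm d n p)
    have h3 : 0 ≤ |d.a| ^ 3 := by positivity
    calc nn (mv (vv d ((sk d)^[n] p))) * nn (Mm d n p) ≤ |d.a| ^ 3 * (2 * (|d.a| ^ 3) ^ n) :=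
          mul_le_mul h1 ih h2 h3
      _ = 2 * ((|d.a| ^ 3) ^ n * |d.a| ^ 3) := by ring

private lemma mabs82 (hd : d.Ok) (n : ℕ) (i j : Fin 2) : Measurable fun p => |Mm d n p i j| :=
  continuous_abs.measurable.comp (meas_Mm hd n i j)

theorem meas_nn (hd : d.Ok) (n : ℕ) : Measurable fun p => nn (Mm d n p) :=
  (((mabs82 hd n 0 0).add (mabs82 hd n 0 1)).add (mabs82 hd n 1 0)).add (mabs82 hd n 1 1)

theorem meas_rn1 (hd : d.Ok) (n : ℕ) : Measurable fun p => rn1 (Mm d n p) :=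
  (mabs82 hd n 0 0).add (mabs82 hd n 0 1)

theorem meas_cn1 (hd : d.Ok) (n : ℕ) : Measurable fun p => cn1 (Mm d n p) :=
  (mabs82 hd n 0 0).add (mabs82 hd n 1 0)

theorem log_nn_bd (hd : d.Ok) (n : ℕ) (p : Pt) :
    0 ≤ Real.log (nn (Mm d n p)) ∧ Real.log (nn (Mm d n p)) ≤ Real.log 2 + n * (3 * Real.log |d.a|) := by
  have h2 := nn_ge_two (det_Mm (d := d) n p)
  have hA := hd.ha
  have h7 : 0 < |d.a| := by linarith
  refine ⟨Real.log_nonneg (by linarith), ?_⟩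
  calc Real.log (nn (Mm d n p)) ≤ Real.log (2 * (|d.a| ^ 3) ^ n) :=
        Real.log_le_log (by linarith) (nn_Mm_le82 hd n p)
    _ = Real.log 2 + n * (3 * Real.log |d.a|) := by
        rw [Real.log_mul (by norm_num) (pow_pos (pow_pos h7 3) n).ne', Real.log_pow, Real.log_pow]
        norm_num

theorem int_log_nn (hd : d.Ok) (n : ℕ) : Integrable (fun p => Real.log (nn (Mm d n p))) mu := by
  refine Integrable.of_bound (Real.measurable_log.comp (meas_nn hd n)).aestronglyMeasurable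
    (Real.log 2 + n * (3 * Real.log |d.a|)) (Filter.Eventually.of_forall fun p => ?_)
  obtain ⟨h1, h2⟩ := log_nn_bd hd n p
  rw [Real.norm_eq_abs, abs_of_nonneg h1]
  exact h2

theorem Em_bd (hd : d.Ok) (n : ℕ) :
    0 ≤ Em d n ∧ Em d n ≤ Real.log 2 + n * (3 * Real.log |d.a|) := by
  constructor
  · exact integral_nonneg fun p => (log_nn_bd hd n p).1
  · have h := integral_mono (int_log_nn hd n)
      (integrable_const (μ := mu) (Real.log 2 + n * (3 * Real.log |d.a|)))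
      fun p => (log_nn_bd hd n p).2
    rw [integral_const, probReal_univ, one_smul] at h
    exact h

theorem Em_sk (hd : d.Ok) (n i : ℕ) :
    ∫ p, Real.log (nn (Mm d n ((sk d)^[i] p))) ∂mu = Em d n := by
  have h := sk_iter_mp hd i
  have h1 : Measurable fun p => Real.log (nn (Mm d n p)) := Real.measurable_log.comp (meas_nn hd n)
  have h2 := integral_map (μ := mu) (φ := (sk d)^[i]) h.measurable.aemeasurable
    (f := fun p => Real.log (nn (Mm d n p))) h1.aestronglyMeasurable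
  rw [h.map_eq] at h2
  exact h2.symm

private lemma int82 (hd : d.Ok) (n i : ℕ) :
    Integrable (fun p => Real.log (nn (Mm d n ((sk d)^[i] p)))) mu :=
  (sk_iter_mp hd i).integrable_comp_of_integrable (int_log_nn hd n)

theorem Em_add_le (hd : d.Ok) (m n : ℕ) : Em d (m + n) ≤ Em d m + Em d n := by
  rw [← Em_sk hd m n]
  unfold Em
  rw [← integral_add (int82 hd m n) (int_log_nn hd n)]
  refine integral_mono (int_log_nn hd (m + n)) ((int82 hd m n).add (int_log_nn hd n)) fun p => ?_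
  have h1 := nn_ge_two (det_Mm (d := d) (m + n) p)
  have h2 := nn_ge_two (det_Mm (d := d) m ((sk d)^[n] p))
  have h3 := nn_ge_two (det_Mm (d := d) n p)
  change Real.log (nn (Mm d (m + n) p)) ≤
    Real.log (nn (Mm d m ((sk d)^[n] p))) + Real.log (nn (Mm d n p))
  rw [← Real.log_mul (by linarith) (by linarith)]
  refine Real.log_le_log (by linarith) ?_
  rw [Mm_add]
  exact nn_mul _ _

private theorem cone82 (n : ℕ) (p : Pt) (h : ∀ j < n, 2 ≤ |vv d ((sk d)^[j] p)|) :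
    |Mm d n p 1 0| ≤ |Mm d n p 0 0| ∧ 0 < |Mm d n p 0 0| ∧
      (∑ j ∈ Finset.range n, Real.log (|vv d ((sk d)^[j] p)| - 1)) ≤ Real.log |Mm d n p 0 0| := by
  induction n with
  | zero => simp [Mm]
  | succ n ih =>
    obtain ⟨h1, h2, h3⟩ := ih fun j hj => h j (by omega)
    have hv := h n (by omega)
    have e0 : Mm d (n + 1) p 0 0 = vv d ((sk d)^[n] p) * Mm d n p 0 0 - Mm d n p 1 0 := by
      rw [Mm_succ, row0_82]
    have e1 : Mm d (n + 1) p 1 0 = Mm d n p 0 0 := by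
      rw [Mm_succ, row1_82]
    rw [Finset.sum_range_succ, e1]
    have k1 : (|vv d ((sk d)^[n] p)| - 1) * |Mm d n p 0 0| ≤ |Mm d (n + 1) p 0 0| := by
      rw [e0]
      have k2 : |vv d ((sk d)^[n] p) * Mm d n p 0 0| - |Mm d n p 1 0| ≤
          |vv d ((sk d)^[n] p) * Mm d n p 0 0 - Mm d n p 1 0| := abs_sub_abs_le_abs_sub _ _
      rw [abs_mul] at k2
      linarith
    have k3 : 0 < (|vv d ((sk d)^[n] p)| - 1) * |Mm d n p 0 0| := mul_pos (by linarith) h2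
    have k4 : |Mm d n p 0 0| ≤ (|vv d ((sk d)^[n] p)| - 1) * |Mm d n p 0 0| := by nlinarith
    refine ⟨by linarith, by linarith, ?_⟩
    have k5 := Real.log_le_log k3 k1
    rw [Real.log_mul (by linarith) h2.ne'] at k5
    linarith

theorem cone (n : ℕ) (p : Pt) (h : ∀ j < n, 2 ≤ |vv d ((sk d)^[j] p)|) :
    (∑ j ∈ Finset.range n, Real.log (|vv d ((sk d)^[j] p)| - 1)) ≤ Real.log (nn (Mm d n p)) := by
  obtain ⟨h1, h2, h3⟩ := cone82 n p h
  exact h3.trans (Real.log_le_log h2 (abs_entry_le _ _ _))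

end Pool.Agent.Helper95.PV
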