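import Pool.Agent.Helper95.PV.Field
import Pool.Agent.Helper18.FD.Geo

/-! Block PV-CELL: cells of the circle, the circle map under a change of the two noise coordinates of a cell, orbits. Port of `FD/Geo.lean`, `FD/Orb.lean`, `FD/Line.lean` (simpler: one coordinate, explicit map).

* `rp_coe`: `AddCircle.coe_equivIco_mk_apply` (`rep_toT` in `UC/Cell.lean`). `dist_coe`: `dist_toT` in `FD/Geo.lean` with equal second coordinates, or `AddCircle.norm_eq`. `tc_coe`: `FD.t1_toT`.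
* `cc_coe`, `va_coe`: `p1`, `p2` are periodic (`h_ok`, `hd.e1`, `hd.e2`; integer translations by induction or `Function.Periodic.int_mul`).
* `cc_out`, `cc_inn`: `h_out`, `h_inn`, `AddCircle.coe_add`.
* `iter_out`: as in `FD/Orb.lean`: if the positions `j < k` are outside the cell, the points at the times `j ≤ k` do not change.
* `line`: as in `FD/Line.lean`. -/

set_option autoImplicit false
open MeasureTheory Real Set
open scoped ENNReal

namespace Pool.Agent.Helper95.PV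

open Pool.Agent.Helper18.UC (T2 rep toT nn)
open Pool.Agent.Helper18.FD (NN rr pr cl uu lm Bump k1 k2 NN_pos NN_ge abs_rr_le rr_add_int abs_rr_add_le rr_of_small)

variable {d : Dat}

theorem rp_mem (x : UnitAddCircle) : rp x ∈ Ico (0 : ℝ) 1 := by
  obtain ⟨h1, h2⟩ := (AddCircle.equivIco (1 : ℝ) 0 x).2
  exact ⟨h1, lt_of_lt_of_eq h2 (zero_add 1)⟩

theorem coe_rp (x : UnitAddCircle) : ((rp x : ℝ) : UnitAddCircle) = x := AddCircle.coe_equivIco

private theorem coe_int_add93 (x : ℝ) (u : ℤ) :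
    ((x + u : ℝ) : UnitAddCircle) = (x : UnitAddCircle) := by
  have h : ((u : ℝ) : UnitAddCircle) = 0 :=
    (AddCircle.coe_eq_zero_iff (1 : ℝ)).mpr ⟨u, by simp⟩
  rw [AddCircle.coe_add, h, add_zero]

theorem rp_coe (x : ℝ) : ∃ k : ℤ, rp (x : UnitAddCircle) = x + k := by
  refine ⟨-⌊x⌋, ?_⟩
  have h := AddCircle.coe_equivIco_mk_apply (1 : ℝ) x
  rw [div_one, mul_one] at h
  rw [show rp (x : UnitAddCircle) = Int.fract x from h]
  push_cast
  rw [Int.fract]
  ring

theorem meas_rp : Measurable rp :=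
  measurable_subtype_coe.comp (AddCircle.measurableEquivIco (1 : ℝ) 0).measurable

theorem dist_coe (x y : ℝ) : dist (x : UnitAddCircle) (y : UnitAddCircle) = |rr (x - y)| := by
  rw [dist_eq_norm, ← AddCircle.coe_sub, UnitAddCircle.norm_eq]
  rfl

theorem tc_coe (l i : ℕ) (x : ℝ) : tc l i (x : UnitAddCircle) = NN l * rr (x - i / NN l) := by
  obtain ⟨k, h⟩ := rp_coe x
  unfold tc
  rw [h, show x + k - (i : ℝ) / NN l = (x - (i : ℝ) / NN l) + k by ring, rr_add_int]

theorem cel_lt (l : ℕ) (x : UnitAddCircle) : cel l x < NN l := by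
  have hN : (0 : ℤ) < (NN l : ℤ) := by
    have := NN_pos l
    exact_mod_cast this
  have key : ∀ r : ℤ, (r % (NN l : ℤ)).toNat < NN l := by
    intro r
    have h1 := Int.emod_nonneg r hN.ne'
    have h2 := Int.emod_lt_of_pos r hN
    omega
  exact key _

private theorem inn_aux93 {N : ℕ} (hN : (8 : ℝ) ≤ N) (x : ℝ) :
    |(N : ℝ) * rr (x - (((round (N * x) % (N : ℤ)).toNat : ℕ) : ℝ) / N)| ≤ 1 / 2 := by
  have hN0 : (0 : ℝ) < N := by linarith
  have hZ : (0 : ℤ) < (N : ℤ) := by exact_mod_cast hN0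
  set r : ℤ := round ((N : ℝ) * x) with hr
  have h1 : (((r % (N : ℤ)).toNat : ℕ) : ℝ) = (r : ℝ) - N * ((r / (N : ℤ) : ℤ) : ℝ) := by
    have h2 := Int.emod_nonneg r hZ.ne'
    have h3 : (((r % (N : ℤ)).toNat : ℕ) : ℤ) = r - N * (r / (N : ℤ)) := by
      rw [Int.toNat_of_nonneg h2]
      have := Int.emod_add_mul_ediv r (N : ℤ)
      linarith
    exact_mod_cast h3
  have h4 : x - (((r % (N : ℤ)).toNat : ℕ) : ℝ) / N = (x - r / N) + ((r / (N : ℤ) : ℤ) : ℝ) := by
    rw [h1]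
    field_simp
    ring
  have h5 : (N : ℝ) * (x - r / N) = N * x - r := by
    field_simp
  have h6 : |(N : ℝ) * x - r| ≤ 1 / 2 := abs_sub_round _
  have h7 : |x - r / N| < 1 / 2 := by
    rw [← h5, abs_mul, abs_of_pos hN0] at h6
    nlinarith [abs_nonneg (x - (r : ℝ) / N)]
  rw [h4, rr_add_int, rr_of_small h7, h5]
  exact h6

theorem inn_cel (l : ℕ) (x : UnitAddCircle) : inn l (cel l x) x := inn_aux93 (NN_ge l) _

theorem meas_cel (l : ℕ) : Measurable (cel l) := by
  have h1 : Measurable fun x : ℝ => (round (NN l * x) % (NN l : ℤ)).toNat := by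
    have h2 : (fun x : ℝ => (round (NN l * x) % (NN l : ℤ)).toNat) =
        (fun r : ℤ => (r % (NN l : ℤ)).toNat) ∘ fun x : ℝ => ⌊(NN l : ℝ) * x + 1 / 2⌋ := by
      funext x
      simp only [Function.comp, round_eq]
    rw [h2]
    refine (measurable_of_countable _).comp ?_
    exact Int.measurable_floor.comp ((measurable_id.const_mul _).add_const _)
  exact h1.comp meas_rp

theorem out_of_far {l i : ℕ} {x y : UnitAddCircle} (hx : inn l i x)
    (h : 3 / (2 * (NN l : ℝ)) ≤ dist y x) : out l i y := by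
  by_contra hc
  unfold out at hc
  push Not at hc
  have hN := NN_pos l
  rw [← coe_rp x, ← coe_rp y, dist_coe] at h
  have key : ∀ y y' z : ℝ, |(NN l : ℝ) * rr (y' - z)| < 1 → |(NN l : ℝ) * rr (y - z)| ≤ 1 / 2 →
      |rr (y' - y)| < 3 / (2 * (NN l : ℝ)) := by
    intro y y' z h1 h2
    have e : y' - y = (y' - z) + (-(y - z)) := by ring
    have h3 := abs_rr_add_le (y' - z) (-(y - z))
    rw [← e] at h3
    have h4 : |rr (-(y - z))| ≤ |rr (y - z)| := by
      have h5 := round_le (-(y - z)) (-(round (y - z)))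
      unfold rr
      refine h5.trans (le_of_eq ?_)
      rw [← abs_neg]
      congr 1
      push_cast
      ring
    rw [abs_mul, abs_of_pos hN] at h1 h2
    rw [lt_div_iff₀ (by positivity)]
    nlinarith
  exact absurd (key _ _ _ hc hx) (not_lt.2 h)

theorem out_of_far2 {l i : ℕ} {x y : UnitAddCircle} (hx : inn l i x)
    (h : 2 / (NN l : ℝ) ≤ dist y x) : out l i y := by
  refine out_of_far hx (le_trans ?_ h)
  have hN := NN_pos l
  rw [div_le_div_iff₀ (by positivity) hN]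
  nlinarith

/-- periodicity and the plane map -/
theorem p_int (hd : d.Ok) (ω : Om) (x : ℝ) (k : ℤ) : d.p1 ω (x + k) = d.p1 ω x ∧ d.p2 ω (x + k) = d.p2 ω x := by
  obtain ⟨C, -, hC⟩ := h_ok hd.hχ hd.hs (by linarith [hd.hs1])
  obtain ⟨-, -, -, -, q1, q2, -⟩ := hC ω
  have per : ∀ f : ℝ → ℝ, (∀ x, f (x + 1) = f x) → f (x + k) = f x := by
    intro f hf
    have h1 : Function.Periodic f 1 := hf
    have h2 := h1.int_mul k x
    rwa [mul_one] at h2
  constructor
  · unfold Dat.p1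
    rw [per _ hd.e1, per _ q1]
  · unfold Dat.p2
    rw [per _ hd.e2, per _ q2]

theorem cc_coe (hd : d.Ok) (ω : Om) (x : ℝ) :
    cc d ω (x : UnitAddCircle) = ((2 * x + d.a * d.p1 ω x : ℝ) : UnitAddCircle) := by
  obtain ⟨k, h⟩ := rp_coe x
  unfold cc
  rw [h, (p_int hd ω x k).1]
  have h2 := coe_int_add93 (2 * x + d.a * d.p1 ω x) (2 * k)
  rw [← h2]
  congr 1
  push_cast
  ring

theorem va_coe (hd : d.Ok) (ω : Om) (x : ℝ) : va d ω (x : UnitAddCircle) = 2 + d.a * d.p2 ω x := by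
  obtain ⟨k, h⟩ := rp_coe x
  unfold va
  rw [h, (p_int hd ω x k).2]

theorem Tw_toT (hd : d.Ok) (ω : Om) (q : ℝ × ℝ) : Tw d ω (toT q) = toT (Fl d ω q) := by
  show (cc d ω ((q.1 : ℝ) : UnitAddCircle) - ((q.2 : ℝ) : UnitAddCircle), ((q.1 : ℝ) : UnitAddCircle)) =
    (((2 * q.1 - q.2 + d.a * d.p1 ω q.1 : ℝ) : UnitAddCircle), ((q.1 : ℝ) : UnitAddCircle))
  rw [cc_coe hd, ← AddCircle.coe_sub]
  congr 2
  ring

theorem cc_out (hd : d.Ok) {l i : ℕ} (hi : i < NN l) (u v : ℝ) {ω : Om} {x : UnitAddCircle}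
    (h : out l i x) : cc d (upd l i u v ω) x = cc d ω x ∧ va d (upd l i u v ω) x = va d ω x := by
  obtain ⟨h1, h2⟩ := h_out hd.hχ hd.hs hi u v ω (x := rp x) h
  constructor
  · unfold cc Dat.p1
    rw [h1]
  · unfold va Dat.p2
    rw [h2]

theorem cc_inn (hd : d.Ok) {l i : ℕ} (hi : i < NN l) (u v : ℝ) {ω : Om} {x : UnitAddCircle}
    (h : inn l i x) :
    cc d (upd l i u v ω) x = cc d ω x + ((d.a * d.κ * (NN l : ℝ) ^ (-(1 + d.s)) *
      ((cl u - cl (ω (l, i, false))) + (cl v - cl (ω (l, i, true))) * tc l i x) : ℝ) : UnitAddCircle) ∧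
    va d (upd l i u v ω) x = va d ω x + d.a * (d.κ * (NN l : ℝ) ^ (-d.s) * (cl v - cl (ω (l, i, true)))) := by
  obtain ⟨h1, h2⟩ := h_inn hd.hχ hd.hs hi u v ω (x := rp x) h
  constructor
  · unfold cc Dat.p1
    rw [h1, ← AddCircle.coe_add]
    congr 1
    unfold tc
    ring
  · unfold va Dat.p2
    rw [h2]
    ring

private theorem E1_93 (d : Dat) (ω : Om) (z : T2) (j : ℕ) :
    (sk d)^[j] (ω, z) = (ω, ((sk d)^[j] (ω, z)).2) := Prod.ext (sk_iter_fst d j (ω, z)) rfl

private theorem E2_93 {d : Dat} {ω ω' : Om} {z : T2} {j : ℕ}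
    (h : ((sk d)^[j] (ω', z)).2 = ((sk d)^[j] (ω, z)).2) :
    (sk d)^[j] (ω', z) = (ω', ((sk d)^[j] (ω, z)).2) := Prod.ext (sk_iter_fst d j (ω', z)) h

private theorem step_93 {d : Dat} {ω ω' : Om} {z : T2} {j : ℕ}
    (h : ((sk d)^[j] (ω', z)).2 = ((sk d)^[j] (ω, z)).2)
    (hc : cc d ω' (px d j (ω, z)) = cc d ω (px d j (ω, z))) :
    ((sk d)^[j + 1] (ω', z)).2 = ((sk d)^[j + 1] (ω, z)).2 := by
  rw [Function.iterate_succ_apply', Function.iterate_succ_apply', E2_93 h]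
  conv_rhs => rw [E1_93]
  show Tw d ω' ((sk d)^[j] (ω, z)).2 = Tw d ω ((sk d)^[j] (ω, z)).2
  unfold px at hc
  unfold Tw
  rw [hc]

/-- the points at the times `j ≤ k` do not change if the positions `j < k` are outside the cell -/
theorem iter_out (hd : d.Ok) {l i : ℕ} (hi : i < NN l) (u v : ℝ) {ω : Om} {z : T2} {k : ℕ}
    (h : ∀ j < k, out l i (px d j (ω, z))) :
    (∀ j ≤ k, ((sk d)^[j] (upd l i u v ω, z)).2 = ((sk d)^[j] (ω, z)).2) ∧
    (∀ j ≤ k, px d j (upd l i u v ω, z) = px d j (ω, z)) ∧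
    ∀ j < k, vv d ((sk d)^[j] (upd l i u v ω, z)) = vv d ((sk d)^[j] (ω, z)) := by
  have P : ∀ j ≤ k, ((sk d)^[j] (upd l i u v ω, z)).2 = ((sk d)^[j] (ω, z)).2 := by
    intro j
    induction j with
    | zero => exact fun _ => rfl
    | succ j ih =>
      intro hj
      exact step_93 (ih (by omega)) (cc_out hd hi u v (h j (by omega))).1
  refine ⟨P, fun j hj => ?_, fun j hj => ?_⟩
  · unfold px
    rw [P j hj]
  · rw [E2_93 (P j hj.le)]
    conv_rhs => rw [E1_93]
    exact (cc_out hd hi u v (h j hj)).2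

/-- the whole orbit segment is constant along a line in the two noise coordinates -/
theorem line (hd : d.Ok) {l k n : ℕ} (hk : k ≤ n) {ω : Om} {z : T2} (hf : far d l k n (ω, z))
    {c : ℕ} (hc : c = cel l (px d k (ω, z))) {u v : ℝ} (hu : u ∈ Icc (-1 : ℝ) 1)
    (hv : v ∈ Icc (-1 : ℝ) 1)
    (hl : u + v * tc l c (px d k (ω, z)) =
      cl (ω (l, c, false)) + cl (ω (l, c, true)) * tc l c (px d k (ω, z))) :
    (∀ j ≤ n + 1, ((sk d)^[j] (upd l c u v ω, z)).2 = ((sk d)^[j] (ω, z)).2) ∧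
    (∀ j ≤ n, px d j (upd l c u v ω, z) = px d j (ω, z)) ∧
    (∀ j ≤ n, j ≠ k → vv d ((sk d)^[j] (upd l c u v ω, z)) = vv d ((sk d)^[j] (ω, z))) ∧
    vv d ((sk d)^[k] (upd l c u v ω, z)) = vv d ((sk d)^[k] (ω, z)) +
      d.a * (d.κ * (NN l : ℝ) ^ (-d.s) * (v - cl (ω (l, c, true)))) := by
  have hcl : c < NN l := by
    rw [hc]
    exact cel_lt l _
  have hin : inn l c (px d k (ω, z)) := by
    rw [hc]
    exact inn_cel l _
  have hout : ∀ j ≤ n, j ≠ k → out l c (px d j (ω, z)) := by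
    intro j hj hjk
    exact out_of_far2 hin (hf j hj hjk)
  have clm : ∀ t ∈ Icc (-1 : ℝ) 1, cl t = t := by
    intro t ht
    unfold cl
    rw [min_eq_right ht.2, max_eq_right ht.1]
  obtain ⟨s1, s2⟩ := cc_inn hd hcl u v (ω := ω) hin
  rw [clm u hu, clm v hv] at s1
  rw [clm v hv] at s2
  have s0 : (u - cl (ω (l, c, false))) + (v - cl (ω (l, c, true))) * tc l c (px d k (ω, z)) = 0 := by
    linear_combination hl
  rw [s0, mul_zero, AddCircle.coe_zero, add_zero] at s1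
  have P : ∀ j ≤ n + 1, ((sk d)^[j] (upd l c u v ω, z)).2 = ((sk d)^[j] (ω, z)).2 := by
    intro j
    induction j with
    | zero => exact fun _ => rfl
    | succ j ih =>
      intro hj
      have h2 := ih (by omega)
      by_cases hjk : j = k
      · subst hjk
        exact step_93 h2 s1
      · exact step_93 h2 (cc_out hd hcl u v (hout j (by omega) hjk)).1
  refine ⟨P, fun j hj => ?_, fun j hj hjk => ?_, ?_⟩
  · unfold px
    rw [P j (by omega)]
  · rw [E2_93 (P j (by omega))]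
    conv_rhs => rw [E1_93]
    exact (cc_out hd hcl u v (hout j hj hjk)).2
  · rw [E2_93 (P k (by omega))]
    conv_rhs => rw [E1_93]
    exact s2

end Pool.Agent.Helper95.PV
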