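import Pool.Agent.Helper95.PV.Lw

/-! Block PV-INIT: growth at short times. Compare `FD/Init.lean`.

* `init1`: pointwise `log nn (Mm d m p) ≥ ∑_{j<m} log (max 1 (|v_j| - 1)) - 1_Bad m 3 log |a|`, `v_j = vv d ((sk d)^[j] p)`, `Bad = {∃ j < m, |v_j| < 2}`: off `Bad` by `cone`, on `Bad` since the left side is `≥ 0` and every term of the sum is
  `≤ log |a|³` (`nn_mv_le`, `nn_mv`). Integrate with `sk_iter_mp`, `mu Bad ≤ m mu {|vv| < 2}`.
* `small_vv`: `|vv| < T` implies `|p2| < (T + 2)/|a|`, `law_vv` with `j = 0`, `Dat.Nd`.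
* `hi_lo`: with `T = |a|^(1/2) ≥ 10`: `log (|v| + 2) - log (max 1 (|v| - 1)) ≤ 3/(|v| - 1) ≤ 4/T` if `|v| ≥ T`, and `≤ log (T + 2)` otherwise. So the difference of the integrals is at most
  `4 |a|^(-1/2) + log (|a|^(1/2) + 2) B (2 |a|^(-1/2))^b ≤ C |a|^(-b/4)`.
* `init`: `c₀ = b/8`, `m ≤ |a|^c₀`: `m 3 log |a| mu {|vv| < 2} ≤ 3 |a|^(b/8) log |a| B (4/|a|)^b ≤ C |a|^(-b/8)`. -/

set_option autoImplicit false
open MeasureTheory Real Set Filter Topology
open scoped ENNReal

namespace Pool.Agent.Helper95.PV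

open Pool.Agent.Helper18.UC (T2 rep toT nn nn_nonneg nn_mul nn_one)
open Pool.Agent.Helper18.FD (NN rr pr cl uu lm Bump k1 k2 NN_pos NN_ge)

variable {d : Dat}

/-- the profile -/
private noncomputable def ff61 (d : Dat) (p : Pt) : ℝ := Real.log (max 1 (|vv d p| - 1))

private theorem ff_meas61 (hd : d.Ok) : Measurable (ff61 d) := by
  unfold ff61
  exact Real.measurable_log.comp (measurable_const.max ((meas_vv hd).abs.sub_const 1))

private theorem ff_nonneg61 (d : Dat) (p : Pt) : 0 ≤ ff61 d p := Real.log_nonneg (le_max_left _ _)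

private theorem vv_cube61 (hd : d.Ok) (p : Pt) : |vv d p| + 2 ≤ |d.a| ^ 3 := by
  rw [← nn_mv]
  exact nn_mv_le hd p

private theorem log_cube61 (d : Dat) : Real.log (|d.a| ^ 3) = 3 * Real.log |d.a| := by
  rw [Real.log_pow]
  norm_num

private theorem ff_le61 (hd : d.Ok) (p : Pt) : ff61 d p ≤ 3 * Real.log |d.a| := by
  have h1 := vv_cube61 hd p
  have h2 : 0 ≤ |vv d p| := abs_nonneg _
  rw [← log_cube61]
  unfold ff61
  exact Real.log_le_log (lt_of_lt_of_le one_pos (le_max_left _ _)) (max_le (by linarith) (by linarith))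

private theorem int_ff61 (hd : d.Ok) (j : ℕ) : Integrable (fun p => ff61 d ((sk d)^[j] p)) mu := by
  have hp : IsProbabilityMeasure mu := by unfold mu; infer_instance
  refine Integrable.mono' (integrable_const (3 * Real.log |d.a|))
    ((ff_meas61 hd).comp (sk_iter_mp hd j).measurable).aestronglyMeasurable
    (Filter.Eventually.of_forall fun p => ?_)
  rw [Real.norm_eq_abs, abs_of_nonneg (ff_nonneg61 _ _)]
  exact ff_le61 hd _

private theorem int_ff_eq61 (hd : d.Ok) (j : ℕ) :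
    ∫ p, ff61 d ((sk d)^[j] p) ∂mu = ∫ p, ff61 d p ∂mu := by
  have h1 := sk_iter_mp hd j
  have h2 := integral_map (μ := mu) (φ := (sk d)^[j]) h1.measurable.aemeasurable
    (f := ff61 d) (ff_meas61 hd).aestronglyMeasurable
  rw [h1.map_eq] at h2
  exact h2.symm

theorem init1 (hd : d.Ok) (m : ℕ) :
    m * (∫ p, Real.log (max 1 (|vv d p| - 1)) ∂mu - m * (3 * Real.log |d.a|) * mu.real {p | |vv d p| < 2}) ≤
      Em d m := by
  have hp : IsProbabilityMeasure mu := by unfold mu; infer_instance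
  have ha := hd.ha
  have hl : 0 ≤ 3 * Real.log |d.a| := mul_nonneg (by norm_num) (Real.log_nonneg (by linarith))
  have hB : MeasurableSet {p | ∃ j < m, |vv d ((sk d)^[j] p)| < 2} := by
    have e : {p | ∃ j < m, |vv d ((sk d)^[j] p)| < 2} =
        ⋃ j ∈ Finset.range m, {p | |vv d ((sk d)^[j] p)| < 2} := by
      ext p
      simp
    rw [e]
    refine Finset.measurableSet_biUnion _ fun j _ => ?_
    exact measurableSet_lt (((meas_vv hd).comp (sk_iter_mp hd j).measurable).abs) measurable_const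
  have hmB : mu.real {p | ∃ j < m, |vv d ((sk d)^[j] p)| < 2} ≤ m * mu.real {p | |vv d p| < 2} := by
    have e : {p | ∃ j < m, |vv d ((sk d)^[j] p)| < 2} =
        ⋃ j ∈ Finset.range m, {p | |vv d ((sk d)^[j] p)| < 2} := by
      ext p
      simp
    rw [e]
    refine (measureReal_biUnion_finset_le _ _).trans ?_
    have h1 : ∀ j ∈ Finset.range m, mu.real {p | |vv d ((sk d)^[j] p)| < 2} =
        mu.real {p | |vv d p| < 2} := by
      intro j _
      have hS : MeasurableSet {p | |vv d p| < 2} := measurableSet_lt (meas_vv hd).abs measurable_const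
      have h2 := (sk_iter_mp hd j).measureReal_preimage hS.nullMeasurableSet
      exact h2
    rw [Finset.sum_congr rfl h1, Finset.sum_const, Finset.card_range, nsmul_eq_mul]
  set S : Set Pt := {p | ∃ j < m, |vv d ((sk d)^[j] p)| < 2} with hS
  have hpt : ∀ p, (∑ j ∈ Finset.range m, ff61 d ((sk d)^[j] p)) -
      S.indicator (fun _ => (m : ℝ) * (3 * Real.log |d.a|)) p ≤ Real.log (nn (Mm d m p)) := by
    intro p
    by_cases hpS : p ∈ S
    · rw [indicator_of_mem hpS]
      have h1 : ∑ j ∈ Finset.range m, ff61 d ((sk d)^[j] p) ≤ m * (3 * Real.log |d.a|) := by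
        refine (Finset.sum_le_sum fun j _ => ff_le61 hd _).trans ?_
        rw [Finset.sum_const, Finset.card_range, nsmul_eq_mul]
      have h2 := (log_nn_bd hd m p).1
      linarith
    · rw [indicator_of_notMem hpS, sub_zero]
      have h0 : ∀ j < m, 2 ≤ |vv d ((sk d)^[j] p)| := by
        intro j hj
        by_contra h
        exact hpS ⟨j, hj, not_le.1 h⟩
      refine le_trans (le_of_eq ?_) (cone m p h0)
      refine Finset.sum_congr rfl fun j hj => ?_
      unfold ff61
      rw [max_eq_right]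
      linarith [h0 j (Finset.mem_range.1 hj)]
  have i1 : Integrable (fun p => ∑ j ∈ Finset.range m, ff61 d ((sk d)^[j] p)) mu :=
    integrable_finsetSum _ fun j _ => int_ff61 hd j
  have i3 : Integrable (S.indicator (fun _ => (m : ℝ) * (3 * Real.log |d.a|))) mu :=
    (integrable_const _).indicator hB
  have h1 : ∫ p, ((∑ j ∈ Finset.range m, ff61 d ((sk d)^[j] p)) -
      S.indicator (fun _ => (m : ℝ) * (3 * Real.log |d.a|)) p) ∂mu ≤ Em d m :=
    integral_mono (i1.sub i3) (int_log_nn hd m) hpt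
  rw [integral_sub i1 i3, integral_finsetSum _ fun j _ => int_ff61 hd j,
    integral_indicator_const _ hB, Finset.sum_congr rfl fun j _ => int_ff_eq61 hd j,
    Finset.sum_const, Finset.card_range, nsmul_eq_mul, smul_eq_mul] at h1
  have h2 : ∫ p, ff61 d p ∂mu = ∫ p, Real.log (max 1 (|vv d p| - 1)) ∂mu := rfl
  rw [h2] at h1
  have h3 : mu.real S * ((m : ℝ) * (3 * Real.log |d.a|)) ≤
      m * mu.real {p | |vv d p| < 2} * ((m : ℝ) * (3 * Real.log |d.a|)) :=
    mul_le_mul_of_nonneg_right hmB (mul_nonneg (Nat.cast_nonneg m) hl)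
  have h4 : (m : ℝ) * (∫ p, Real.log (max 1 (|vv d p| - 1)) ∂mu -
      m * (3 * Real.log |d.a|) * mu.real {p | |vv d p| < 2}) =
      m * ∫ p, Real.log (max 1 (|vv d p| - 1)) ∂mu -
      m * mu.real {p | |vv d p| < 2} * ((m : ℝ) * (3 * Real.log |d.a|)) := by ring
  rw [h4]
  linarith

theorem small_vv (hd : d.Ok) {B b : ℝ} (hn : d.Nd B b) {T : ℝ} (hT : 0 ≤ T) :
    mu {p | |vv d p| < T} ≤ ENNReal.ofReal (B * ((T + 2) / |d.a|) ^ b) := by
  have ha0 : 0 < |d.a| := by linarith [hd.ha]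
  have hδ : 0 < (T + 2) / |d.a| := div_pos (by linarith) ha0
  have hS : MeasurableSet {q : Om × ℝ | |d.p2 q.1 q.2| < (T + 2) / |d.a|} :=
    measurableSet_lt (p_meas hd).2.abs measurable_const
  have hφ : Measurable (fun p : Pt => ((p.1, rp (px d 0 p)) : Om × ℝ)) :=
    measurable_fst.prodMk (meas_rp.comp (meas_px hd 0))
  refine le_trans ?_ (hn _ hδ)
  rw [← law_vv hd 0, Measure.map_apply hφ hS]
  refine measure_mono fun p hp => ?_
  have h1 : |2 + d.a * d.p2 p.1 (rp p.2.1)| < T := hp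
  show |d.p2 p.1 (rp (px d 0 p))| < (T + 2) / |d.a|
  rw [px_zero, lt_div_iff₀ ha0, mul_comm, ← abs_mul]
  have h2 : |d.a * d.p2 p.1 (rp p.2.1)| ≤ |2 + d.a * d.p2 p.1 (rp p.2.1)| + |(-2 : ℝ)| := by
    have h3 := abs_add_le (2 + d.a * d.p2 p.1 (rp p.2.1)) (-2)
    have h4 : 2 + d.a * d.p2 p.1 (rp p.2.1) + -2 = d.a * d.p2 p.1 (rp p.2.1) := by ring
    rwa [h4] at h3
  have h5 : |(-2 : ℝ)| = 2 := by norm_num
  rw [h5] at h2
  linarith

private theorem small_real61 (hd : d.Ok) {B b : ℝ} (hB : 1 ≤ B) (hn : d.Nd B b) {T : ℝ} (hT : 0 ≤ T) :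
    mu.real {p | |vv d p| < T} ≤ B * ((T + 2) / |d.a|) ^ b := by
  have ha0 : 0 < |d.a| := by linarith [hd.ha]
  refine ENNReal.toReal_le_of_le_ofReal ?_ (small_vv hd hn hT)
  have : 0 ≤ ((T + 2) / |d.a|) ^ b := Real.rpow_nonneg (div_nonneg (by linarith) ha0.le) _
  exact mul_nonneg (by linarith) this

private theorem hi_lo61 (hd : d.Ok) {T : ℝ} (hT : 4 ≤ T) (hTa : T + 2 ≤ |d.a|) :
    ∫ p, Real.log (|vv d p| + 2) ∂mu ≤ ∫ p, Real.log (max 1 (|vv d p| - 1)) ∂mu + 4 / T +
      Real.log |d.a| * mu.real {p | |vv d p| < T} := by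
  have hp : IsProbabilityMeasure mu := by unfold mu; infer_instance
  have ha := hd.ha
  have hS : MeasurableSet {p | |vv d p| < T} := measurableSet_lt (meas_vv hd).abs measurable_const
  have i0 : Integrable (fun p => Real.log (|vv d p| + 2)) mu := by
    refine Integrable.mono' (integrable_const (3 * Real.log |d.a|))
      (Real.measurable_log.comp ((meas_vv hd).abs.add_const 2)).aestronglyMeasurable
      (Filter.Eventually.of_forall fun p => ?_)
    have h0 : 0 ≤ |vv d p| := abs_nonneg _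
    rw [Real.norm_eq_abs, abs_of_nonneg (Real.log_nonneg (by linarith)), ← log_cube61]
    exact Real.log_le_log (by linarith) (vv_cube61 hd p)
  have i1 : Integrable (fun p => Real.log (max 1 (|vv d p| - 1))) mu := int_ff61 hd 0
  have i2 : Integrable ({p | |vv d p| < T}.indicator (fun _ => Real.log |d.a|)) mu :=
    (integrable_const _).indicator hS
  have hpt : ∀ p, Real.log (|vv d p| + 2) ≤ Real.log (max 1 (|vv d p| - 1)) + 4 / T +
      {p | |vv d p| < T}.indicator (fun _ => Real.log |d.a|) p := by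
    intro p
    have h0 : 0 ≤ |vv d p| := abs_nonneg _
    have hT0 : 0 < 4 / T := by positivity
    by_cases h : |vv d p| < T
    · have hm : p ∈ {p | |vv d p| < T} := h
      rw [indicator_of_mem hm]
      have h1 : Real.log (|vv d p| + 2) ≤ Real.log |d.a| :=
        Real.log_le_log (by linarith) (by linarith)
      have h2 : 0 ≤ Real.log (max 1 (|vv d p| - 1)) := Real.log_nonneg (le_max_left _ _)
      linarith
    · have hm : p ∉ {p | |vv d p| < T} := h
      rw [indicator_of_notMem hm, add_zero]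
      push Not at h
      rw [max_eq_right (by linarith)]
      have h1 : (0 : ℝ) < |vv d p| - 1 := by linarith
      have h2 : |vv d p| + 2 = (|vv d p| - 1) * (1 + 3 / (|vv d p| - 1)) := by
        field_simp
        ring
      have h3 : (0 : ℝ) < 1 + 3 / (|vv d p| - 1) := by positivity
      rw [h2, Real.log_mul h1.ne' h3.ne']
      have h4 : Real.log (1 + 3 / (|vv d p| - 1)) ≤ 3 / (|vv d p| - 1) := by
        have := Real.log_le_sub_one_of_pos h3
        linarith
      have h5 : 3 / (|vv d p| - 1) ≤ 4 / T := by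
        rw [div_le_div_iff₀ h1 (by linarith)]
        linarith
      linarith
  have h1 := integral_mono i0 ((i1.add (integrable_const (4 / T))).add i2) hpt
  have h2 : ∫ p, (Real.log (max 1 (|vv d p| - 1)) + 4 / T +
      {p | |vv d p| < T}.indicator (fun _ => Real.log |d.a|) p) ∂mu =
      ∫ p, Real.log (max 1 (|vv d p| - 1)) ∂mu + 4 / T +
      Real.log |d.a| * mu.real {p | |vv d p| < T} := by
    have i12 : Integrable (fun p => Real.log (max 1 (|vv d p| - 1)) + 4 / T) mu :=
      i1.add (integrable_const (4 / T))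
    rw [integral_add i12 i2, integral_add i1 (integrable_const _),
      integral_indicator_const _ hS, integral_const, probReal_univ, one_smul, smul_eq_mul,
      mul_comm (mu.real _)]
  rw [← h2]
  exact h1

theorem init {B b : ℝ} (hB : 1 ≤ B) (hb : 0 < b) (hb1 : b ≤ 1) :
    ∃ c₀ C : ℝ, 0 < c₀ ∧ c₀ ≤ 1 / 8 ∧ 0 < C ∧ ∀ d : Dat, d.Ok → d.Nd B b → ∀ m : ℕ, (m : ℝ) ≤ |d.a| ^ c₀ →
      m * ((∫ ω, Hi d ω ∂PP) - C * |d.a| ^ (-c₀)) ≤ Em d m := by
  refine ⟨b / 8, 4 + 56 * B / b, by positivity, by linarith, by positivity, fun d hd hn m hm => ?_⟩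
  have ha := hd.ha
  have ha0 : 0 < |d.a| := by linarith
  have ha1 : 1 ≤ |d.a| := by linarith
  set X : ℝ := |d.a| with hX
  rw [Hi_mean hd]
  have hi1 := init1 hd m
  rw [← hX] at hi1
  -- the logarithm
  have hlog0 : 0 ≤ Real.log X := Real.log_nonneg ha1
  have hlog : Real.log X ≤ 4 / b * X ^ (b / 4) := by
    have h5 := Real.log_le_rpow_div (x := X) (ε := b / 4) ha0.le (by positivity)
    refine h5.trans (le_of_eq ?_)
    field_simp
  -- T
  have hT2 : X ^ (1 / 2 : ℝ) * X ^ (1 / 2 : ℝ) = X := by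
    rw [← Real.rpow_add ha0]
    norm_num
  have hT10 : 10 ≤ X ^ (1 / 2 : ℝ) := by
    have h0 : 0 ≤ X ^ (1 / 2 : ℝ) := Real.rpow_nonneg ha0.le _
    nlinarith
  set T : ℝ := X ^ (1 / 2 : ℝ) with hTdef
  have hTX : T + 2 ≤ X := by nlinarith
  have hhl := hi_lo61 hd (T := T) (by linarith) hTX
  rw [← hX] at hhl
  have hs1 := small_real61 hd hB hn (T := T) (by linarith)
  have hs2 := small_real61 hd hB hn (T := 2) (by norm_num)
  rw [← hX] at hs1 hs2
  -- powers
  have hpow : ∀ x y : ℝ, x ≤ y → X ^ x ≤ X ^ y := fun x y h =>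
    Real.rpow_le_rpow_of_exponent_le ha1 h
  have e1 : 4 / T ≤ 4 * X ^ (-(b / 8)) := by
    have h1 : 1 / T = X ^ (-(1 / 2) : ℝ) := by
      rw [hTdef, Real.rpow_neg ha0.le, one_div]
    have h2 : 4 / T = 4 * (1 / T) := by ring
    rw [h2, h1]
    exact mul_le_mul_of_nonneg_left (hpow _ _ (by linarith)) (by norm_num)
  have e2 : ((T + 2) / X) ^ b ≤ 2 * X ^ (-(b / 2)) := by
    have h1 : (T + 2) / X ≤ 2 * X ^ (-(1 / 2) : ℝ) := by
      have h2 : X ^ (-(1 / 2) : ℝ) = T / X := by
        rw [eq_div_iff ha0.ne', hTdef, ← Real.rpow_add_one ha0.ne']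
        norm_num
      rw [h2, mul_div_assoc']
      exact div_le_div_of_nonneg_right (by linarith) ha0.le
    have h3 : 0 ≤ (T + 2) / X := by positivity
    refine (Real.rpow_le_rpow h3 h1 hb.le).trans ?_
    rw [Real.mul_rpow (by norm_num) (Real.rpow_nonneg ha0.le _), ← Real.rpow_mul ha0.le]
    have h4 : (2 : ℝ) ^ b ≤ 2 := by
      calc (2 : ℝ) ^ b ≤ 2 ^ (1 : ℝ) := Real.rpow_le_rpow_of_exponent_le (by norm_num) hb1
        _ = 2 := Real.rpow_one _
    have h5 : -(1 / 2) * b = -(b / 2) := by ring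
    rw [h5]
    exact mul_le_mul_of_nonneg_right h4 (Real.rpow_nonneg ha0.le _)
  have e3 : (((2 : ℝ) + 2) / X) ^ b ≤ 4 * X ^ (-b) := by
    have h1 : ((2 : ℝ) + 2) / X = 4 * X ^ (-1 : ℝ) := by
      rw [Real.rpow_neg_one]
      ring
    rw [h1, Real.mul_rpow (by norm_num) (Real.rpow_nonneg ha0.le _), ← Real.rpow_mul ha0.le]
    have h4 : (4 : ℝ) ^ b ≤ 4 := by
      calc (4 : ℝ) ^ b ≤ 4 ^ (1 : ℝ) := Real.rpow_le_rpow_of_exponent_le (by norm_num) hb1
        _ = 4 := Real.rpow_one _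
    have h5 : (-1 : ℝ) * b = -b := by ring
    rw [h5]
    exact mul_le_mul_of_nonneg_right h4 (Real.rpow_nonneg ha0.le _)
  -- first error
  have f1 : Real.log X * mu.real {p | |vv d p| < T} ≤ 8 * B / b * X ^ (-(b / 8)) := by
    calc Real.log X * mu.real {p | |vv d p| < T} ≤
        (4 / b * X ^ (b / 4)) * (B * (2 * X ^ (-(b / 2)))) := by
          refine mul_le_mul hlog (hs1.trans (mul_le_mul_of_nonneg_left e2 (by linarith)))
            measureReal_nonneg (by positivity)
      _ = 8 * B / b * (X ^ (b / 4) * X ^ (-(b / 2))) := by ring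
      _ = 8 * B / b * X ^ (b / 4 + -(b / 2)) := by rw [Real.rpow_add ha0]
      _ ≤ 8 * B / b * X ^ (-(b / 8)) :=
          mul_le_mul_of_nonneg_left (hpow _ _ (by linarith)) (by positivity)
  -- second error
  have f2 : (m : ℝ) * (3 * Real.log X) * mu.real {p | |vv d p| < 2} ≤ 48 * B / b * X ^ (-(b / 8)) := by
    calc (m : ℝ) * (3 * Real.log X) * mu.real {p | |vv d p| < 2} ≤
        (X ^ (b / 8) * (3 * (4 / b * X ^ (b / 4)))) * (B * (4 * X ^ (-b))) := by
          refine mul_le_mul (mul_le_mul hm (mul_le_mul_of_nonneg_left hlog (by norm_num))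
            (by positivity) (by positivity)) (hs2.trans (mul_le_mul_of_nonneg_left e3 (by linarith)))
            measureReal_nonneg (by positivity)
      _ = 48 * B / b * (X ^ (b / 8) * X ^ (b / 4) * X ^ (-b)) := by ring
      _ = 48 * B / b * X ^ (b / 8 + b / 4 + -b) := by rw [Real.rpow_add ha0, Real.rpow_add ha0]
      _ ≤ 48 * B / b * X ^ (-(b / 8)) :=
          mul_le_mul_of_nonneg_left (hpow _ _ (by linarith)) (by positivity)
  refine le_trans (mul_le_mul_of_nonneg_left ?_ (Nat.cast_nonneg m)) hi1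
  have h6 : (4 + 56 * B / b) * X ^ (-(b / 8)) = 4 * X ^ (-(b / 8)) + 8 * B / b * X ^ (-(b / 8)) +
      48 * B / b * X ^ (-(b / 8)) := by ring
  rw [h6]
  linarith

end Pool.Agent.Helper95.PV
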