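import Pool.Agent.Helper95.PV.Dbl
import Pool.Agent.Helper95.PV.Init

/-! Block PV-COMB: all times. Port of `FD/Comb.lean` (`cmb_rec` can be copied; `cmb_num` with `m₀ = ⌊|a|^c₀⌋` for `⌊|a|^(1/4)⌋` and `C₂ |a|^(-c₀)` for `C₂ |a|^(-1/3)`), with `∫ Hi` for `log (π |a|)`.

`fix`: `Lw_int` and `main1` divided by `n` give `∫ Lw ≥ ∫ Hi - |a|^(-c)`; `Lw ≤ Hi`. -/

set_option autoImplicit false
open MeasureTheory Real Set Filter Topology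
open scoped ENNReal

namespace Pool.Agent.Helper95.PV

open Pool.Agent.Helper18.UC (T2 rep toT nn nn_nonneg nn_mul nn_one)
open Pool.Agent.Helper18.FD (NN rr pr cl uu lm Bump k1 k2 NN_pos NN_ge)

/-- the doubling recursion -/
private lemma cmb_rec {u : ℕ → ℝ} {β C₁ Λ L₀ : ℝ} (hβ1 : β < 1) {m₀ : ℕ} (hm : 2 ≤ m₀)
    (h0 : m₀ * L₀ ≤ u m₀) (hd : ∀ m : ℕ, 2 ≤ m → 2 * u m ≤ u (2 * m) + C₁ * (m : ℝ) ^ β * Λ) (j : ℕ) :
    ((2 ^ j * m₀ : ℕ) : ℝ) * (L₀ - C₁ * Λ * (m₀ : ℝ) ^ (β - 1) / (2 * (1 - (2 : ℝ) ^ (β - 1))) *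
      (1 - ((2 : ℝ) ^ (β - 1)) ^ j)) ≤ u (2 ^ j * m₀) := by
  set q : ℝ := (2 : ℝ) ^ (β - 1) with hq
  have hq1 : q < 1 := Real.rpow_lt_one_of_one_lt_of_neg (by norm_num) (by linarith)
  have hq0 : 0 < 1 - q := by linarith
  have hm0 : (0 : ℝ) < m₀ := by
    have : (2 : ℝ) ≤ m₀ := by exact_mod_cast hm
    linarith
  induction j with
  | zero =>
    simp only [pow_zero, one_mul, sub_self, mul_zero, sub_zero]
    exact h0
  | succ j ih =>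
    have hN2 : 2 ≤ 2 ^ j * m₀ := hm.trans (Nat.le_mul_of_pos_left _ (by positivity))
    have h1 := hd (2 ^ j * m₀) hN2
    have e1 : 2 * (2 ^ j * m₀) = 2 ^ (j + 1) * m₀ := by ring
    rw [e1] at h1
    have hNp : (0 : ℝ) < ((2 ^ j * m₀ : ℕ) : ℝ) := by positivity
    have e2 : ((2 ^ j * m₀ : ℕ) : ℝ) ^ β = ((2 ^ j * m₀ : ℕ) : ℝ) * ((m₀ : ℝ) ^ (β - 1) * q ^ j) := by
      have e3 : ((2 ^ j * m₀ : ℕ) : ℝ) ^ (β - 1) = (m₀ : ℝ) ^ (β - 1) * q ^ j := by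
        push_cast
        rw [Real.mul_rpow (by positivity) hm0.le, mul_comm]
        congr 1
        rw [hq, ← Real.rpow_natCast, ← Real.rpow_natCast, ← Real.rpow_mul (by norm_num),
          ← Real.rpow_mul (by norm_num), mul_comm]
      rw [← e3, Real.rpow_sub_one hNp.ne']
      field_simp
    rw [e2] at h1
    have e4 : ((2 ^ (j + 1) * m₀ : ℕ) : ℝ) = 2 * ((2 ^ j * m₀ : ℕ) : ℝ) := by
      push_cast
      ring
    rw [e4]
    set Nj : ℝ := ((2 ^ j * m₀ : ℕ) : ℝ) with hNj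
    have e5 : 2 * Nj * (L₀ - C₁ * Λ * (m₀ : ℝ) ^ (β - 1) / (2 * (1 - q)) * (1 - q ^ (j + 1))) =
        2 * (Nj * (L₀ - C₁ * Λ * (m₀ : ℝ) ^ (β - 1) / (2 * (1 - q)) * (1 - q ^ j))) -
          C₁ * (Nj * ((m₀ : ℝ) ^ (β - 1) * q ^ j)) * Λ := by
      rw [pow_succ]
      field_simp
      ring
    rw [e5]
    linarith

/-- the choice of the constants -/
private lemma cmb_num {β C₁ C₂ c₀ : ℝ} (hβ : 0 < β) (hβ1 : β < 1) (hC₁ : 0 < C₁) (hC₂ : 0 < C₂)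
    (hc₀ : 0 < c₀) (hc₀1 : c₀ ≤ 1 / 8) :
    ∃ c A : ℝ, 0 < c ∧ c ≤ 1 ∧ 100 ≤ A ∧ ∀ x κ : ℝ, A ≤ x → Real.exp (-x ^ c) ≤ κ →
      ∃ m₀ : ℕ, 2 ≤ m₀ ∧ (m₀ : ℝ) ≤ x ^ c₀ ∧
        C₂ * x ^ (-c₀) + C₁ * (1 + Real.log x + Real.log (1 / κ)) * (m₀ : ℝ) ^ (β - 1) /
          (2 * (1 - (2 : ℝ) ^ (β - 1))) ≤ x ^ (-c) := by
  set q : ℝ := (2 : ℝ) ^ (β - 1) with hq
  have hq1 : q < 1 := Real.rpow_lt_one_of_one_lt_of_neg (by norm_num) (by linarith)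
  have hq0 : 0 < 1 - q := by linarith
  set c : ℝ := c₀ * (1 - β) / 4 with hc
  have hc0 : 0 < c := by
    have : 0 < c₀ * (1 - β) := mul_pos hc₀ (by linarith)
    rw [hc]
    linarith
  have hcc : 4 * c ≤ c₀ := by
    have : c₀ * (1 - β) ≤ c₀ * 1 := mul_le_mul_of_nonneg_left (by linarith) hc₀.le
    rw [hc]
    linarith
  set C₄ : ℝ := C₁ * (2 + 1 / c) / (1 - q) with hC₄
  have hC₄0 : 0 < C₄ := by positivity
  refine ⟨c, max (max 100 ((C₂ + C₄) ^ (1 / (2 * c)))) ((2 : ℝ) ^ (1 / c₀)), hc0, by linarith,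
    (le_max_left _ _).trans (le_max_left _ _), fun x κ hx' hκ => ?_⟩
  have hx : max 100 ((C₂ + C₄) ^ (1 / (2 * c))) ≤ x := (le_max_left _ _).trans hx'
  have hx2 : (2 : ℝ) ^ (1 / c₀) ≤ x := (le_max_right _ _).trans hx'
  have hx100 : 100 ≤ x := (le_max_left _ _).trans hx
  have hx0 : 0 < x := by linarith
  have hx1 : 1 ≤ x := by linarith
  have hxC : C₂ + C₄ ≤ x ^ (2 * c) := by
    have h1 : (C₂ + C₄) ^ (1 / (2 * c)) ≤ x := (le_max_right _ _).trans hx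
    calc C₂ + C₄ = ((C₂ + C₄) ^ (1 / (2 * c))) ^ (2 * c) := by
          rw [← Real.rpow_mul (by positivity), one_div, inv_mul_cancel₀ (by positivity), Real.rpow_one]
      _ ≤ x ^ (2 * c) := Real.rpow_le_rpow (by positivity) h1 (by positivity)
  have hx4 : 2 ≤ x ^ c₀ := by
    calc (2 : ℝ) = ((2 : ℝ) ^ (1 / c₀)) ^ c₀ := by
          rw [← Real.rpow_mul (by norm_num), one_div, inv_mul_cancel₀ hc₀.ne', Real.rpow_one]
      _ ≤ x ^ c₀ := Real.rpow_le_rpow (by positivity) hx2 hc₀.le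
  set m₀ : ℕ := ⌊x ^ c₀⌋₊ with hm₀
  have hm2 : 2 ≤ m₀ := Nat.le_floor (by exact_mod_cast hx4)
  have hmle : (m₀ : ℝ) ≤ x ^ c₀ := Nat.floor_le (by positivity)
  have hmge : x ^ c₀ / 2 ≤ m₀ := by
    have h1 := Nat.lt_floor_add_one (x ^ c₀)
    rw [← hm₀] at h1
    have h2 : (2 : ℝ) ≤ m₀ := by exact_mod_cast hm2
    linarith
  refine ⟨m₀, hm2, hmle, ?_⟩
  have hxc : 1 ≤ x ^ c := Real.one_le_rpow hx1 hc0.le
  have hκ0 : 0 < κ := (Real.exp_pos _).trans_le hκ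
  have hΛ : 1 + Real.log x + Real.log (1 / κ) ≤ (2 + 1 / c) * x ^ c := by
    have h1 : Real.log x ≤ x ^ c / c := Real.log_le_rpow_div hx0.le hc0
    have h2 : Real.log (1 / κ) ≤ x ^ c := by
      rw [one_div, Real.log_inv]
      have h3 := Real.log_le_log (Real.exp_pos _) hκ
      rw [Real.log_exp] at h3
      linarith
    have h4 : (2 + 1 / c) * x ^ c = x ^ c + x ^ c + x ^ c / c := by ring
    rw [h4]
    linarith
  have hmβ : (m₀ : ℝ) ^ (β - 1) ≤ 2 * x ^ (-(4 * c)) := by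
    have h1 : (0 : ℝ) < x ^ c₀ / 2 := by positivity
    calc (m₀ : ℝ) ^ (β - 1) ≤ (x ^ c₀ / 2) ^ (β - 1) :=
          Real.rpow_le_rpow_of_nonpos h1 hmge (by linarith)
      _ = (1 / 2 : ℝ) ^ (β - 1) * x ^ (-(4 * c)) := by
          rw [div_eq_mul_one_div, Real.mul_rpow (by positivity) (by norm_num), ← Real.rpow_mul hx0.le, mul_comm]
          congr 2
          rw [hc]
          ring
      _ ≤ 2 * x ^ (-(4 * c)) := by
          refine mul_le_mul_of_nonneg_right ?_ (by positivity)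
          rw [one_div, Real.inv_rpow (by norm_num), ← Real.rpow_neg (by norm_num)]
          calc (2 : ℝ) ^ (-(β - 1)) ≤ (2 : ℝ) ^ (1 : ℝ) :=
                Real.rpow_le_rpow_of_exponent_le (by norm_num) (by linarith)
            _ = 2 := Real.rpow_one 2
  have hprod : C₁ * (1 + Real.log x + Real.log (1 / κ)) * (m₀ : ℝ) ^ (β - 1) / (2 * (1 - q)) ≤
      C₄ * x ^ (-(3 * c)) := by
    have h1 : C₁ * (1 + Real.log x + Real.log (1 / κ)) * (m₀ : ℝ) ^ (β - 1) ≤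
        C₁ * ((2 + 1 / c) * x ^ c) * (2 * x ^ (-(4 * c))) := by
      have h2 : C₁ * (1 + Real.log x + Real.log (1 / κ)) ≤ C₁ * ((2 + 1 / c) * x ^ c) :=
        mul_le_mul_of_nonneg_left hΛ hC₁.le
      exact mul_le_mul h2 hmβ (by positivity) (by positivity)
    have e1 : x ^ (-(3 * c)) = x ^ c * x ^ (-(4 * c)) := by
      rw [← Real.rpow_add hx0]
      congr 1
      ring
    calc C₁ * (1 + Real.log x + Real.log (1 / κ)) * (m₀ : ℝ) ^ (β - 1) / (2 * (1 - q)) ≤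
          C₁ * ((2 + 1 / c) * x ^ c) * (2 * x ^ (-(4 * c))) / (2 * (1 - q)) :=
          div_le_div_of_nonneg_right h1 (by positivity)
      _ = C₄ * x ^ (-(3 * c)) := by
          rw [e1, hC₄]
          field_simp
  have h3 : C₂ * x ^ (-c₀) ≤ C₂ * x ^ (-(3 * c)) :=
    mul_le_mul_of_nonneg_left (Real.rpow_le_rpow_of_exponent_le hx1 (by linarith)) hC₂.le
  have h4 : (C₂ + C₄) * x ^ (-(3 * c)) ≤ x ^ (-c) := by
    have e1 : x ^ (-c) = x ^ (2 * c) * x ^ (-(3 * c)) := by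
      rw [← Real.rpow_add hx0]
      congr 1
      ring
    rw [e1]
    exact mul_le_mul_of_nonneg_right hxC (by positivity)
  linarith

theorem main1 {s : ℝ} (hs : 0 < s) (hs1 : s < 1) {B b : ℝ} (hB : 1 ≤ B) (hb : 0 < b) (hb1 : b ≤ 1) :
    ∃ c A : ℝ, 0 < c ∧ c ≤ 1 ∧ 100 ≤ A ∧ ∀ d : Dat, d.Ok → d.s = s → d.Nd B b → A ≤ |d.a| →
      Real.exp (-|d.a| ^ c) ≤ d.κ → ∀ n : ℕ,
      n * ((∫ ω, Hi d ω ∂PP) - |d.a| ^ (-c)) ≤ Em d n := by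
  obtain ⟨β, C₁, hβ, hβ1, hC₁, hdbl⟩ := dbl hs hs1
  obtain ⟨c₀, C₂, hc₀, hc₀1, hC₂, hinit⟩ := init hB hb hb1
  obtain ⟨c, A, hc, hc16, hA, hnum⟩ := cmb_num hβ hβ1 hC₁ hC₂ hc₀ hc₀1
  refine ⟨c, A, hc, hc16, hA, fun d hd hds hnd hAd hκ n => ?_⟩
  rcases Nat.eq_zero_or_pos n with hn | hn
  · subst hn
    rw [Nat.cast_zero, zero_mul]
    exact (Em_bd hd 0).1
  obtain ⟨m₀, hm2, hmle, hfin⟩ := hnum |d.a| d.κ hAd hκ
  have hrec := cmb_rec (u := Em d) (β := β) (C₁ := C₁) (Λ := Lam d)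
    (L₀ := (∫ ω, Hi d ω ∂PP) - C₂ * |d.a| ^ (-c₀)) hβ1 hm2 (hinit d hd hnd m₀ hmle)
    (fun m hm => hdbl d hd hds m hm)
  have hsub : Subadditive (Em d) := fun m n => Em_add_le hd m n
  by_contra hcon
  rw [not_le] at hcon
  have hn0 : (0 : ℝ) < n := by exact_mod_cast hn
  have hlt : Em d n / n < (∫ ω, Hi d ω ∂PP) - |d.a| ^ (-c) := by
    rw [div_lt_iff₀ hn0]
    linarith
  have hev := hsub.eventually_div_lt_of_div_lt hn.ne' hlt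
  rw [Filter.eventually_atTop] at hev
  obtain ⟨p, hp⟩ := hev
  have hpN : p ≤ 2 ^ p * m₀ := by
    calc p ≤ 2 ^ p := Nat.lt_two_pow_self.le
      _ ≤ 2 ^ p * m₀ := Nat.le_mul_of_pos_right _ (by omega)
  have h1 := hp (2 ^ p * m₀) hpN
  have h2 := hrec p
  have hq1 : (2 : ℝ) ^ (β - 1) < 1 := Real.rpow_lt_one_of_one_lt_of_neg (by norm_num) (by linarith)
  have hq0 : 0 < (2 : ℝ) ^ (β - 1) := Real.rpow_pos_of_pos (by norm_num) _
  have hNp : (0 : ℝ) < ((2 ^ p * m₀ : ℕ) : ℝ) := by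
    have : 0 < 2 ^ p * m₀ := Nat.mul_pos (by positivity) (by omega)
    exact_mod_cast this
  rw [div_lt_iff₀ hNp] at h1
  have hΛ : 0 ≤ Lam d := by
    have h3 := hd.ha
    have h4 : 0 ≤ Real.log |d.a| := Real.log_nonneg (by linarith)
    have h5 : 0 ≤ Real.log (1 / d.κ) := by
      refine Real.log_nonneg ?_
      rw [le_div_iff₀ hd.hκ]
      linarith [hd.hκ1]
    unfold Lam
    linarith
  have hD : 0 ≤ C₁ * Lam d * (m₀ : ℝ) ^ (β - 1) / (2 * (1 - (2 : ℝ) ^ (β - 1))) :=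
    div_nonneg (by positivity) (by linarith)
  have h6 : (∫ ω, Hi d ω ∂PP) - |d.a| ^ (-c) ≤
      (∫ ω, Hi d ω ∂PP) - C₂ * |d.a| ^ (-c₀) - C₁ * Lam d * (m₀ : ℝ) ^ (β - 1) /
        (2 * (1 - (2 : ℝ) ^ (β - 1))) * (1 - ((2 : ℝ) ^ (β - 1)) ^ p) := by
    have h7 : C₁ * Lam d * (m₀ : ℝ) ^ (β - 1) / (2 * (1 - (2 : ℝ) ^ (β - 1))) *
        (1 - ((2 : ℝ) ^ (β - 1)) ^ p) ≤ C₁ * Lam d * (m₀ : ℝ) ^ (β - 1) / (2 * (1 - (2 : ℝ) ^ (β - 1))) := by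
      refine mul_le_of_le_one_right hD ?_
      have : 0 ≤ ((2 : ℝ) ^ (β - 1)) ^ p := by positivity
      linarith
    have h8 : C₂ * |d.a| ^ (-c₀) + C₁ * Lam d * (m₀ : ℝ) ^ (β - 1) /
        (2 * (1 - (2 : ℝ) ^ (β - 1))) ≤ |d.a| ^ (-c) := hfin
    linarith
  have h9 := mul_le_mul_of_nonneg_left h6 hNp.le
  linarith

theorem fix {s : ℝ} (hs : 0 < s) (hs1 : s < 1) {B b : ℝ} (hB : 1 ≤ B) (hb : 0 < b) (hb1 : b ≤ 1) :
    ∃ c A : ℝ, 0 < c ∧ c ≤ 1 ∧ 100 ≤ A ∧ ∀ d : Dat, d.Ok → d.s = s → d.Nd B b → A ≤ |d.a| →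
      Real.exp (-|d.a| ^ c) ≤ d.κ → ∫ ω, (Hi d ω - Lw d ω) ∂PP ≤ |d.a| ^ (-c) := by
  obtain ⟨c, A, hc, hc1, hA, hmain⟩ := main1 hs hs1 hB hb hb1
  refine ⟨c, A, hc, hc1, hA, fun d hd hds hnd hAd hκ => ?_⟩
  have hLi : Integrable (Lw d) PP := by
    refine Integrable.of_bound (meas_Lw hd).aestronglyMeasurable (3 * Real.log |d.a|)
      (Filter.Eventually.of_forall fun ω => ?_)
    have h1 := Lw_bd hd ω
    rw [Real.norm_of_nonneg h1.1]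
    exact h1.2
  have hHi : Integrable (Hi d) PP := by
    refine Integrable.of_bound (meas_Hi hd).aestronglyMeasurable (3 * Real.log |d.a|)
      (Filter.Eventually.of_forall fun ω => ?_)
    have h1 := Hi_bd hd ω
    rw [Real.norm_of_nonneg h1.1]
    exact h1.2
  have hlow : (∫ ω, Hi d ω ∂PP) - |d.a| ^ (-c) ≤ ∫ ω, Lw d ω ∂PP := by
    refine ge_of_tendsto (Lw_int hd) ?_
    filter_upwards [eventually_gt_atTop 0] with n hn
    have hn0 : (0 : ℝ) < n := by exact_mod_cast hn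
    rw [le_div_iff₀ hn0, mul_comm]
    exact hmain d hd hds hnd hAd hκ n
  rw [integral_sub hHi hLi]
  linarith

end Pool.Agent.Helper95.PV
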