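import Pool.Agent.Helper95.PV.Kz
import Pool.Agent.Helper18.PW.Sep

/-! Block PV-SEP: the mean of `-log` of the separation: the abstract theorem `Pool.Agent.Helper18.PW.sep_int` for the random standard map. -/

set_option autoImplicit false
open MeasureTheory Real Set
open scoped ENNReal

namespace Pool.Agent.Helper95.PV

open Pool.Agent.Helper18.UC (T2 rep toT nn)
open Pool.Agent.Helper18.FD (NN rr pr cl uu lm Bump k1 k2 NN_pos NN_ge)

theorem tw_eq (d : Dat) (ω : Om) (z : T2) : Pool.Agent.Helper18.PV.tw (Ks d) ω z = Tw d ω z := by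
  refine Prod.ext ?_ rfl
  show z.1 + z.1 - z.2 + (cc d ω z.1 - (z.1 + z.1)) = cc d ω z.1 - z.2
  abel

theorem wd_eq (d : Dat) (j : ℕ) (p : Pt) : Pool.Agent.Helper18.PV.wd (Ks d) p.1 p.2 (j + 1) = px d j p := by
  obtain ⟨ω, z⟩ := p
  have h1 : Pool.Agent.Helper18.PV.tw (Ks d) ω = Tw d ω := funext fun z => tw_eq d ω z
  have h2 := Pool.Agent.Helper18.PV.iter_eq (K := Ks d) ω z j
  unfold px
  rw [sk_iter, ← h1, h2]

theorem sep_int {s : ℝ} (hs : 0 < s) (hs1 : s < 1) :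
    ∃ β C : ℝ, 0 < β ∧ β < 1 ∧ 0 < C ∧ ∀ d : Dat, d.Ok → d.s = s → ∀ k n : ℕ, k ≤ n → 1 ≤ n →
      ∫⁻ p, lm (sepd d k n p) ∂mu ≤ ENNReal.ofReal (C * (n : ℝ) ^ β * Lam d) := by
  obtain ⟨β, C, hβ, hβ1, hC, H⟩ := Pool.Agent.Helper18.PW.sep_int Ix hs hs1
  refine ⟨β, C * 3, hβ, hβ1, by positivity, fun d hd hds k n hk hn => ?_⟩
  have hok := Kz_ok hd
  rw [hds] at hok
  have h1 := H (Kz d) (2 / d.κ) hok k n hk hn
  have h2 : ∀ p : Pt, Pool.Agent.Helper18.PV.sepw (Ks d) k n p = sepd d k n p := by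
    intro p
    unfold Pool.Agent.Helper18.PV.sepw sepd
    simp only [wd_eq]
  have h3 : ∫⁻ p, lm (sepd d k n p) ∂mu =
      ∫⁻ p, lm (Pool.Agent.Helper18.PV.sepw (Ks d) k n p) ∂(Pool.Agent.Helper18.PV.mu Ix) := by
    refine lintegral_congr fun p => ?_
    rw [h2]
  rw [h3]
  refine h1.trans (ENNReal.ofReal_le_ofReal ?_)
  have hn1 : (0 : ℝ) < n := by exact_mod_cast hn
  have h4 : 0 < C * (n : ℝ) ^ β := by positivity
  have h5 : 1 + 2 * Real.log (2 / d.κ) ≤ 3 * Lam d := by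
    obtain ⟨_, h6, h7⟩ := one_le_Lam hd
    have h8 : Real.log (2 / d.κ) = Real.log 2 + Real.log (1 / d.κ) := by
      rw [← Real.log_mul (by norm_num) (by have := hd.hκ; positivity)]
      congr 1
      ring
    have h9 := Real.log_two_lt_d9
    rw [h8]
    linarith
  calc C * (n : ℝ) ^ β * (1 + 2 * Real.log (2 / d.κ)) ≤ C * (n : ℝ) ^ β * (3 * Lam d) := by gcongr
    _ = C * 3 * (n : ℝ) ^ β * Lam d := by ring

end Pool.Agent.Helper95.PV
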