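import Pool.Agent.Helper95.PV.Dec
import Pool.Agent.Helper18.FD.Core

/-! Block PV-WEG: the Wegner type estimate. Port of `FD/Weg.lean` (cells `c : ℕ`, `c ∈ range (NN l)`, `px`, `tc`, `line`, `iter_out`, `res2` of this project; `core2`, `lm_anti`, `meas_lm` of FD). -/

set_option autoImplicit false
open MeasureTheory Real Set
open scoped ENNReal

namespace Pool.Agent.Helper95.PV

open Pool.Agent.Helper18.UC (T2 rep toT nn)
open Pool.Agent.Helper18.FD (NN rr pr cl uu lm Bump k1 k2 NN_pos NN_ge cl_of_mem core2 lm_anti meas_lm)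

variable {d : Dat}

private noncomputable def LL52 (d : Dat) (l : ℕ) : ℝ :=
  Real.log (1 / d.κ) + (1 + d.s) * Real.log (NN l)

private noncomputable def ff52 (d : Dat) (k n l : ℕ) (Φ : Pt → ℝ) : Pt → ℝ≥0∞ :=
  Set.indicator {p | far d l k n p} fun p => lm (Φ p) - ENNReal.ofReal (LL52 d l)

private def Hs52 (d : Dat) (k l : ℕ) (z : T2) (c : ℕ) : Set Om :=
  {ω | cel l (px d k (ω, z)) = c ∧
    ∀ j < k, 2 / (NN l : ℝ) ≤ dist (px d j (ω, z)) (px d k (ω, z))}

private theorem log_kappa52 (hd : d.Ok) : 0 ≤ Real.log (1 / d.κ) := by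
  apply Real.log_nonneg
  rw [le_div_iff₀ hd.hκ]
  have := hd.hκ1
  linarith

private theorem LL52_nonneg (hd : d.Ok) (l : ℕ) : 0 ≤ LL52 d l := by
  have h1 := log_kappa52 hd
  have h2 : 0 ≤ Real.log (NN l) := Real.log_nonneg (by linarith [NN_ge l])
  have h3 := hd.hs
  unfold LL52
  nlinarith

private theorem ff52_meas (hd : d.Ok) (k n l : ℕ) {Φ : Pt → ℝ} (hΦ : Measurable Φ) :
    Measurable (ff52 d k n l Φ) := by
  unfold ff52
  exact ((meas_lm.comp hΦ).sub measurable_const).indicator (far_meas hd l k n)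

private theorem Hs52_meas (hd : d.Ok) (k l : ℕ) (z : T2) (c : ℕ) :
    MeasurableSet (Hs52 d k l z c) := by
  have hp : ∀ j, Measurable fun ω : Om => px d j (ω, z) := fun j =>
    (meas_px hd j).comp (measurable_id.prodMk measurable_const)
  have h1 : MeasurableSet {ω : Om | cel l (px d k (ω, z)) = c} :=
    ((meas_cel l).comp (hp k)) (measurableSet_singleton c)
  have h2 : MeasurableSet {ω : Om | ∀ j < k,
      2 / (NN l : ℝ) ≤ dist (px d j (ω, z)) (px d k (ω, z))} := by
    have h3 : {ω : Om | ∀ j < k, 2 / (NN l : ℝ) ≤ dist (px d j (ω, z)) (px d k (ω, z))} =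
        ⋂ j : ℕ, ⋂ _ : j < k,
          {ω : Om | 2 / (NN l : ℝ) ≤ dist (px d j (ω, z)) (px d k (ω, z))} := by
      ext ω
      simp only [Set.mem_ofPred_eq, Set.mem_iInter]
    rw [h3]
    exact MeasurableSet.iInter fun j => MeasurableSet.iInter fun _ =>
      measurableSet_le measurable_const ((hp j).dist (hp k))
  exact h1.inter h2

private theorem upd_false52 (l : ℕ) (c : ℕ) (u v : ℝ) (ω : Om) :
    upd l c u v ω (l, c, false) = u := by
  unfold upd
  rw [Function.update_of_ne (by simp), Function.update_self]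

private theorem upd_true52 (l : ℕ) (c : ℕ) (u v : ℝ) (ω : Om) :
    upd l c u v ω (l, c, true) = v := by
  unfold upd
  rw [Function.update_self]

private theorem upd_upd52 (l : ℕ) (c : ℕ) (u v u' v' : ℝ) (ω : Om) :
    upd l c u v (upd l c u' v' ω) = upd l c u v ω := by
  funext i
  unfold upd
  by_cases h1 : i = (l, c, true)
  · rw [h1, Function.update_self, Function.update_self]
  · rw [Function.update_of_ne h1, Function.update_of_ne h1]
    by_cases h2 : i = (l, c, false)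
    · rw [h2, Function.update_self, Function.update_self]
    · rw [Function.update_of_ne h2, Function.update_of_ne h2, Function.update_of_ne h1,
        Function.update_of_ne h2]

private theorem exp_LL52 (hd : d.Ok) (l : ℕ) :
    2 * Real.exp (-LL52 d l) / (d.κ * (NN l : ℝ) ^ (-d.s)) = 2 / NN l := by
  have hN := NN_pos l
  have hκ := hd.hκ
  have h1 : Real.exp (-LL52 d l) = d.κ * ((NN l : ℝ) ^ (-d.s) * (NN l : ℝ)⁻¹) := by
    have e : -LL52 d l = Real.log d.κ + (Real.log (NN l) * (-d.s) + - Real.log (NN l)) := by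
      unfold LL52
      rw [one_div, Real.log_inv]
      ring
    rw [e, Real.exp_add, Real.exp_add, Real.exp_log hκ, Real.exp_neg, Real.exp_log hN,
      Real.rpow_def_of_pos hN]
  rw [h1]
  have h2 : (NN l : ℝ) ^ (-d.s) ≠ 0 := (Real.rpow_pos_of_pos hN _).ne'
  have h3 := hκ.ne'
  have h4 := hN.ne'
  field_simp

private theorem fiber52 (hd : d.Ok) {k n : ℕ} {Φ : Pt → ℝ} (hΦ : Measurable Φ)
    (h : ∀ (l : ℕ) (ω : Om) (z : T2) (c : ℕ), far d l k n (ω, z) → c = cel l (px d k (ω, z)) →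
      ∃ y : ℝ, ∀ u ∈ Icc (-1 : ℝ) 1, ∀ v ∈ Icc (-1 : ℝ) 1,
        u + v * tc l c (px d k (ω, z)) =
          cl (ω (l, c, false)) + cl (ω (l, c, true)) * tc l c (px d k (ω, z)) →
        |d.κ * (NN l : ℝ) ^ (-d.s) * v - y| ≤ Φ (upd l c u v ω, z))
    (l : ℕ) (z : T2) (c : ℕ) (ω : Om) :
    ∫⁻ u, ∫⁻ v, (Hs52 d k l z c).indicator (fun ω => ff52 d k n l Φ (ω, z))
        (upd l c u v ω) ∂uu ∂uu ≤
      ENNReal.ofReal (2 / NN l) *
        ∫⁻ u, ∫⁻ v, (Hs52 d k l z c).indicator (fun _ => (1 : ℝ≥0∞)) (upd l c u v ω) ∂uu ∂uu := by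
  by_cases hex : ∃ u' v', upd l c u' v' ω ∈ Hs52 d k l z c
  · obtain ⟨u', v', hH⟩ := hex
    have hw : ∀ u v, upd l c u v ω = upd l c u v (upd l c u' v' ω) := fun u v =>
      (upd_upd52 l c u v u' v' ω).symm
    generalize hω' : upd l c u' v' ω = ω' at hH hw
    have hc : c < NN l := by
      rw [← hH.1]
      exact cel_lt l _
    have hin : inn l c (px d k (ω', z)) := by
      have := inn_cel l (px d k (ω', z))
      rwa [hH.1] at this
    have hN := NN_pos l
    have hout : ∀ j < k, out l c (px d j (ω', z)) := by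
      intro j hj
      refine out_of_far hin (le_trans ?_ (hH.2 j hj))
      rw [div_le_div_iff₀ (by positivity) hN]
      nlinarith
    have hpk : ∀ u v, px d k (upd l c u v ω, z) = px d k (ω', z) := by
      intro u v
      rw [hw]
      exact (iter_out hd hc u v hout).2.1 k le_rfl
    have hpj : ∀ u v, ∀ j < k, px d j (upd l c u v ω, z) = px d j (ω', z) := by
      intro u v j hj
      rw [hw]
      exact (iter_out hd hc u v hout).2.1 j hj.le
    have hHall : ∀ u v, upd l c u v ω ∈ Hs52 d k l z c := by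
      intro u v
      refine ⟨?_, fun j hj => ?_⟩
      · rw [hpk]
        exact hH.1
      · rw [hpk, hpj u v j hj]
        exact hH.2 j hj
    have e1 : ∀ u v, (Hs52 d k l z c).indicator (fun ω => ff52 d k n l Φ (ω, z))
        (upd l c u v ω) = ff52 d k n l Φ (upd l c u v ω, z) := fun u v =>
      Set.indicator_of_mem (hHall u v) _
    have e2 : ∀ u v, (Hs52 d k l z c).indicator (fun _ => (1 : ℝ≥0∞)) (upd l c u v ω) = 1 :=
      fun u v => Set.indicator_of_mem (hHall u v) _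
    simp only [e1, e2]
    rw [lintegral_one, measure_univ, lintegral_one, measure_univ, mul_one]
    have hA : 0 < d.κ * (NN l : ℝ) ^ (-d.s) := mul_pos hd.hκ (Real.rpow_pos_of_pos hN _)
    have hF : Measurable fun q : ℝ × ℝ => ff52 d k n l Φ (upd l c q.1 q.2 ω, z) := by
      have hm : Measurable fun q : ℝ × ℝ => upd l c q.1 q.2 ω :=
        (measurable_upd l c).comp (measurable_const.prodMk measurable_id)
      exact (ff52_meas hd k n l hΦ).comp (hm.prodMk measurable_const)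
    refine (core2 (A := d.κ * (NN l : ℝ) ^ (-d.s)) (Λ := LL52 d l)
      (t := tc l c (px d k (ω', z))) hA (LL52_nonneg hd l) hin
      (F := fun u v => ff52 d k n l Φ (upd l c u v ω, z)) hF ?_).trans ?_
    · intro s₀
      by_cases hl : ∃ u₁ ∈ Icc (-1 : ℝ) 1, ∃ v₁ ∈ Icc (-1 : ℝ) 1,
          u₁ + v₁ * tc l c (px d k (ω', z)) = s₀ ∧ far d l k n (upd l c u₁ v₁ ω, z)
      · obtain ⟨u₁, hu₁, v₁, hv₁, hs₀, hfar⟩ := hl
        obtain ⟨y, hy⟩ := h l (upd l c u₁ v₁ ω) z c hfar (by rw [hpk, hH.1])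
        refine ⟨y, fun u hu v hv huv => ?_⟩
        have h1 := hy u hu v hv (by
          rw [hpk, upd_false52, upd_true52, cl_of_mem hu₁, cl_of_mem hv₁, huv, hs₀])
        rw [upd_upd52] at h1
        refine (Set.indicator_le_self' (fun _ _ => zero_le) _).trans ?_
        exact tsub_le_tsub_right (lm_anti h1) _
      · refine ⟨0, fun u hu v hv huv => ?_⟩
        have h1 : ¬ far d l k n (upd l c u v ω, z) := fun hfar => hl ⟨u, hu, v, hv, huv, hfar⟩
        have h2 : ff52 d k n l Φ (upd l c u v ω, z) = 0 := Set.indicator_of_notMem h1 _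
        rw [h2]
        exact zero_le
    · rw [exp_LL52 hd l]
  · push Not at hex
    have e1 : ∀ u v, (Hs52 d k l z c).indicator (fun ω => ff52 d k n l Φ (ω, z))
        (upd l c u v ω) = 0 := fun u v => Set.indicator_of_notMem (hex u v) _
    simp only [e1, lintegral_zero]
    exact zero_le

private theorem int_z52 (hd : d.Ok) {k n : ℕ} (hk : k ≤ n) {Φ : Pt → ℝ} (hΦ : Measurable Φ)
    (h : ∀ (l : ℕ) (ω : Om) (z : T2) (c : ℕ), far d l k n (ω, z) → c = cel l (px d k (ω, z)) →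
      ∃ y : ℝ, ∀ u ∈ Icc (-1 : ℝ) 1, ∀ v ∈ Icc (-1 : ℝ) 1,
        u + v * tc l c (px d k (ω, z)) =
          cl (ω (l, c, false)) + cl (ω (l, c, true)) * tc l c (px d k (ω, z)) →
        |d.κ * (NN l : ℝ) ^ (-d.s) * v - y| ≤ Φ (upd l c u v ω, z))
    (l : ℕ) (z : T2) :
    ∫⁻ ω, ff52 d k n l Φ (ω, z) ∂PP ≤ ENNReal.ofReal (2 / NN l) := by
  have hfm : Measurable fun ω : Om => ff52 d k n l Φ (ω, z) :=
    (ff52_meas hd k n l hΦ).comp (measurable_id.prodMk measurable_const)
  have h1 : ∀ ω, ff52 d k n l Φ (ω, z) ≤ ∑ c ∈ Finset.range (NN l),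
      (Hs52 d k l z c).indicator (fun ω => ff52 d k n l Φ (ω, z)) ω := by
    intro ω
    by_cases hf : far d l k n (ω, z)
    · have hc : cel l (px d k (ω, z)) ∈ Finset.range (NN l) := by
        rw [Finset.mem_range]
        exact cel_lt l _
      have hH : ω ∈ Hs52 d k l z (cel l (px d k (ω, z))) :=
        ⟨rfl, fun j hj => hf j (by omega) (by omega)⟩
      refine le_trans (le_of_eq ?_) (Finset.single_le_sum (fun _ _ => zero_le) hc)
      rw [Set.indicator_of_mem hH]
    · have h2 : ff52 d k n l Φ (ω, z) = 0 := Set.indicator_of_notMem hf _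
      rw [h2]
      exact zero_le
  have h2 : ∀ c, ∫⁻ ω, (Hs52 d k l z c).indicator (fun ω => ff52 d k n l Φ (ω, z)) ω ∂PP ≤
      ENNReal.ofReal (2 / NN l) * PP (Hs52 d k l z c) := by
    intro c
    rw [res2 l c (hfm.indicator (Hs52_meas hd k l z c))]
    refine (lintegral_mono fun ω => fiber52 hd hΦ h l z c ω).trans ?_
    rw [lintegral_const_mul' _ _ ENNReal.ofReal_ne_top,
      ← res2 l c (measurable_const.indicator (Hs52_meas hd k l z c)),
      lintegral_indicator_const (Hs52_meas hd k l z c) 1, one_mul]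
  have h3 : ∑ c ∈ Finset.range (NN l), PP (Hs52 d k l z c) ≤ 1 := by
    rw [← measure_biUnion_finset]
    · exact prob_le_one
    · intro c _ c' _ hcc
      rw [Function.onFun, Set.disjoint_left]
      intro ω hω hω'
      exact hcc (hω.1.symm.trans hω'.1)
    · intro c _
      exact Hs52_meas hd k l z c
  calc ∫⁻ ω, ff52 d k n l Φ (ω, z) ∂PP
      ≤ ∫⁻ ω, ∑ c ∈ Finset.range (NN l),
          (Hs52 d k l z c).indicator (fun ω => ff52 d k n l Φ (ω, z)) ω ∂PP :=
        lintegral_mono h1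
    _ = ∑ c ∈ Finset.range (NN l),
          ∫⁻ ω, (Hs52 d k l z c).indicator (fun ω => ff52 d k n l Φ (ω, z)) ω ∂PP :=
        lintegral_finsetSum _ fun c _ => hfm.indicator (Hs52_meas hd k l z c)
    _ ≤ ∑ c ∈ Finset.range (NN l),
          ENNReal.ofReal (2 / NN l) * PP (Hs52 d k l z c) :=
        Finset.sum_le_sum fun c _ => h2 c
    _ = ENNReal.ofReal (2 / NN l) *
          ∑ c ∈ Finset.range (NN l), PP (Hs52 d k l z c) :=
        (Finset.mul_sum _ _ _).symm
    _ ≤ ENNReal.ofReal (2 / NN l) * 1 := mul_le_mul_right h3 _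
    _ = ENNReal.ofReal (2 / NN l) := mul_one _

private theorem int_ff52 (hd : d.Ok) {k n : ℕ} (hk : k ≤ n) {Φ : Pt → ℝ} (hΦ : Measurable Φ)
    (h : ∀ (l : ℕ) (ω : Om) (z : T2) (c : ℕ), far d l k n (ω, z) → c = cel l (px d k (ω, z)) →
      ∃ y : ℝ, ∀ u ∈ Icc (-1 : ℝ) 1, ∀ v ∈ Icc (-1 : ℝ) 1,
        u + v * tc l c (px d k (ω, z)) =
          cl (ω (l, c, false)) + cl (ω (l, c, true)) * tc l c (px d k (ω, z)) →
        |d.κ * (NN l : ℝ) ^ (-d.s) * v - y| ≤ Φ (upd l c u v ω, z))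
    (l : ℕ) : ∫⁻ p, ff52 d k n l Φ p ∂mu ≤ ENNReal.ofReal (2 / NN l) := by
  unfold mu
  rw [lintegral_prod_symm _ (ff52_meas hd k n l hΦ).aemeasurable]
  refine (lintegral_mono fun z => int_z52 hd hk hΦ h l z).trans ?_
  rw [lintegral_const, measure_univ, mul_one]

private theorem point52 (hd : d.Ok) {k n : ℕ} (hk : k ≤ n) (Φ : Pt → ℝ) (p : Pt)
    (hp : 0 < sepd d k n p) :
    lm (Φ p) ≤ ENNReal.ofReal (Real.log (1 / d.κ) + 5) +
      ENNReal.ofReal (1 + d.s) * lm (sepd d k n p) + ∑' l, ff52 d k n l Φ p := by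
  classical
  have hD1 : sepd d k n p ≤ 1 := by
    unfold sepd
    refine (Finset.inf'_le _ (Finset.mem_range.2 (Nat.lt_succ_of_le hk))).trans ?_
    rw [if_pos rfl]
  have hex : ∃ l : ℕ, 2 / (NN l : ℝ) ≤ sepd d k n p := by
    obtain ⟨l, hl⟩ := pow_unbounded_of_one_lt (2 / sepd d k n p) (one_lt_two : (1 : ℝ) < 2)
    refine ⟨l, ?_⟩
    rw [div_le_iff₀ (NN_pos l)]
    rw [div_lt_iff₀ hp] at hl
    have h1 : (2 : ℝ) ^ l ≤ NN l := by
      unfold NN
      push_cast
      exact pow_le_pow_right₀ one_le_two (by omega)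
    nlinarith
  obtain ⟨l, hl, hmin⟩ : ∃ l : ℕ, 2 / (NN l : ℝ) ≤ sepd d k n p ∧
      ∀ m < l, ¬ 2 / (NN m : ℝ) ≤ sepd d k n p :=
    ⟨Nat.find hex, Nat.find_spec hex, fun m hm => Nat.find_min hex hm⟩
  have hfar : far d l k n p := by
    intro j hj hjk
    refine hl.trans ?_
    unfold sepd
    refine (Finset.inf'_le _ (Finset.mem_range.2 (Nat.lt_succ_of_le hj))).trans ?_
    rw [if_neg hjk]
  have hlm : lm (sepd d k n p) = ENNReal.ofReal (-Real.log (sepd d k n p)) := by
    unfold lm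
    rw [if_neg (not_le.2 hp)]
  have hlog0 : 0 ≤ -Real.log (sepd d k n p) := by
    have := Real.log_nonpos hp.le hD1
    linarith
  have hlog8 : Real.log 8 ≤ 5 / 2 := by
    have h1 : (8 : ℝ) = 2 ^ 3 := by norm_num
    rw [h1, Real.log_pow]
    have := Real.log_two_lt_d9
    push_cast
    linarith
  have hlog8' : 0 ≤ Real.log 8 := Real.log_nonneg (by norm_num)
  have hNN : Real.log (NN l) ≤ Real.log 8 + -Real.log (sepd d k n p) := by
    rcases Nat.eq_zero_or_pos l with h0 | h0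
    · subst h0
      have h1 : ((NN 0 : ℕ) : ℝ) = 8 := by
        unfold NN
        norm_num
      rw [h1]
      linarith
    · obtain ⟨m, rfl⟩ := Nat.exists_eq_succ_of_ne_zero (Nat.pos_iff_ne_zero.1 h0)
      have h1 := hmin m (Nat.lt_succ_self m)
      rw [not_le, lt_div_iff₀ (NN_pos m)] at h1
      have h2 : ((NN (m + 1) : ℕ) : ℝ) = 2 * NN m := by
        unfold NN
        push_cast
        ring
      have h3 : Real.log ((NN (m + 1) : ℕ) : ℝ) + Real.log (sepd d k n p) ≤ Real.log 8 := by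
        rw [← Real.log_mul (NN_pos _).ne' hp.ne']
        apply Real.log_le_log (mul_pos (NN_pos _) hp)
        rw [h2]
        nlinarith
      have h4 : Real.log ((NN m.succ : ℕ) : ℝ) = Real.log ((NN (m + 1) : ℕ) : ℝ) := rfl
      rw [h4]
      linarith
  have hs := hd.hs
  have hs1 := hd.hs1
  have hκ0 := log_kappa52 hd
  have hLL : LL52 d l ≤ (Real.log (1 / d.κ) + 5) + (1 + d.s) * -Real.log (sepd d k n p) := by
    unfold LL52
    nlinarith
  have h1 : ENNReal.ofReal (LL52 d l) ≤ ENNReal.ofReal (Real.log (1 / d.κ) + 5) +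
      ENNReal.ofReal (1 + d.s) * lm (sepd d k n p) := by
    rw [hlm, ← ENNReal.ofReal_mul (by linarith), ← ENNReal.ofReal_add (by linarith)
      (mul_nonneg (by linarith) hlog0)]
    exact ENNReal.ofReal_le_ofReal hLL
  have h2 : ff52 d k n l Φ p = lm (Φ p) - ENNReal.ofReal (LL52 d l) :=
    Set.indicator_of_mem (show p ∈ {p | far d l k n p} from hfar) _
  have h3 : ff52 d k n l Φ p ≤ ∑' l, ff52 d k n l Φ p :=
    ENNReal.le_tsum (f := fun l => ff52 d k n l Φ p) l
  calc lm (Φ p) ≤ ENNReal.ofReal (LL52 d l) + (lm (Φ p) - ENNReal.ofReal (LL52 d l)) :=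
        le_add_tsub
    _ ≤ _ := by
        rw [← h2]
        exact add_le_add h1 h3

private theorem sum52 : ∑' l : ℕ, ENNReal.ofReal (2 / (NN l : ℝ)) ≤ ENNReal.ofReal (1 / 2) := by
  have e : ∀ l : ℕ, 2 / (NN l : ℝ) = 1 / 4 * (1 / 2) ^ l := by
    intro l
    unfold NN
    push_cast
    rw [pow_add, one_div_pow]
    field_simp
    norm_num
  simp only [e]
  rw [← ENNReal.ofReal_tsum_of_nonneg (fun l => by positivity)
    (summable_geometric_two.mul_left _)]
  apply ENNReal.ofReal_le_ofReal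
  rw [tsum_mul_left, tsum_geometric_two]
  norm_num

theorem weg (hd : d.Ok) {k n : ℕ} (hk : k ≤ n) {Φ : Pt → ℝ} (hΦ : Measurable Φ)
    (h : ∀ (l : ℕ) (ω : Om) (z : T2) (c : ℕ), far d l k n (ω, z) → c = cel l (px d k (ω, z)) →
      ∃ y : ℝ, ∀ u ∈ Icc (-1 : ℝ) 1, ∀ v ∈ Icc (-1 : ℝ) 1,
        u + v * tc l c (px d k (ω, z)) =
          cl (ω (l, c, false)) + cl (ω (l, c, true)) * tc l c (px d k (ω, z)) →
        |d.κ * (NN l : ℝ) ^ (-d.s) * v - y| ≤ Φ (upd l c u v ω, z)) :
    ∫⁻ p, lm (Φ p) ∂mu ≤ ENNReal.ofReal (10 + Real.log (1 / d.κ)) +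
      ENNReal.ofReal (1 + d.s) * ∫⁻ p, lm (sepd d k n p) ∂mu := by
  have hs := hd.hs
  have hκ0 := log_kappa52 hd
  by_cases htop : ∫⁻ p, lm (sepd d k n p) ∂mu = ⊤
  · rw [htop, ENNReal.mul_top, add_top]
    · exact le_top
    · rw [Ne, ENNReal.ofReal_eq_zero, not_le]
      linarith
  · have hms : Measurable fun p => lm (sepd d k n p) := meas_lm.comp (meas_sepd hd k n)
    have hae : ∀ᵐ p ∂mu, 0 < sepd d k n p := by
      filter_upwards [ae_lt_top hms htop] with p hp
      by_contra hcon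
      unfold lm at hp
      rw [if_pos (not_lt.1 hcon)] at hp
      exact lt_irrefl _ hp
    have h1 : ∫⁻ p, lm (Φ p) ∂mu ≤ ∫⁻ p, (ENNReal.ofReal (Real.log (1 / d.κ) + 5) +
        ENNReal.ofReal (1 + d.s) * lm (sepd d k n p) + ∑' l, ff52 d k n l Φ p) ∂mu := by
      apply lintegral_mono_ae
      filter_upwards [hae] with p hp
      exact point52 hd hk Φ p hp
    refine h1.trans ?_
    have hm1 : Measurable fun p : Pt => ENNReal.ofReal (Real.log (1 / d.κ) + 5) +
        ENNReal.ofReal (1 + d.s) * lm (sepd d k n p) := measurable_const.add (hms.const_mul _)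
    have hm0 : Measurable fun _ : Pt => ENNReal.ofReal (Real.log (1 / d.κ) + 5) :=
      measurable_const
    rw [lintegral_add_left hm1, lintegral_add_left hm0, lintegral_const, measure_univ, mul_one,
      lintegral_const_mul _ hms,
      lintegral_tsum fun l => (ff52_meas hd k n l hΦ).aemeasurable]
    have h2 : ∑' l, ∫⁻ p, ff52 d k n l Φ p ∂mu ≤ ENNReal.ofReal (1 / 2) :=
      (ENNReal.tsum_le_tsum fun l => int_ff52 hd hk hΦ h l).trans sum52
    have h3 : ENNReal.ofReal (Real.log (1 / d.κ) + 5) + ENNReal.ofReal (1 / 2) ≤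
        ENNReal.ofReal (10 + Real.log (1 / d.κ)) := by
      rw [← ENNReal.ofReal_add (by linarith) (by norm_num)]
      exact ENNReal.ofReal_le_ofReal (by linarith)
    calc ENNReal.ofReal (Real.log (1 / d.κ) + 5) +
          ENNReal.ofReal (1 + d.s) * ∫⁻ p, lm (sepd d k n p) ∂mu +
          ∑' l, ∫⁻ p, ff52 d k n l Φ p ∂mu
        ≤ ENNReal.ofReal (Real.log (1 / d.κ) + 5) +
          ENNReal.ofReal (1 + d.s) * ∫⁻ p, lm (sepd d k n p) ∂mu + ENNReal.ofReal (1 / 2) :=
          add_le_add le_rfl h2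
      _ = (ENNReal.ofReal (Real.log (1 / d.κ) + 5) + ENNReal.ofReal (1 / 2)) +
          ENNReal.ofReal (1 + d.s) * ∫⁻ p, lm (sepd d k n p) ∂mu := by
          rw [add_right_comm]
      _ ≤ _ := add_le_add h3 le_rfl

end Pool.Agent.Helper95.PV
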