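import Pool.Agent.Helper95.PV.Bas
import Pool.Agent.Helper95.PV.Weg
import Pool.Agent.Helper95.PV.Sep

/-! Block PV-DBL: doubling. Port of `FD/PhiJ.lean`, `FD/PhiR.lean`, `FD/PhiC.lean`, `FD/Dbl.lean`.

For `m ≥ 2` put `L' = Mm d (m-1) p`, `q = (sk d)^[m] p`, `R = Mm d m q`, `R' = Mm d (m-1) (sk d q)`: `Mm d m p = mv v_(m-1) * L'`, `R = R' * mv v_m`, `Mm d (2m) p = R * (mv v_(m-1) * L')`.
`phJ d m p = 4 nn (Mm d (2m) p)/(cn1 R * rn1 L')` (noise of the position `m - 1`, `n = 2m - 1`), `phR d m p = 4 rn1 L'/rn1 (Mm d (m-2) p)` (noise of the position `m - 2`, `n = m - 1`), `phC d m q = 4 cn1 R/cn1 R'` (noise of the position `0` of `q`, `n = m - 1`).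
`weg`: `v' = v₀ + a (κ N^(-s) (v - cl ω_i))` by `line`, `|v' - y₀| ≤ Φ` (`jun`, `row`, `col`), so `|κ N^(-s) v - y| = |v' - y₀|/|a| ≤ Φ` with `y = (y₀ - v₀)/a + κ N^(-s) cl ω_i`.
Pointwise: `nn (Mm d m p) ≤ nn (mv v_(m-1)) nn L' ≤ |a|³ nn L'`, `nn L' = rn1 L' + rn1 (Mm d (m-2) p)` (`row_nn`, for `m ≥ 2`) `= rn1 L' (1 + 4/phR)`, `nn R = cn1 R + cn1 R' = cn1 R (1 + 4/phC)`. -/

set_option autoImplicit false
open MeasureTheory Real Set
open scoped ENNReal

namespace Pool.Agent.Helper95.PV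

open Pool.Agent.Helper18.UC (T2 rep toT nn nn_nonneg nn_mul nn_one)
open Pool.Agent.Helper18.FD (NN rr pr cl uu lm Bump k1 k2 NN_pos NN_ge cl_of_mem meas_lm)

variable {d : Dat}

noncomputable def phJ (d : Dat) (m : ℕ) (p : Pt) : ℝ :=
  4 * nn (Mm d (2 * m) p) / (cn1 (Mm d m ((sk d)^[m] p)) * rn1 (Mm d (m - 1) p))

noncomputable def phR (d : Dat) (m : ℕ) (p : Pt) : ℝ := 4 * rn1 (Mm d (m - 1) p) / rn1 (Mm d (m - 2) p)

noncomputable def phC (d : Dat) (m : ℕ) (p : Pt) : ℝ := 4 * cn1 (Mm d m p) / cn1 (Mm d (m - 1) (sk d p))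

private theorem measJ_h54 (hd : d.Ok) (m : ℕ) : Measurable (phJ d m) := by
  unfold phJ
  exact ((meas_nn hd (2 * m)).const_mul 4).div
    (((meas_cn1 hd m).comp ((meas_sk hd).iterate m)).mul (meas_rn1 hd (m - 1)))

private theorem measR_h54 (hd : d.Ok) (m : ℕ) : Measurable (phR d m) := by
  unfold phR
  exact ((meas_rn1 hd (m - 1)).const_mul 4).div (meas_rn1 hd (m - 2))

private theorem measC_h54 (hd : d.Ok) (m : ℕ) : Measurable (phC d m) := by
  unfold phC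
  exact ((meas_cn1 hd m).const_mul 4).div ((meas_cn1 hd (m - 1)).comp (meas_sk hd))

/-- the affine change of variables in the noise coordinate -/
private theorem aff_h54 (hd : d.Ok) {v₀ v₁ y₀ e w v K Φ : ℝ} (hK : 0 < K)
    (hv : v₁ = v₀ + d.a * (e * (v - w))) (h : |v₁ - y₀| * K ≤ Φ) :
    |e * v - ((y₀ - v₀) / d.a + e * w)| ≤ Φ / K := by
  have ha := hd.ha
  have ha0 : d.a ≠ 0 := by
    rintro h0
    rw [h0, abs_zero] at ha
    norm_num at ha
  have e1 : e * v - ((y₀ - v₀) / d.a + e * w) = (v₁ - y₀) / d.a := by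
    rw [hv]
    field_simp
    ring
  have h0 : |v₁ - y₀| ≤ Φ / K := by
    rw [le_div_iff₀ hK]
    exact h
  rw [e1, abs_div]
  exact (div_le_self (abs_nonneg _) (by linarith)).trans h0

theorem wegJ (hd : d.Ok) {m : ℕ} (hm : 2 ≤ m) :
    ∫⁻ p, lm (phJ d m p) ∂mu ≤ ENNReal.ofReal (10 + Real.log (1 / d.κ)) +
      ENNReal.ofReal (1 + d.s) * ∫⁻ p, lm (sepd d (m - 1) (2 * m - 1) p) ∂mu := by
  obtain ⟨k, rfl⟩ : ∃ k, m = k + 1 := ⟨m - 1, by omega⟩
  have e1 : k + 1 - 1 = k := by omega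
  have e2 : 2 * (k + 1) - 1 = 2 * k + 1 := by omega
  rw [e1, e2]
  refine weg hd (by omega) (measJ_h54 hd (k + 1)) fun l ω z c hfar hc => ?_
  obtain ⟨y₀, hy₀⟩ := jun (Mm d (k + 1) ((sk d)^[k + 1] (ω, z))) (Mm d k (ω, z))
  refine ⟨(y₀ - vv d ((sk d)^[k] (ω, z))) / d.a +
    d.κ * (NN l : ℝ) ^ (-d.s) * cl (ω (l, c, true)), fun u hu v hv huv => ?_⟩
  obtain ⟨-, -, hve, hvek⟩ := line hd (by omega) hfar hc hu hv huv
  have hR : Mm d (k + 1) ((sk d)^[k + 1] (upd l c u v ω, z)) =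
      Mm d (k + 1) ((sk d)^[k + 1] (ω, z)) := by
    refine Mm_congr fun j hj => ?_
    rw [← Function.iterate_add_apply, ← Function.iterate_add_apply]
    exact hve (j + (k + 1)) (by omega) (by omega)
  have hL : Mm d k (upd l c u v ω, z) = Mm d k (ω, z) :=
    Mm_congr fun j hj => hve j (by omega) (by omega)
  have hMM : Mm d (2 * (k + 1)) (upd l c u v ω, z) = Mm d (k + 1) ((sk d)^[k + 1] (ω, z)) *
      (mv (vv d ((sk d)^[k] (upd l c u v ω, z))) * Mm d k (ω, z)) := by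
    rw [two_mul, Mm_add, hR, Mm_succ d k (upd l c u v ω, z), hL]
  have h1 := hy₀ (vv d ((sk d)^[k] (upd l c u v ω, z)))
  rw [← hMM] at h1
  have hpos : 0 < cn1 (Mm d (k + 1) ((sk d)^[k + 1] (ω, z))) * rn1 (Mm d k (ω, z)) :=
    mul_pos (cn1_pos (det_Mm _ _)) (rn1_pos (det_Mm _ _))
  unfold phJ
  rw [hR, e1, hL]
  exact aff_h54 hd hpos hvek h1

theorem wegR (hd : d.Ok) {m : ℕ} (hm : 2 ≤ m) :
    ∫⁻ p, lm (phR d m p) ∂mu ≤ ENNReal.ofReal (10 + Real.log (1 / d.κ)) +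
      ENNReal.ofReal (1 + d.s) * ∫⁻ p, lm (sepd d (m - 2) (m - 1) p) ∂mu := by
  obtain ⟨i, rfl⟩ : ∃ i, m = i + 2 := ⟨m - 2, by omega⟩
  have e1 : i + 2 - 2 = i := by omega
  have e2 : i + 2 - 1 = i + 1 := by omega
  rw [e1, e2]
  refine weg hd (k := i) (n := i + 1) (by omega) (measR_h54 hd (i + 2)) ?_
  intro l ω z c hfar hc
  obtain ⟨y₀, hy₀⟩ := row (Mm d i (ω, z))
  refine ⟨(y₀ - vv d ((sk d)^[i] (ω, z))) / d.a +
    d.κ * (NN l : ℝ) ^ (-d.s) * cl (ω (l, c, true)), fun u hu v hv huv => ?_⟩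
  obtain ⟨-, -, hve, hvek⟩ := line hd (by omega) hfar hc hu hv huv
  have h0 : Mm d i (upd l c u v ω, z) = Mm d i (ω, z) :=
    Mm_congr fun j hj => hve j (by omega) (by omega)
  have h1 := hy₀ (vv d ((sk d)^[i] (upd l c u v ω, z)))
  unfold phR
  rw [e1, e2, Mm_succ, h0]
  exact aff_h54 hd (rn1_pos (det_Mm _ _)) hvek h1

theorem wegC (hd : d.Ok) {m : ℕ} (hm : 2 ≤ m) :
    ∫⁻ p, lm (phC d m p) ∂mu ≤ ENNReal.ofReal (10 + Real.log (1 / d.κ)) +
      ENNReal.ofReal (1 + d.s) * ∫⁻ p, lm (sepd d 0 (m - 1) p) ∂mu := by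
  obtain ⟨i, rfl⟩ : ∃ i, m = i + 1 := ⟨m - 1, by omega⟩
  have e1 : i + 1 - 1 = i := by omega
  rw [e1]
  refine weg hd (k := 0) (n := i) (by omega) (measC_h54 hd (i + 1)) ?_
  intro l ω z c hfar hc
  obtain ⟨y₀, hy₀⟩ := col (Mm d i (sk d (ω, z)))
  refine ⟨(y₀ - vv d (ω, z)) / d.a +
    d.κ * (NN l : ℝ) ^ (-d.s) * cl (ω (l, c, true)), fun u hu v hv huv => ?_⟩
  obtain ⟨-, -, hve, hvek⟩ := line hd (by omega) hfar hc hu hv huv
  rw [Function.iterate_zero, id, id] at hvek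
  have h0 : Mm d i (sk d (upd l c u v ω, z)) = Mm d i (sk d (ω, z)) := by
    refine Mm_congr fun j hj => ?_
    rw [← Function.iterate_succ_apply, ← Function.iterate_succ_apply]
    exact hve (j + 1) (by omega) (by omega)
  have h2 : Mm d (i + 1) (upd l c u v ω, z) =
      Mm d i (sk d (ω, z)) * mv (vv d (upd l c u v ω, z)) := by
    rw [Mm_add, Function.iterate_one, h0, Mm_one]
  have h1 := hy₀ (vv d (upd l c u v ω, z))
  unfold phC
  rw [e1, h0, h2]
  exact aff_h54 hd (cn1_pos (det_Mm _ _)) hvek h1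

private theorem nn_pos_h54 {B : Matrix (Fin 2) (Fin 2) ℝ} (h : B.det = 1) : 0 < nn B := by
  have := nn_ge_two h
  linarith

/-- from `x = y * (1 + 4 / φ)` to logarithms -/
private theorem log_aux_h54 {x y φ : ℝ} (hx : 0 < x) (hy : 0 < y)
    (h : x = y * (1 + 4 / φ)) :
    Real.log x ≤ Real.log y + Real.log 5 + max 0 (-Real.log φ) := by
  have h1 : 1 + 4 / φ ≤ 5 * max 1 φ⁻¹ := by
    have h2 : (1 : ℝ) ≤ max 1 φ⁻¹ := le_max_left _ _
    have h3 : 4 / φ ≤ 4 * max 1 φ⁻¹ := by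
      rw [div_eq_mul_inv]
      exact mul_le_mul_of_nonneg_left (le_max_right _ _) (by norm_num)
    linarith
  have hm0 : 0 < max 1 φ⁻¹ := lt_of_lt_of_le one_pos (le_max_left _ _)
  have h2 : x ≤ y * (5 * max 1 φ⁻¹) := by
    rw [h]
    exact mul_le_mul_of_nonneg_left h1 hy.le
  have h3 := Real.log_le_log hx h2
  rw [Real.log_mul hy.ne' (mul_pos (by norm_num) hm0).ne', Real.log_mul (by norm_num) hm0.ne'] at h3
  have h4 : Real.log (max 1 φ⁻¹) ≤ max 0 (-Real.log φ) := by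
    rcases max_choice 1 φ⁻¹ with h5 | h5
    · rw [h5, Real.log_one]
      exact le_max_left _ _
    · rw [h5, Real.log_inv]
      exact le_max_right _ _
  linarith

private theorem phR_pos_h54 (m : ℕ) (p : Pt) : 0 < phR d m p := by
  unfold phR
  have h1 := rn1_pos (det_Mm (d := d) (m - 1) p)
  have h2 := rn1_pos (det_Mm (d := d) (m - 2) p)
  positivity

private theorem phC_pos_h54 (m : ℕ) (p : Pt) : 0 < phC d m p := by
  unfold phC
  have h1 := cn1_pos (det_Mm (d := d) m p)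
  have h2 := cn1_pos (det_Mm (d := d) (m - 1) (sk d p))
  positivity

private theorem phJ_pos_h54 (m : ℕ) (p : Pt) : 0 < phJ d m p := by
  unfold phJ
  have h1 := cn1_pos (det_Mm (d := d) m ((sk d)^[m] p))
  have h2 := rn1_pos (det_Mm (d := d) (m - 1) p)
  have h3 := nn_pos_h54 (det_Mm (d := d) (2 * m) p)
  positivity

theorem dbl_pt (hd : d.Ok) {m : ℕ} (hm : 2 ≤ m) (p : Pt) :
    Real.log (nn (Mm d m p)) + Real.log (nn (Mm d m ((sk d)^[m] p))) ≤
      Real.log (nn (Mm d (2 * m) p)) + Real.log (100 * |d.a| ^ 3) + max 0 (-Real.log (phJ d m p)) +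
      max 0 (-Real.log (phR d m p)) + max 0 (-Real.log (phC d m ((sk d)^[m] p))) := by
  obtain ⟨k, rfl⟩ : ∃ k, m = k + 2 := ⟨m - 2, by omega⟩
  have e1 : k + 2 - 1 = k + 1 := by omega
  have e2 : k + 2 - 2 = k := by omega
  set q : Pt := (sk d)^[k + 2] p with hq
  have ha := hd.ha
  have ha0 : 0 < |d.a| := by linarith
  -- the row estimate
  have hX := rn1_pos (det_Mm (d := d) k p)
  have hL := rn1_pos (det_Mm (d := d) (k + 1) p)
  have hL2 := nn_pos_h54 (det_Mm (d := d) (k + 1) p)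
  have hM2 := nn_pos_h54 (det_Mm (d := d) (k + 2) p)
  have hR1 : nn (Mm d (k + 1) p) = rn1 (Mm d (k + 1) p) * (1 + 4 / phR d (k + 2) p) := by
    have h1 : nn (Mm d (k + 1) p) = rn1 (Mm d (k + 1) p) + rn1 (Mm d k p) := by
      rw [Mm_succ d k p]
      exact row_nn _ _
    have h2 : rn1 (Mm d (k + 1) p) * (1 + 4 / phR d (k + 2) p) =
        rn1 (Mm d (k + 1) p) + rn1 (Mm d k p) := by
      unfold phR
      rw [e1, e2]
      field_simp
    rw [h2]
    exact h1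
  have hrow0 := log_aux_h54 hL2 hL hR1
  have hrow : Real.log (nn (Mm d (k + 2) p)) ≤
      Real.log (|d.a| ^ 3) + Real.log (nn (Mm d (k + 1) p)) := by
    have h1 : nn (Mm d (k + 2) p) ≤ |d.a| ^ 3 * nn (Mm d (k + 1) p) := by
      rw [show k + 2 = (k + 1) + 1 by omega, Mm_succ]
      exact (nn_mul _ _).trans (mul_le_mul_of_nonneg_right (nn_mv_le hd _) hL2.le)
    have h2 := Real.log_le_log hM2 h1
    rwa [Real.log_mul (by positivity) hL2.ne'] at h2
  -- the column estimate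
  have hR' := cn1_pos (det_Mm (d := d) (k + 1) (sk d q))
  have hR := cn1_pos (det_Mm (d := d) (k + 2) q)
  have hC1 : nn (Mm d (k + 2) q) = cn1 (Mm d (k + 2) q) * (1 + 4 / phC d (k + 2) q) := by
    have h0 : Mm d (k + 2) q = Mm d (k + 1) (sk d q) * mv (vv d q) := by
      have h3 := Mm_add d (k + 1) 1 q
      rw [Mm_one, Function.iterate_one] at h3
      exact h3
    have h1 : nn (Mm d (k + 2) q) = cn1 (Mm d (k + 2) q) + cn1 (Mm d (k + 1) (sk d q)) := by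
      rw [h0]
      exact col_nn _ _
    have h2 : cn1 (Mm d (k + 2) q) * (1 + 4 / phC d (k + 2) q) =
        cn1 (Mm d (k + 2) q) + cn1 (Mm d (k + 1) (sk d q)) := by
      unfold phC
      rw [e1]
      field_simp
    rw [h2]
    exact h1
  have hcol := log_aux_h54 (nn_pos_h54 (det_Mm (d := d) (k + 2) q)) hR hC1
  -- the junction
  have hN := nn_pos_h54 (det_Mm (d := d) (2 * (k + 2)) p)
  have hJ : Real.log (cn1 (Mm d (k + 2) q)) + Real.log (rn1 (Mm d (k + 1) p)) =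
      Real.log 4 + Real.log (nn (Mm d (2 * (k + 2)) p)) - Real.log (phJ d (k + 2) p) := by
    unfold phJ
    rw [← hq, e1, Real.log_div (by positivity) (by positivity), Real.log_mul (by norm_num) hN.ne',
      Real.log_mul hR.ne' hL.ne']
    ring
  have hmax : -Real.log (phJ d (k + 2) p) ≤ max 0 (-Real.log (phJ d (k + 2) p)) := le_max_right _ _
  have hlog : Real.log (100 * |d.a| ^ 3) =
      Real.log 4 + Real.log 5 + Real.log 5 + Real.log (|d.a| ^ 3) := by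
    rw [← Real.log_mul (by norm_num) (by norm_num), ← Real.log_mul (by norm_num) (by norm_num),
      ← Real.log_mul (by norm_num) (by positivity)]
    congr 1
    ring
  rw [hlog]
  linarith

private theorem lm_eq_h54 {x : ℝ} (hx : 0 < x) : lm x = ENNReal.ofReal (max 0 (-Real.log x)) := by
  unfold lm
  rw [if_neg (not_le.2 hx)]
  rcases le_total 0 (-Real.log x) with h | h
  · rw [max_eq_right h]
  · rw [max_eq_left h, ENNReal.ofReal_zero, ENNReal.ofReal_of_nonpos h]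

private theorem int_bd_h54 {Φ : Pt → ℝ} (hΦ : Measurable Φ) (hpos : ∀ p, 0 < Φ p) {B : ℝ}
    (hB : 0 ≤ B) (h : ∫⁻ p, lm (Φ p) ∂mu ≤ ENNReal.ofReal B) :
    Integrable (fun p => max 0 (-Real.log (Φ p))) mu ∧
      ∫ p, max 0 (-Real.log (Φ p)) ∂mu ≤ B := by
  have hm : Measurable fun p => max 0 (-Real.log (Φ p)) :=
    measurable_const.max (Real.measurable_log.comp hΦ).neg
  have h1 : ∫⁻ p, ENNReal.ofReal (max 0 (-Real.log (Φ p))) ∂mu ≤ ENNReal.ofReal B := by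
    refine le_trans (le_of_eq ?_) h
    refine lintegral_congr fun p => ?_
    rw [lm_eq_h54 (hpos p)]
  have h0 : 0 ≤ᵐ[mu] fun p => max 0 (-Real.log (Φ p)) :=
    Filter.Eventually.of_forall fun p => le_max_left (0 : ℝ) (-Real.log (Φ p))
  refine ⟨⟨hm.aestronglyMeasurable, ?_⟩, ?_⟩
  · rw [hasFiniteIntegral_iff_ofReal h0]
    exact lt_of_le_of_lt h1 ENNReal.ofReal_lt_top
  · rw [integral_eq_lintegral_of_nonneg_ae h0 hm.aestronglyMeasurable]
    exact ENNReal.toReal_le_of_le_ofReal hB h1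

private theorem log100_h54 : Real.log 100 ≤ 5 := by
  rw [Real.log_le_iff_le_exp (by norm_num)]
  have h1 : Real.exp 5 = Real.exp 1 ^ 5 := by
    rw [← Real.exp_nat_mul]
    norm_num
  rw [h1]
  have h2 : (2.7 : ℝ) ≤ Real.exp 1 := by
    have := Real.exp_one_gt_d9
    linarith
  calc (100 : ℝ) ≤ 2.7 ^ 5 := by norm_num
    _ ≤ Real.exp 1 ^ 5 := pow_le_pow_left₀ (by norm_num) h2 5

theorem dbl {s : ℝ} (hs : 0 < s) (hs1 : s < 1) :
    ∃ β C : ℝ, 0 < β ∧ β < 1 ∧ 0 < C ∧ ∀ d : Dat, d.Ok → d.s = s → ∀ m : ℕ, 2 ≤ m →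
      2 * Em d m ≤ Em d (2 * m) + C * (m : ℝ) ^ β * Lam d := by
  obtain ⟨β, C₀, hβ, hβ1, hC₀, hsep⟩ := sep_int hs hs1
  refine ⟨β, 36 + 12 * C₀, hβ, hβ1, by positivity, fun d hd hds m hm => ?_⟩
  have hm1 : (1 : ℝ) ≤ m := by exact_mod_cast (by omega : 1 ≤ m)
  have hm0 : (0 : ℝ) < m := by linarith
  obtain ⟨hLam, -, hκ0⟩ := one_le_Lam hd
  have ha := hd.ha
  have ha0 : 0 < |d.a| := by linarith
  have hla : 0 ≤ Real.log |d.a| := Real.log_nonneg (by linarith)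
  set B : ℝ := 10 + Real.log (1 / d.κ) + 2 * (C₀ * (2 * (m : ℝ)) ^ β * Lam d) with hB
  have hS0 : 0 ≤ C₀ * (2 * (m : ℝ)) ^ β * Lam d := by positivity
  have hB0 : 0 ≤ B := by positivity
  -- the separation integrals
  have hsb : ∀ k n : ℕ, k ≤ n → 1 ≤ n → n ≤ 2 * m →
      ENNReal.ofReal (10 + Real.log (1 / d.κ)) +
      ENNReal.ofReal (1 + d.s) * ∫⁻ p, lm (sepd d k n p) ∂mu ≤ ENNReal.ofReal B := by
    intro k n hk hn hn2
    have h1 := hsep d hd hds k n hk hn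
    have h2 : C₀ * (n : ℝ) ^ β * Lam d ≤ C₀ * (2 * (m : ℝ)) ^ β * Lam d := by
      have h3 : (n : ℝ) ≤ 2 * m := by exact_mod_cast hn2
      have h4 : (n : ℝ) ^ β ≤ (2 * (m : ℝ)) ^ β := Real.rpow_le_rpow (by positivity) h3 hβ.le
      gcongr
    have h3 := h1.trans (ENNReal.ofReal_le_ofReal h2)
    have h4 : ENNReal.ofReal (1 + d.s) ≤ ENNReal.ofReal 2 :=
      ENNReal.ofReal_le_ofReal (by linarith [hd.hs1])
    calc ENNReal.ofReal (10 + Real.log (1 / d.κ)) +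
          ENNReal.ofReal (1 + d.s) * ∫⁻ p, lm (sepd d k n p) ∂mu
        ≤ ENNReal.ofReal (10 + Real.log (1 / d.κ)) +
          ENNReal.ofReal 2 * ENNReal.ofReal (C₀ * (2 * (m : ℝ)) ^ β * Lam d) := by
          gcongr
      _ = ENNReal.ofReal B := by
          rw [← ENNReal.ofReal_mul (by norm_num), ← ENNReal.ofReal_add (by positivity)
            (by positivity), hB]
  have hskm : Measurable ((sk d)^[m]) := (meas_sk hd).iterate m
  -- the three functions
  have mJ : Measurable (phJ d m) := measJ_h54 hd m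
  have mR : Measurable (phR d m) := measR_h54 hd m
  have mC : Measurable (phC d m) := measC_h54 hd m
  have iJ := int_bd_h54 mJ (phJ_pos_h54 m) hB0 ((wegJ hd hm).trans
    (hsb (m - 1) (2 * m - 1) (by omega) (by omega) (by omega)))
  have iR := int_bd_h54 mR (phR_pos_h54 m) hB0 ((wegR hd hm).trans
    (hsb (m - 2) (m - 1) (by omega) (by omega) (by omega)))
  have iC : Integrable (fun p => max 0 (-Real.log (phC d m ((sk d)^[m] p)))) mu ∧
      ∫ p, max 0 (-Real.log (phC d m ((sk d)^[m] p))) ∂mu ≤ B := by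
    refine int_bd_h54 (Φ := fun p => phC d m ((sk d)^[m] p)) (mC.comp hskm)
      (fun p => phC_pos_h54 m _) hB0 ?_
    have h1 : ∫⁻ p, lm (phC d m ((sk d)^[m] p)) ∂mu = ∫⁻ p, lm (phC d m p) ∂mu :=
      (sk_iter_mp hd m).lintegral_comp (f := fun p => lm (phC d m p)) (meas_lm.comp mC)
    rw [h1]
    exact (wegC hd hm).trans (hsb 0 (m - 1) (by omega) (by omega) (by omega))
  -- integrate the pointwise inequality
  have i1 := int_log_nn hd m
  have i2 : Integrable (fun p => Real.log (nn (Mm d m ((sk d)^[m] p)))) mu :=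
    (sk_iter_mp hd m).integrable_comp_of_integrable i1
  have i3 := int_log_nn hd (2 * m)
  have j1 : Integrable (fun p => Real.log (nn (Mm d (2 * m) p)) + Real.log (100 * |d.a| ^ 3)) mu :=
    i3.add (integrable_const _)
  have j2 : Integrable (fun p => Real.log (nn (Mm d (2 * m) p)) + Real.log (100 * |d.a| ^ 3) +
      max 0 (-Real.log (phJ d m p))) mu := j1.add iJ.1
  have j3 : Integrable (fun p => Real.log (nn (Mm d (2 * m) p)) + Real.log (100 * |d.a| ^ 3) +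
      max 0 (-Real.log (phJ d m p)) + max 0 (-Real.log (phR d m p))) mu := j2.add iR.1
  have hint : ∫ p, (Real.log (nn (Mm d m p)) + Real.log (nn (Mm d m ((sk d)^[m] p)))) ∂mu ≤
      ∫ p, (Real.log (nn (Mm d (2 * m) p)) + Real.log (100 * |d.a| ^ 3) +
        max 0 (-Real.log (phJ d m p)) + max 0 (-Real.log (phR d m p)) +
        max 0 (-Real.log (phC d m ((sk d)^[m] p)))) ∂mu :=
    integral_mono (i1.add i2) (j3.add iC.1) (fun p => dbl_pt hd hm p)
  rw [integral_add i1 i2, Em_sk hd m m, integral_add j3 iC.1, integral_add j2 iR.1,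
    integral_add j1 iJ.1, integral_add i3 (integrable_const _)] at hint
  have hc : ∫ _ : Pt, Real.log (100 * |d.a| ^ 3) ∂mu = Real.log (100 * |d.a| ^ 3) := by
    rw [integral_const, probReal_univ, one_smul]
  rw [hc] at hint
  have e1 : ∫ p, Real.log (nn (Mm d m p)) ∂mu = Em d m := rfl
  have e2 : ∫ p, Real.log (nn (Mm d (2 * m) p)) ∂mu = Em d (2 * m) := rfl
  rw [e1, e2] at hint
  have hfin : Real.log (100 * |d.a| ^ 3) + 3 * B ≤ (36 + 12 * C₀) * (m : ℝ) ^ β * Lam d := by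
    have h1 : Real.log (100 * |d.a| ^ 3) ≤ 5 + 3 * Real.log |d.a| := by
      rw [Real.log_mul (by norm_num) (by positivity), Real.log_pow]
      push_cast
      linarith [log100_h54]
    have h2 : (1 : ℝ) ≤ (m : ℝ) ^ β := Real.one_le_rpow hm1 hβ.le
    have h3 : (2 * (m : ℝ)) ^ β ≤ 2 * (m : ℝ) ^ β := by
      rw [Real.mul_rpow (by norm_num) hm0.le]
      have h4 : (2 : ℝ) ^ β ≤ 2 := by
        calc (2 : ℝ) ^ β ≤ 2 ^ (1 : ℝ) := Real.rpow_le_rpow_of_exponent_le (by norm_num) hβ1.le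
          _ = 2 := Real.rpow_one 2
      gcongr
    have h4 : C₀ * (2 * (m : ℝ)) ^ β * Lam d ≤ 2 * C₀ * ((m : ℝ) ^ β * Lam d) := by
      calc C₀ * (2 * (m : ℝ)) ^ β * Lam d ≤ C₀ * (2 * (m : ℝ) ^ β) * Lam d := by gcongr
        _ = _ := by ring
    have h5 : Lam d ≤ (m : ℝ) ^ β * Lam d := le_mul_of_one_le_left (by linarith) h2
    have h6 : Lam d = 1 + Real.log |d.a| + Real.log (1 / d.κ) := rfl
    have h7 : 5 + 3 * Real.log |d.a| + 3 * (10 + Real.log (1 / d.κ)) ≤ 36 * Lam d := by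
      rw [h6]
      linarith
    calc Real.log (100 * |d.a| ^ 3) + 3 * B
        ≤ 36 * Lam d + 6 * (C₀ * (2 * (m : ℝ)) ^ β * Lam d) := by rw [hB]; linarith
      _ ≤ 36 * ((m : ℝ) ^ β * Lam d) + 6 * (2 * C₀ * ((m : ℝ) ^ β * Lam d)) := by linarith
      _ = _ := by ring
  linarith [iJ.2, iR.2, iC.2]

end Pool.Agent.Helper95.PV
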