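import Pool.Agent.Helper18.FD.Defs

/-! Project PV (MP_9ee088_an): frozen random potentials, definitions. Proof in words: README.md in this folder.

Standard maps `(x, y) ↦ (2 x - y + a V'(x), x)` with the potential `V = G + κ h_ω`, `h_ω` a random function of one variable of class `C^(2+s)`, chosen
once. Port of project FD (`Pool/Agent/Helper18/FD`), from which the general notions (`NN`, `rr`, `pr`, `cl`, `uu`, `lm`, `Bump`, `k1`, `k2`) are taken. -/

set_option autoImplicit false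
open MeasureTheory Real Set
open scoped ENNReal

namespace Pool.Agent.Helper95.PV

open Pool.Agent.Helper18.UC (T2 rep toT nn)
open Pool.Agent.Helper18.FD (NN rr pr cl uu lm Bump k1 k2)

/-! ### the noise -/

/-- indices: level, cell, kind -/
abbrev Ix := ℕ × ℕ × Bool

abbrev Om := Ix → ℝ

/-- independent coordinates -/
noncomputable def PP : Measure Om := Measure.infinitePi (fun _ : Ix => uu)

instance : IsProbabilityMeasure PP := by unfold PP; infer_instance

/-- the sum over the cells of level `l` -/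
noncomputable def lv (g₁ g₂ : ℝ → ℝ) (ω : Om) (l : ℕ) (x : ℝ) : ℝ :=
  ∑ i ∈ Finset.range (NN l), (cl (ω (l, i, false)) * pr (NN l) g₁ (x - i / NN l) +
    cl (ω (l, i, true)) * pr (NN l) g₂ (x - i / NN l))

/-- the random series with amplitudes `N^(-e)` -/
noncomputable def fd (g₁ g₂ : ℝ → ℝ) (e : ℝ) (ω : Om) (x : ℝ) : ℝ :=
  ∑' l : ℕ, (NN l : ℝ) ^ (-e) * lv g₁ g₂ ω l x

/-- the random potential -/
noncomputable def h0 (χ : ℝ → ℝ) (s : ℝ) (ω : Om) (x : ℝ) : ℝ := fd (k1 χ) (k2 χ) (2 + s) ω x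

/-- its derivative -/
noncomputable def h1 (χ : ℝ → ℝ) (s : ℝ) (ω : Om) (x : ℝ) : ℝ :=
  fd (deriv (k1 χ)) (deriv (k2 χ)) (1 + s) ω x

/-- its second derivative -/
noncomputable def h2 (χ : ℝ → ℝ) (s : ℝ) (ω : Om) (x : ℝ) : ℝ :=
  fd (deriv (deriv (k1 χ))) (deriv (deriv (k2 χ))) s ω x

/-- the fixed data: parameter, coupling, smoothness, bound, bump, first and second derivative of the background -/
structure Dat where
  a : ℝ
  κ : ℝ
  s : ℝ
  R : ℝ
  χ : ℝ → ℝ
  g1 : ℝ → ℝ
  g2 : ℝ → ℝ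

/-- the derivative of the potential -/
noncomputable def Dat.p1 (d : Dat) (ω : Om) (x : ℝ) : ℝ := d.g1 x + d.κ * h1 d.χ d.s ω x

/-- the second derivative of the potential -/
noncomputable def Dat.p2 (d : Dat) (ω : Om) (x : ℝ) : ℝ := d.g2 x + d.κ * h2 d.χ d.s ω x

structure Dat.Ok (d : Dat) : Prop where
  ha : 100 ≤ |d.a|
  hR : 1 ≤ d.R
  hRa : d.R ≤ |d.a|
  hκ : 0 < d.κ
  hκ1 : d.κ ≤ 1
  hs : 0 < d.s
  hs1 : d.s < 1
  hχ : Bump d.χ
  c1 : Continuous d.g1
  c2 : Continuous d.g2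
  e1 : ∀ x, d.g1 (x + 1) = d.g1 x
  e2 : ∀ x, d.g2 (x + 1) = d.g2 x
  der : ∀ x, HasDerivAt d.g1 (d.g2 x) x
  b1 : ∀ ω x, |d.p1 ω x| ≤ d.R
  b2 : ∀ ω x, |d.p2 ω x| ≤ d.R

/-- nondegeneracy: the second derivative is rarely small -/
def Dat.Nd (d : Dat) (B b : ℝ) : Prop := ∀ δ : ℝ, 0 < δ →
  (PP.prod (volume.restrict (Ico (0 : ℝ) 1))) {q : Om × ℝ | |d.p2 q.1 q.2| < δ} ≤ ENNReal.ofReal (B * δ ^ b)

/-! ### the skew product -/

/-- representative in `[0, 1)` of a point of the circle -/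
noncomputable def rp (x : UnitAddCircle) : ℝ := (AddCircle.equivIco (1 : ℝ) 0 x : ℝ)

/-- the circle map `x ↦ 2 x + a V'(x)` -/
noncomputable def cc (d : Dat) (ω : Om) (x : UnitAddCircle) : UnitAddCircle :=
  ((2 * rp x + d.a * d.p1 ω (rp x) : ℝ) : UnitAddCircle)

/-- its derivative `2 + a V''(x)` -/
noncomputable def va (d : Dat) (ω : Om) (x : UnitAddCircle) : ℝ := 2 + d.a * d.p2 ω (rp x)

/-- the map of the plane -/
noncomputable def Fl (d : Dat) (ω : Om) (q : ℝ × ℝ) : ℝ × ℝ :=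
  (2 * q.1 - q.2 + d.a * d.p1 ω q.1, q.1)

/-- the map of the torus for a fixed noise -/
noncomputable def Tw (d : Dat) (ω : Om) (z : T2) : T2 := (cc d ω z.1 - z.2, z.1)

/-- points: noise and phase point -/
abbrev Pt := Om × T2

noncomputable def mu : Measure Pt := PP.prod volume

/-- one step, the noise is frozen -/
noncomputable def sk (d : Dat) (p : Pt) : Pt := (p.1, Tw d p.1 p.2)

/-- the involution which exchanges past and future -/
def rv (p : Pt) : Pt := (p.1, p.2.swap)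

/-- the position at time `j` -/
noncomputable def px (d : Dat) (j : ℕ) (p : Pt) : UnitAddCircle := ((sk d)^[j] p).2.1

/-- the derivative of the circle map at the point -/
noncomputable def vv (d : Dat) (p : Pt) : ℝ := va d p.1 p.2.1

/-- the matrix `!![v, -1; 1, 0]` -/
def mv (v : ℝ) : Matrix (Fin 2) (Fin 2) ℝ := !![v, -1; 1, 0]

/-- the derivative matrix of the `n`-th iterate -/
noncomputable def Mm (d : Dat) : ℕ → Pt → Matrix (Fin 2) (Fin 2) ℝ
  | 0, _ => 1
  | n + 1, p => mv (vv d ((sk d)^[n] p)) * Mm d n p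

/-- distance of the position number `k` from the other positions up to time `n` -/
noncomputable def sepd (d : Dat) (k n : ℕ) (p : Pt) : ℝ :=
  (Finset.range (n + 1)).inf' ⟨0, by simp⟩ fun j => if j = k then 1 else dist (px d j p) (px d k p)

/-- the mean growth -/
noncomputable def Em (d : Dat) (n : ℕ) : ℝ := ∫ p, Real.log (nn (Mm d n p)) ∂mu

/-- the basic size -/
noncomputable def Lam (d : Dat) : ℝ := 1 + Real.log |d.a| + Real.log (1 / d.κ)

/-- the probability that the positions `0` and `k` are close -/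
noncomputable def qq (d : Dat) (k : ℕ) (ρ : ℝ) : ℝ := mu.real {p | dist (px d k p) (px d 0 p) < ρ}

/-! ### cells -/

/-- local coordinate -/
noncomputable def tc (l i : ℕ) (x : UnitAddCircle) : ℝ := NN l * rr (rp x - i / NN l)

def inn (l i : ℕ) (x : UnitAddCircle) : Prop := |tc l i x| ≤ 1 / 2

def out (l i : ℕ) (x : UnitAddCircle) : Prop := 1 ≤ |tc l i x|

/-- the cell of level `l` which contains `x` -/
noncomputable def cel (l : ℕ) (x : UnitAddCircle) : ℕ := (round (NN l * rp x) % (NN l : ℤ)).toNat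

/-- change of the two noise coordinates of a cell -/
noncomputable def upd (l i : ℕ) (u v : ℝ) (ω : Om) : Om :=
  Function.update (Function.update ω (l, i, false) u) (l, i, true) v

/-- the positions other than the `k`-th are far from it at level `l` -/
def far (d : Dat) (l k n : ℕ) (p : Pt) : Prop :=
  ∀ j ≤ n, j ≠ k → 2 / (NN l : ℝ) ≤ dist (px d j p) (px d k p)

/-- bound for the density of a kick of level `l` -/
noncomputable def DD (d : Dat) (l : ℕ) : ℝ := 2 * (NN l : ℝ) ^ (1 + d.s) / d.κ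

/-! ### trivial lemmas -/

lemma rep_fst (z : T2) : (rep z).1 = rp z.1 := rfl

lemma rep_snd (z : T2) : (rep z).2 = rp z.2 := rfl

lemma Mm_zero (d : Dat) (p : Pt) : Mm d 0 p = 1 := by rw [Mm]

lemma Mm_succ (d : Dat) (n : ℕ) (p : Pt) : Mm d (n + 1) p = mv (vv d ((sk d)^[n] p)) * Mm d n p := by
  rw [Mm]

lemma Mm_add (d : Dat) (m n : ℕ) (p : Pt) :
    Mm d (m + n) p = Mm d m ((sk d)^[n] p) * Mm d n p := by
  induction m with
  | zero => simp [Mm_zero]
  | succ m ih =>
    rw [show m + 1 + n = (m + n) + 1 by ring, Mm_succ, Mm_succ, ih, Matrix.mul_assoc,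
      Function.iterate_add_apply]

lemma Mm_one (d : Dat) (p : Pt) : Mm d 1 p = mv (vv d p) := by
  rw [show (1 : ℕ) = 0 + 1 from rfl, Mm_succ, Mm_zero, Matrix.mul_one]
  rfl

lemma px_zero (d : Dat) (p : Pt) : px d 0 p = p.2.1 := rfl

lemma px_sk (d : Dat) (i j : ℕ) (p : Pt) : px d j ((sk d)^[i] p) = px d (j + i) p := by
  unfold px; rw [Function.iterate_add_apply]

lemma sk_fst (d : Dat) (p : Pt) : (sk d p).1 = p.1 := rfl

lemma sk_iter_fst (d : Dat) (n : ℕ) (p : Pt) : ((sk d)^[n] p).1 = p.1 := by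
  induction n with
  | zero => rfl
  | succ n ih => rw [Function.iterate_succ_apply', sk_fst, ih]

lemma sk_iter (d : Dat) (ω : Om) (z : T2) (n : ℕ) :
    (sk d)^[n] (ω, z) = (ω, (Tw d ω)^[n] z) := by
  induction n with
  | zero => rfl
  | succ n ih => rw [Function.iterate_succ_apply', ih, Function.iterate_succ_apply']; rfl

lemma sk_iter_snd_succ (d : Dat) (n : ℕ) (p : Pt) : ((sk d)^[n + 1] p).2.2 = px d n p := by
  rw [Function.iterate_succ_apply']; rfl

lemma px_succ (d : Dat) (n : ℕ) (p : Pt) :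
    px d (n + 1) p = cc d p.1 (px d n p) - ((sk d)^[n] p).2.2 := by
  unfold px
  rw [Function.iterate_succ_apply']
  show cc d ((sk d)^[n] p).1 ((sk d)^[n] p).2.1 - ((sk d)^[n] p).2.2 = _
  rw [sk_iter_fst]

lemma rv_rv (p : Pt) : rv (rv p) = p := rfl

/-- reversibility -/
lemma sk_rv_sk (d : Dat) (p : Pt) : sk d (rv (sk d p)) = rv p := by
  obtain ⟨ω, x, y⟩ := p
  show (ω, (cc d ω x - (cc d ω x - y), x)) = (ω, (y, x))
  rw [sub_sub_cancel]

end Pool.Agent.Helper95.PV
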