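import Pool.Agent.Helper95.PV.Defs
import Pool.Agent.Helper18.FD.Loc

/-! Block PV-FIELD: the random potential is of class `C^(2+s)`, with bounds uniform in the noise.

Everything is read off the two dimensional fields of project FD at `y = 0`: with `emb ω (l, c₁, c₂, b) = ω (l, c₂, b)` if `c₁ = 0` and `0` otherwise, `fd g₁ g₂ e ω x = fld χ g₁ g₂ e (emb ω) 0 x`. -/

set_option autoImplicit false
open MeasureTheory Real Set
open scoped ENNReal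

namespace Pool.Agent.Helper95.PV

open Pool.Agent.Helper18.UC (T2 rep toT nn)
open Pool.Agent.Helper18.FD (NN rr pr cl uu lm Bump k1 k2 CB NN_pos NN_ge fld lvl fld_nice fld_meas
  fld_dx fld_hoelder fld_upd bump_cb bump_cd bump_in)

/-- embedding of the noise into the noise of project FD -/
noncomputable def emb (ω : Om) : Pool.Agent.Helper18.FD.Om :=
  fun i => if i.2.1 = 0 then ω (i.1, i.2.2.1, i.2.2.2) else 0

theorem meas_emb : Measurable emb := by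
  refine measurable_pi_iff.mpr fun i => ?_
  unfold emb
  by_cases h : i.2.1 = 0
  · simp only [h, if_true]
    exact measurable_pi_apply _
  · simp only [h, if_false]
    exact measurable_const

private theorem cl_zero : cl 0 = 0 := by
  unfold cl; norm_num

private theorem lv_eq {χ : ℝ → ℝ} (hχ : Bump χ) (g₁ g₂ : ℝ → ℝ) (ω : Om) (l : ℕ) (x : ℝ) :
    lvl χ g₁ g₂ (emb ω) l 0 x = lv g₁ g₂ ω l x := by
  unfold lvl lv
  have hN : 0 < NN l := by unfold NN; positivity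
  rw [Finset.sum_product, Finset.sum_eq_single 0]
  · refine Finset.sum_congr rfl fun i _ => ?_
    have h1 : pr (NN l) χ (0 - ((0 : ℕ) : ℝ) / NN l) = 1 := by
      unfold pr rr
      have : (NN l : ℝ) * ((0 - ((0 : ℕ) : ℝ) / NN l) - round (0 - ((0 : ℕ) : ℝ) / (NN l : ℝ))) = 0 := by
        simp
      rw [this]
      exact hχ.one 0 (by norm_num)
    have e1 : emb ω (l, 0, i, false) = ω (l, i, false) := rfl
    have e2 : emb ω (l, 0, i, true) = ω (l, i, true) := rfl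
    dsimp only
    rw [h1, one_mul, e1, e2]
  · intro c _ hc
    refine Finset.sum_eq_zero fun i _ => ?_
    have h1 : emb ω (l, c, i, false) = 0 := by
      unfold emb; exact if_neg hc
    have h2 : emb ω (l, c, i, true) = 0 := by
      unfold emb; exact if_neg hc
    dsimp only
    rw [h1, h2, cl_zero]
    ring
  · intro h
    exact absurd (Finset.mem_range.mpr hN) h

theorem fd_eq {χ : ℝ → ℝ} (hχ : Bump χ) (g₁ g₂ : ℝ → ℝ) (e : ℝ) (ω : Om) (x : ℝ) :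
    fd g₁ g₂ e ω x = fld χ g₁ g₂ e (emb ω) 0 x := by
  unfold fd fld
  refine tsum_congr fun l => ?_
  rw [lv_eq hχ]

theorem emb_upd (l i : ℕ) (u v : ℝ) (ω : Om) :
    emb (upd l i u v ω) = Pool.Agent.Helper18.FD.upd l (0, i) u v (emb ω) := by
  funext j
  obtain ⟨l', c, i', b⟩ := j
  unfold emb upd Pool.Agent.Helper18.FD.upd
  simp only [Function.update_apply]
  by_cases hc : c = 0
  · subst hc
    simp only [if_true, Prod.mk.injEq, true_and]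
  · simp [hc]

theorem fd_nice {χ : ℝ → ℝ} (hχ : Bump χ) {g₁ g₂ : ℝ → ℝ} (h1 : CB g₁) (h2 : CB g₂) {e : ℝ} (he : 0 < e) :
    ∃ C : ℝ, 0 ≤ C ∧ ∀ ω : Om, Continuous (fd g₁ g₂ e ω) ∧ (∀ x, fd g₁ g₂ e ω (x + 1) = fd g₁ g₂ e ω x) ∧
      ∀ x, |fd g₁ g₂ e ω x| ≤ C := by
  obtain ⟨C, hC, h⟩ := fld_nice (bump_cb hχ).1 h1 h2 he
  refine ⟨C, hC, fun ω => ?_⟩
  have hf : fd g₁ g₂ e ω = fun x => fld χ g₁ g₂ e (emb ω) 0 x := funext fun x => fd_eq hχ g₁ g₂ e ω x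
  have hn := h (emb ω)
  rw [hf]
  refine ⟨hn.cont.comp (continuous_const.prodMk continuous_id), fun x => hn.per2 0 x, fun x => hn.bd 0 x⟩

theorem fd_meas {χ : ℝ → ℝ} (hχ : Bump χ) {g₁ g₂ : ℝ → ℝ} (h1 : CB g₁) (h2 : CB g₂) {e : ℝ} (he : 0 < e) :
    Measurable fun q : Om × ℝ => fd g₁ g₂ e q.1 q.2 := by
  have h := fld_meas (bump_cb hχ).1 h1 h2 he
  have hg : Measurable fun q : Om × ℝ => ((emb q.1, ((0 : ℝ), q.2)) : Pool.Agent.Helper18.FD.Om × (ℝ × ℝ)) :=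
    (meas_emb.comp measurable_fst).prodMk (measurable_const.prodMk measurable_snd)
  have hf : (fun q : Om × ℝ => fd g₁ g₂ e q.1 q.2) =
      (fun p : Pool.Agent.Helper18.FD.Om × (ℝ × ℝ) => fld χ g₁ g₂ e p.1 p.2.1 p.2.2) ∘
        fun q : Om × ℝ => ((emb q.1, ((0 : ℝ), q.2)) : Pool.Agent.Helper18.FD.Om × (ℝ × ℝ)) :=
    funext fun q => fd_eq hχ g₁ g₂ e q.1 q.2
  rw [hf]
  exact h.comp hg

theorem fd_der {χ : ℝ → ℝ} (hχ : Bump χ) {g₁ g₂ : ℝ → ℝ} (h1 : CB g₁) (h2 : CB g₂)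
    (h11 : ContDiff ℝ 1 g₁) (h21 : ContDiff ℝ 1 g₂) {e : ℝ} (he : 1 < e) (ω : Om) (x : ℝ) :
    HasDerivAt (fd g₁ g₂ e ω) (fd (deriv g₁) (deriv g₂) (e - 1) ω x) x := by
  have h := fld_dx (bump_cb hχ).1 h1 h2 h11 h21 he (emb ω) 0 x
  have hf : fd g₁ g₂ e ω = fun x => fld χ g₁ g₂ e (emb ω) 0 x := funext fun x => fd_eq hχ g₁ g₂ e ω x
  rw [hf, fd_eq hχ]
  exact h

theorem fd_hoelder {χ : ℝ → ℝ} (hχ : Bump χ) {g₁ g₂ : ℝ → ℝ} (h1 : CB g₁) (h2 : CB g₂)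
    (h11 : ContDiff ℝ 1 g₁) (h21 : ContDiff ℝ 1 g₂) {s : ℝ} (hs : 0 < s) (hs1 : s < 1) :
    ∃ C : ℝ, 0 ≤ C ∧ ∀ (ω : Om) (x y : ℝ), |fd g₁ g₂ s ω x - fd g₁ g₂ s ω y| ≤ C * |x - y| ^ s := by
  obtain ⟨C, hC, h⟩ := fld_hoelder (bump_cb hχ).1 h1 h2 (bump_cd hχ).1 h11 h21 hs hs1
  refine ⟨C, hC, fun ω x y => ?_⟩
  have h3 := h (emb ω) (0, x) (0, y)
  rw [fd_eq hχ, fd_eq hχ]
  have h4 : dist ((0 : ℝ), x) ((0 : ℝ), y) = |x - y| := by
    rw [Prod.dist_eq, dist_self, Real.dist_eq, max_eq_right (abs_nonneg _)]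
  rw [h4] at h3
  exact h3

theorem fd_upd {χ : ℝ → ℝ} (hχ : Bump χ) {g₁ g₂ : ℝ → ℝ} (h1 : CB g₁) (h2 : CB g₂) {e : ℝ} (he : 0 < e)
    {l i : ℕ} (hi : i < NN l) (u v : ℝ) (ω : Om) (x : ℝ) :
    fd g₁ g₂ e (upd l i u v ω) x = fd g₁ g₂ e ω x + (NN l : ℝ) ^ (-e) *
      ((cl u - cl (ω (l, i, false))) * pr (NN l) g₁ (x - i / NN l) +
        (cl v - cl (ω (l, i, true))) * pr (NN l) g₂ (x - i / NN l)) := by
  have hN : 0 < NN l := by unfold NN; positivity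
  have h := fld_upd (bump_cb hχ).1 h1 h2 he l (0, i) ⟨hN, hi⟩ u v (emb ω) 0 x
  rw [fd_eq hχ, fd_eq hχ, emb_upd, h]
  have h3 : pr (NN l) χ (0 - ((0 : ℕ) : ℝ) / NN l) = 1 := by
    unfold pr rr
    have : (NN l : ℝ) * ((0 - ((0 : ℕ) : ℝ) / NN l) - round (0 - ((0 : ℕ) : ℝ) / (NN l : ℝ))) = 0 := by
      simp
    rw [this]
    exact hχ.one 0 (by norm_num)
  have e1 : emb ω (l, 0, i, false) = ω (l, i, false) := rfl
  have e2 : emb ω (l, 0, i, true) = ω (l, i, true) := rfl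
  simp only at h3 e1 e2 ⊢
  rw [h3, e1, e2, one_mul]

/-- the random potential is of class `C^(2+s)` -/
theorem h_ok {χ : ℝ → ℝ} (hχ : Bump χ) {s : ℝ} (hs : 0 < s) (hs1 : s < 1) :
    ∃ C : ℝ, 1 ≤ C ∧ ∀ ω : Om,
      Continuous (h0 χ s ω) ∧ Continuous (h1 χ s ω) ∧ Continuous (h2 χ s ω) ∧
      (∀ x, h0 χ s ω (x + 1) = h0 χ s ω x) ∧ (∀ x, h1 χ s ω (x + 1) = h1 χ s ω x) ∧
      (∀ x, h2 χ s ω (x + 1) = h2 χ s ω x) ∧
      (∀ x, |h0 χ s ω x| ≤ C) ∧ (∀ x, |h1 χ s ω x| ≤ C) ∧ (∀ x, |h2 χ s ω x| ≤ C) ∧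
      (∀ x, HasDerivAt (h0 χ s ω) (h1 χ s ω x) x) ∧ (∀ x, HasDerivAt (h1 χ s ω) (h2 χ s ω x) x) ∧
      ∀ x y, |h2 χ s ω x - h2 χ s ω y| ≤ C * |x - y| ^ s := by
  obtain ⟨-, c1, c2, -, c3, c4, -, c5, c6⟩ := bump_cb hχ
  obtain ⟨-, d1, d2, -, d3, d4, -, d5, d6⟩ := bump_cd hχ
  obtain ⟨C0, -, H0⟩ := fd_nice hχ c1 c2 (e := 2 + s) (by linarith)
  obtain ⟨C1, -, H1⟩ := fd_nice hχ c3 c4 (e := 1 + s) (by linarith)
  obtain ⟨C2, -, H2⟩ := fd_nice hχ c5 c6 (e := s) hs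
  obtain ⟨C3, hC3, H3⟩ := fd_hoelder hχ c5 c6 d5 d6 hs hs1
  refine ⟨max (max 1 C0) (max C1 (max C2 C3)), (le_max_left _ _).trans (le_max_left _ _), fun ω => ?_⟩
  have m0 : C0 ≤ max (max 1 C0) (max C1 (max C2 C3)) := (le_max_right _ _).trans (le_max_left _ _)
  have m1 : C1 ≤ max (max 1 C0) (max C1 (max C2 C3)) := (le_max_left _ _).trans (le_max_right _ _)
  have m2 : C2 ≤ max (max 1 C0) (max C1 (max C2 C3)) :=
    ((le_max_left _ _).trans (le_max_right _ _)).trans (le_max_right _ _)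
  have m3 : C3 ≤ max (max 1 C0) (max C1 (max C2 C3)) :=
    ((le_max_right _ _).trans (le_max_right _ _)).trans (le_max_right _ _)
  refine ⟨(H0 ω).1, (H1 ω).1, (H2 ω).1, (H0 ω).2.1, (H1 ω).2.1, (H2 ω).2.1,
    fun x => ((H0 ω).2.2 x).trans m0, fun x => ((H1 ω).2.2 x).trans m1,
    fun x => ((H2 ω).2.2 x).trans m2, fun x => ?_, fun x => ?_, fun x y => ?_⟩
  · have h := fd_der hχ c1 c2 d1 d2 (e := 2 + s) (by linarith) ω x
    rw [show 2 + s - 1 = 1 + s by ring] at h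
    exact h
  · have h := fd_der hχ c3 c4 d3 d4 (e := 1 + s) (by linarith) ω x
    rw [show 1 + s - 1 = s by ring] at h
    exact h
  · refine (H3 ω x y).trans ?_
    exact mul_le_mul_of_nonneg_right m3 (Real.rpow_nonneg (abs_nonneg _) _)

theorem h_meas {χ : ℝ → ℝ} (hχ : Bump χ) {s : ℝ} (hs : 0 < s) :
    (Measurable fun q : Om × ℝ => h0 χ s q.1 q.2) ∧ (Measurable fun q : Om × ℝ => h1 χ s q.1 q.2) ∧
      Measurable fun q : Om × ℝ => h2 χ s q.1 q.2 := by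
  obtain ⟨-, c1, c2, -, c3, c4, -, c5, c6⟩ := bump_cb hχ
  exact ⟨fd_meas hχ c1 c2 (by linarith), fd_meas hχ c3 c4 (by linarith), fd_meas hχ c5 c6 hs⟩

/-- off the cell nothing changes -/
theorem h_out {χ : ℝ → ℝ} (hχ : Bump χ) {s : ℝ} (hs : 0 < s) {l i : ℕ} (hi : i < NN l) (u v : ℝ) (ω : Om)
    {x : ℝ} (h : 1 ≤ |(NN l : ℝ) * rr (x - i / NN l)|) :
    h1 χ s (upd l i u v ω) x = h1 χ s ω x ∧ h2 χ s (upd l i u v ω) x = h2 χ s ω x := by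
  obtain ⟨-, c1, c2, -, c3, c4, -, c5, c6⟩ := bump_cb hχ
  constructor
  · unfold h1
    rw [fd_upd hχ c3 c4 (by linarith) hi]
    unfold pr
    rw [c3.zero _ h, c4.zero _ h]
    ring
  · unfold h2
    rw [fd_upd hχ c5 c6 hs hi]
    unfold pr
    rw [c5.zero _ h, c6.zero _ h]
    ring

/-- in the inner part of the cell the potential changes by a quadratic polynomial -/
theorem h_inn {χ : ℝ → ℝ} (hχ : Bump χ) {s : ℝ} (hs : 0 < s) {l i : ℕ} (hi : i < NN l) (u v : ℝ) (ω : Om)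
    {x : ℝ} (h : |(NN l : ℝ) * rr (x - i / NN l)| ≤ 1 / 2) :
    h1 χ s (upd l i u v ω) x = h1 χ s ω x + (NN l : ℝ) ^ (-(1 + s)) *
      ((cl u - cl (ω (l, i, false))) + (cl v - cl (ω (l, i, true))) * ((NN l : ℝ) * rr (x - i / NN l))) ∧
    h2 χ s (upd l i u v ω) x = h2 χ s ω x + (NN l : ℝ) ^ (-s) * (cl v - cl (ω (l, i, true))) := by
  obtain ⟨-, c1, c2, -, c3, c4, -, c5, c6⟩ := bump_cb hχ
  obtain ⟨-, -, -, b1, b2, b3, b4⟩ := bump_in hχ h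
  constructor
  · unfold h1
    rw [fd_upd hχ c3 c4 (by linarith) hi]
    unfold pr
    rw [b1, b2]
    ring
  · unfold h2
    rw [fd_upd hχ c5 c6 hs hi]
    unfold pr
    rw [b3, b4]
    ring

end Pool.Agent.Helper95.PV
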