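import Pool.Agent.Helper95.PV.Dec
import Pool.Agent.Helper18.PW.Abs

/-! The random standard map as an abstract system with kicks (`Pool.Agent.Helper18.PW.Sz`). -/

set_option autoImplicit false
open MeasureTheory Real Set
open scoped ENNReal

namespace Pool.Agent.Helper95.PV

open Pool.Agent.Helper18.UC (T2 rep toT nn)
open Pool.Agent.Helper18.FD (NN rr pr cl uu lm Bump k1 k2 NN_pos NN_ge rr_add_int rr_of_small)

theorem one_le_Lam {d : Dat} (hd : d.Ok) : 1 ≤ Lam d ∧ 1 + Real.log (1 / d.κ) ≤ Lam d ∧ 0 ≤ Real.log (1 / d.κ) := by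
  have h1 : 0 ≤ Real.log |d.a| := Real.log_nonneg (le_trans (by norm_num) hd.ha)
  have h2 : 0 ≤ Real.log (1 / d.κ) := by
    apply Real.log_nonneg
    rw [le_div_iff₀ hd.hκ]
    linarith [hd.hκ1]
  unfold Lam
  exact ⟨by linarith, by linarith, h2⟩

/-- the random standard map as an abstract system with kicks -/
noncomputable def Ks (d : Dat) : Pool.Agent.Helper18.PV.Sy Ix where
  F := fun ω x => cc d ω x - (x + x)
  idx := fun l c => (l, c, false)
  amp := fun l => d.a * d.κ * (NN l : ℝ) ^ (-(1 + d.s))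
  cel := cel

theorem Ks_ok {d : Dat} (hd : d.Ok) : (Ks d).Ok (2 / d.κ) d.s where
  meas := (meas_cc hd).sub (measurable_snd.add measurable_snd)
  mcel := meas_cel
  cel_lt := cel_lt
  hB := by
    rw [le_div_iff₀ hd.hκ]
    linarith [hd.hκ1]
  amp_ne := fun l => by
    have h1 : (0 : ℝ) < NN l := by exact_mod_cast NN_pos l
    have h2 : (0 : ℝ) < (NN l : ℝ) ^ (-(1 + d.s)) := Real.rpow_pos_of_pos h1 _
    have h3 : d.a ≠ 0 := by
      intro h
      have := hd.ha
      rw [h, abs_zero] at this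
      linarith
    exact mul_ne_zero (mul_ne_zero h3 hd.hκ.ne') h2.ne'
  amp_bd := fun l => by
    have h1 : (0 : ℝ) < NN l := by exact_mod_cast NN_pos l
    have h1' : (1 : ℝ) ≤ NN l := by exact_mod_cast NN_pos l
    have h2 : (0 : ℝ) < (NN l : ℝ) ^ (-(1 + d.s)) := Real.rpow_pos_of_pos h1 _
    have hs := hd.hs
    have h3 : (1 : ℝ) ≤ (NN l : ℝ) ^ (1 + d.s) := Real.one_le_rpow h1' (by linarith)
    have ha := hd.ha
    have hκ := hd.hκ
    have hκ1 := hd.hκ1
    have e : |(Ks d).amp l| = |d.a| * d.κ * (NN l : ℝ) ^ (-(1 + d.s)) := by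
      show |d.a * d.κ * (NN l : ℝ) ^ (-(1 + d.s))| = _
      rw [abs_mul, abs_mul, abs_of_pos hκ, abs_of_pos h2]
    rw [e, Real.rpow_neg h1.le]
    have h4 : 1 / (2 * (|d.a| * d.κ * ((NN l : ℝ) ^ (1 + d.s))⁻¹)) = (NN l : ℝ) ^ (1 + d.s) / (2 * |d.a| * d.κ) := by
      have : |d.a| ≠ 0 := by linarith
      field_simp
    have h5 : (NN l : ℝ) ^ (1 + d.s) / (2 * |d.a| * d.κ) ≤ (NN l : ℝ) ^ (1 + d.s) / d.κ := by
      apply div_le_div_of_nonneg_left (by linarith) hκ
      nlinarith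
    have h6 : 1 ≤ (NN l : ℝ) ^ (1 + d.s) / d.κ := by
      rw [le_div_iff₀ hκ]
      nlinarith
    have h7 : 2 / d.κ * (NN l : ℝ) ^ (1 + d.s) = (NN l : ℝ) ^ (1 + d.s) / d.κ + (NN l : ℝ) ^ (1 + d.s) / d.κ := by ring
    rw [h4, h7]
    linarith
  ne := fun l x y hxy h => by
    have h1 : cel l x = cel l y := by
      have := congrArg (fun i : Ix => i.2.1) h
      exact this
    have hN : (0 : ℝ) < NN l := by exact_mod_cast NN_pos l
    have h2 := out_of_far2 (inn_cel l x) (y := y) (by rwa [dist_comm])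
    have h3 := inn_cel l y
    rw [h1] at h2
    unfold out at h2
    unfold inn at h3
    linarith
  off := fun l ω u x y hxy => by
    have h2 := out_of_far2 (inn_cel l x) (y := y) (by rwa [dist_comm])
    show cc d (Function.update ω (l, cel l x, false) u) y - (y + y) = cc d ω y - (y + y)
    rw [update_eq, (cc_out hd (cel_lt l x) _ _ h2).1]
  on := fun l ω u x => by
    show cc d (Function.update ω (l, cel l x, false) u) x - (x + x) =
      cc d (Function.update ω (l, cel l x, false) 0) x - (x + x) +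
        ((d.a * d.κ * (NN l : ℝ) ^ (-(1 + d.s)) * cl u : ℝ) : UnitAddCircle)
    rw [update_eq, update_eq, (cc_inn hd (cel_lt l x) _ _ (inn_cel l x)).1,
      (cc_inn hd (cel_lt l x) _ _ (inn_cel l x)).1]
    have e : d.a * d.κ * (NN l : ℝ) ^ (-(1 + d.s)) * ((cl u - cl (ω (l, cel l x, false))) +
        (cl (ω (l, cel l x, true)) - cl (ω (l, cel l x, true))) * tc l (cel l x) x) =
        d.a * d.κ * (NN l : ℝ) ^ (-(1 + d.s)) * ((cl 0 - cl (ω (l, cel l x, false))) +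
        (cl (ω (l, cel l x, true)) - cl (ω (l, cel l x, true))) * tc l (cel l x) x) +
        d.a * d.κ * (NN l : ℝ) ^ (-(1 + d.s)) * cl u := by
      have : cl 0 = 0 := by unfold cl; norm_num
      rw [this]
      ring
    rw [e, AddCircle.coe_add]
    abel

/-- the random standard map as an abstract system with two coordinates per cell -/
noncomputable def Kz (d : Dat) : Pool.Agent.Helper18.PW.Sz Ix where
  toSy := Ks d
  i1 := fun l c => (l, c, true)
  tc := tc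

theorem up_eq (d : Dat) (l c : ℕ) (u v : ℝ) (ω : Om) : (Kz d).up l c u v ω = upd l c u v ω := rfl

theorem cel_near {N : ℝ} {δ t t' : ℝ} (hδ : |δ| * N ≤ 1 / 8) (hN : 0 < N) (ht : |t| ≤ 1 / 2) (ht' : |t'| ≤ 1 / 2)
    (k : ℤ) (hk : t' - 2 * t = k) (h : 1 / 2 < |t + N * δ|) : |t' + 2 * N * δ| ≤ 1 / 2 := by
  by_contra hc
  push Not at hc
  have e1 : |N * δ| ≤ 1 / 8 := by rw [abs_mul, abs_of_pos hN]; linarith
  rw [abs_le] at ht ht' e1
  have e2 : |2 * N * δ| ≤ 1 / 4 := by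
    rw [show 2 * N * δ = 2 * (N * δ) by ring, abs_mul, abs_two]
    have := abs_le.2 e1
    linarith
  rw [abs_le] at e2
  have hk1 : -1 < (k : ℝ) ∧ (k : ℝ) < 1 ∧ (k : ℝ) ≠ 0 := by
    rw [← hk]
    rcases lt_abs.1 h with h1 | h1 <;> rcases lt_abs.1 hc with h2 | h2
    · refine ⟨by nlinarith, by nlinarith, fun h0 => by nlinarith⟩
    · exfalso
      nlinarith
    · exfalso
      nlinarith
    · refine ⟨by nlinarith, by nlinarith, fun h0 => by nlinarith⟩
  obtain ⟨h1, h2, h3⟩ := hk1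
  have h4 : (-1 : ℤ) < k := by exact_mod_cast h1
  have h5 : k < (1 : ℤ) := by exact_mod_cast h2
  have h6 : k = 0 := by omega
  exact h3 (by exact_mod_cast h6)

theorem tc_add {l i : ℕ} {x : UnitAddCircle} (hx : |tc l i x| ≤ 1 / 2) {δ : ℝ} (hδ : |δ| ≤ 1 / 4) :
    tc l i (x + ((δ : ℝ) : UnitAddCircle)) = tc l i x + NN l * δ := by
  have hN := NN_ge l
  have hN0 : (0 : ℝ) < NN l := by linarith
  obtain ⟨X, rfl⟩ : ∃ X : ℝ, (X : UnitAddCircle) = x := ⟨rp x, coe_rp x⟩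
  rw [← AddCircle.coe_add, tc_coe, tc_coe]
  rw [tc_coe, abs_mul, abs_of_pos hN0] at hx
  have h1 : |rr (X - i / NN l)| ≤ 1 / 16 := by nlinarith [abs_nonneg (rr (X - (i : ℝ) / NN l))]
  have h2 : X + δ - i / NN l = (rr (X - i / NN l) + δ) + ((round (X - (i : ℝ) / NN l) : ℤ) : ℝ) := by
    unfold rr
    ring
  rw [h2, rr_add_int, rr_of_small (by
    refine lt_of_le_of_lt (abs_add_le _ _) ?_
    linarith)]
  ring

theorem tc_dist {l i : ℕ} (x y : UnitAddCircle) : (NN l : ℝ) * dist x y ≤ |tc l i x - tc l i y| := by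
  have hN0 : (0 : ℝ) < NN l := by exact_mod_cast NN_pos l
  obtain ⟨X, rfl⟩ : ∃ X : ℝ, (X : UnitAddCircle) = x := ⟨rp x, coe_rp x⟩
  obtain ⟨Y, rfl⟩ : ∃ X : ℝ, (X : UnitAddCircle) = y := ⟨rp y, coe_rp y⟩
  rw [tc_coe, tc_coe, ← mul_sub, abs_mul, abs_of_pos hN0, dist_coe]
  refine mul_le_mul_of_nonneg_left ?_ hN0.le
  have h2 : X - Y = (rr (X - i / NN l) - rr (Y - i / NN l)) +
      ((round (X - (i : ℝ) / NN l) - round (Y - (i : ℝ) / NN l) : ℤ) : ℝ) := by
    unfold rr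
    push_cast
    ring
  rw [h2, rr_add_int]
  have := round_le (rr (X - i / NN l) - rr (Y - i / NN l)) 0
  unfold rr at this ⊢
  simpa using this

theorem near_cel (l : ℕ) (x y : UnitAddCircle) (h : dist x y ≤ 1 / (8 * (NN l : ℝ))) :
    ∃ l', (l' = l ∨ l' = l + 1) ∧ |tc l' (cel l' x) y| ≤ 1 / 2 := by
  have hN := NN_ge l
  have hN0 : (0 : ℝ) < NN l := by linarith
  obtain ⟨δ, hδ, hy⟩ : ∃ δ : ℝ, |δ| ≤ 1 / (8 * (NN l : ℝ)) ∧ y = x + ((δ : ℝ) : UnitAddCircle) := by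
    obtain ⟨X, rfl⟩ : ∃ X : ℝ, (X : UnitAddCircle) = x := ⟨rp x, coe_rp x⟩
    obtain ⟨Y, rfl⟩ : ∃ X : ℝ, (X : UnitAddCircle) = y := ⟨rp y, coe_rp y⟩
    rw [dist_comm, dist_coe] at h
    refine ⟨rr (Y - X), h, ?_⟩
    rw [← AddCircle.coe_add]
    have : Y = X + rr (Y - X) + ((round (Y - X) : ℤ) : ℝ) := by
      unfold rr
      ring
    conv_lhs => rw [this]
    have h3 : (((round (Y - X) : ℤ) : ℝ) : UnitAddCircle) = 0 :=
      (AddCircle.coe_eq_zero_iff (1 : ℝ)).mpr ⟨round (Y - X), by simp⟩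
    rw [AddCircle.coe_add, h3, add_zero]
  have hδ8 : |δ| * NN l ≤ 1 / 8 := by
    rw [le_div_iff₀ (by positivity)] at hδ
    linarith
  have hδ4 : |δ| ≤ 1 / 4 := by nlinarith [abs_nonneg δ]
  have i1 := inn_cel l x
  have i2 := inn_cel (l + 1) x
  unfold inn at i1 i2
  by_cases h1 : |tc l (cel l x) y| ≤ 1 / 2
  · exact ⟨l, Or.inl rfl, h1⟩
  refine ⟨l + 1, Or.inr rfl, ?_⟩
  push Not at h1
  rw [hy, tc_add i1 hδ4] at h1
  rw [hy, tc_add i2 hδ4]
  have hNN : (NN (l + 1) : ℝ) = 2 * NN l := by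
    unfold Pool.Agent.Helper18.FD.NN
    push_cast
    ring
  rw [hNN]
  obtain ⟨X, rfl⟩ : ∃ X : ℝ, (X : UnitAddCircle) = x := ⟨rp x, coe_rp x⟩
  obtain ⟨k, hk⟩ : ∃ k : ℤ, tc (l + 1) (cel (l + 1) (X : UnitAddCircle)) (X : UnitAddCircle) -
      2 * tc l (cel l (X : UnitAddCircle)) (X : UnitAddCircle) = k := by
    rw [tc_coe, tc_coe, hNN]
    unfold rr
    refine ⟨2 * (cel l (X : UnitAddCircle) : ℤ) - (cel (l + 1) (X : UnitAddCircle) : ℤ) +
      2 * (NN l : ℤ) * (round (X - (cel l (X : UnitAddCircle) : ℝ) / NN l) -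
      round (X - (cel (l + 1) (X : UnitAddCircle) : ℝ) / (2 * NN l))), ?_⟩
    push_cast
    field_simp
    ring
  exact cel_near hδ8 hN0 i1 i2 k hk h1

theorem meas_tc (l i : ℕ) : Measurable (tc l i) := by
  have h1 : Measurable fun x : ℝ => (NN l : ℝ) * rr (x - i / NN l) := by
    have h2 : Measurable rr := by
      have : rr = fun x : ℝ => x - ((⌊x + 1 / 2⌋ : ℤ) : ℝ) := by
        funext x
        unfold rr
        rw [round_eq]
      rw [this]
      exact measurable_id.sub ((measurable_of_countable _).comp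
        (Int.measurable_floor.comp (measurable_id.add_const _)))
    exact (h2.comp (measurable_id.sub_const _)).const_mul _
  exact h1.comp meas_rp

theorem Kz_ok {d : Dat} (hd : d.Ok) : (Kz d).Ok (2 / d.κ) d.s where
  sy := Ks_ok hd
  hs := hd.hs
  hs1 := hd.hs1
  mtc := meas_tc
  amp2 := fun l => by
    have h1 : (0 : ℝ) < NN l := by exact_mod_cast NN_pos l
    have h1' : (1 : ℝ) ≤ NN l := by exact_mod_cast NN_pos l
    have h2 : (0 : ℝ) < (NN l : ℝ) ^ (-(1 + d.s)) := Real.rpow_pos_of_pos h1 _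
    have hs := hd.hs
    have h3 : (1 : ℝ) ≤ (NN l : ℝ) ^ (1 + d.s) := Real.one_le_rpow h1' (by linarith)
    have ha := hd.ha
    have hκ := hd.hκ
    have hκ1 := hd.hκ1
    have e : |(Kz d).amp l| = |d.a| * d.κ * (NN l : ℝ) ^ (-(1 + d.s)) := by
      show |d.a * d.κ * (NN l : ℝ) ^ (-(1 + d.s))| = _
      rw [abs_mul, abs_mul, abs_of_pos hκ, abs_of_pos h2]
    rw [e, Real.rpow_neg h1.le]
    have h4 : 1 / (|d.a| * d.κ * ((NN l : ℝ) ^ (1 + d.s))⁻¹) = (NN l : ℝ) ^ (1 + d.s) / (|d.a| * d.κ) := by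
      have : |d.a| ≠ 0 := by linarith
      field_simp
    have h5 : (NN l : ℝ) ^ (1 + d.s) / (|d.a| * d.κ) ≤ (NN l : ℝ) ^ (1 + d.s) / d.κ := by
      apply div_le_div_of_nonneg_left (by linarith) hκ
      nlinarith
    have h6 : 1 ≤ (NN l : ℝ) ^ (1 + d.s) / d.κ := by
      rw [le_div_iff₀ hκ]
      nlinarith
    have h7 : 2 / d.κ * (NN l : ℝ) ^ (1 + d.s) = (NN l : ℝ) ^ (1 + d.s) / d.κ + (NN l : ℝ) ^ (1 + d.s) / d.κ := by ring
    rw [h4, h7]
    linarith
  i01 := fun l c l' c' h => by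
    have h1 : ((l, c, false) : Ix) = (l', c', true) := h
    simp at h1
  i0i := fun l c l' c' h => by
    have h1 : ((l, c, false) : Ix) = (l', c', false) := h
    simpa using h1
  i1i := fun l c l' c' h => by
    have h1 : ((l, c, true) : Ix) = (l', c', true) := h
    simpa using h1
  inn := inn_cel
  off2 := fun l c ω u v x y hc hx hxy => by
    have h2 := out_of_far2 (y := y) (show inn l c x from hx) (by rwa [dist_comm])
    show cc d (upd l c u v ω) y - (y + y) = cc d ω y - (y + y)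
    rw [(cc_out hd hc _ _ h2).1]
  on2 := fun l c ω u v x hc hx => by
    show cc d (upd l c u v ω) x - (x + x) = cc d (upd l c 0 0 ω) x - (x + x) +
        ((d.a * d.κ * (NN l : ℝ) ^ (-(1 + d.s)) * (cl u + cl v * tc l c x) : ℝ) : UnitAddCircle)
    rw [(cc_inn hd hc u v (show inn l c x from hx)).1, (cc_inn hd hc 0 0 (show inn l c x from hx)).1]
    have e : d.a * d.κ * (NN l : ℝ) ^ (-(1 + d.s)) * ((cl u - cl (ω (l, c, false))) +
        (cl v - cl (ω (l, c, true))) * tc l c x) =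
        d.a * d.κ * (NN l : ℝ) ^ (-(1 + d.s)) * ((cl 0 - cl (ω (l, c, false))) +
        (cl 0 - cl (ω (l, c, true))) * tc l c x) +
        d.a * d.κ * (NN l : ℝ) ^ (-(1 + d.s)) * (cl u + cl v * tc l c x) := by
      have : cl 0 = 0 := by unfold cl; norm_num
      rw [this]
      ring
    rw [e, AddCircle.coe_add]
    abel
  td := fun l c x y _ _ _ => tc_dist x y
  near := near_cel

end Pool.Agent.Helper95.PV
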