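import Pool.Agent.Helper95.PV.Bas

/-! Block PV-LW: the integrated exponent for a fixed noise. Port of `FD/Lw.lean`.

* `un_one`: `Mm_one`, `nn_mv`, `law_rp`. `Lw_le_Hi`: `Lw_le` with `n = 1`. `Hi_bd`: `1 ≤ |..| + 2 ≤ |a|³`. `meas_Hi`: `Hi = un 1`.
* `Hi_mean`: Fubini and `law_vv`. -/

set_option autoImplicit false
open MeasureTheory Real Set Filter Topology
open scoped ENNReal

namespace Pool.Agent.Helper95.PV

open Pool.Agent.Helper18.UC (T2 rep toT nn nn_nonneg nn_mul nn_one)
open Pool.Agent.Helper18.FD (NN rr pr cl uu lm Bump k1 k2 NN_pos NN_ge)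

variable {d : Dat}

noncomputable def un (d : Dat) (ω : Om) (n : ℕ) : ℝ := ∫ z : T2, Real.log (nn (Mm d n (ω, z)))

/-- the integrated exponent -/
noncomputable def Lw (d : Dat) (ω : Om) : ℝ := ⨅ n : ℕ, un d ω (n + 1) / (n + 1 : ℝ)

/-- the upper bound of the integrated exponent -/
noncomputable def Hi (d : Dat) (ω : Om) : ℝ := ∫ x in (0 : ℝ)..1, Real.log (|2 + d.a * d.p2 ω x| + 2)

private theorem ms57 (hd : d.Ok) (ω : Om) (n : ℕ) :
    Measurable fun z : T2 => Real.log (nn (Mm d n (ω, z))) :=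
  ((meas_nn hd n).comp measurable_prodMk_left).log

private theorem bd57 (hd : d.Ok) (n : ℕ) (p : Pt) :
    ‖Real.log (nn (Mm d n p))‖ ≤ Real.log 2 + n * (3 * Real.log |d.a|) := by
  obtain ⟨h1, h2⟩ := log_nn_bd hd n p
  rw [Real.norm_eq_abs, abs_of_nonneg h1]
  exact h2

private theorem in57 (hd : d.Ok) (ω : Om) (n : ℕ) :
    Integrable (fun z : T2 => Real.log (nn (Mm d n (ω, z)))) volume :=
  Integrable.of_bound (ms57 hd ω n).aestronglyMeasurable
    (Real.log 2 + n * (3 * Real.log |d.a|)) (Eventually.of_forall fun _ => bd57 hd n _)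

private theorem la57 (hd : d.Ok) : 0 ≤ 3 * Real.log |d.a| := by
  have := hd.ha
  have h := Real.log_nonneg (by linarith : (1 : ℝ) ≤ |d.a|)
  linarith

theorem un_sub (hd : d.Ok) (ω : Om) (m n : ℕ) : un d ω (m + n) ≤ un d ω m + un d ω n := by
  have hT := (Tw_mp hd ω).iterate n
  have h1 : ∫ z : T2, Real.log (nn (Mm d m (ω, (Tw d ω)^[n] z))) = un d ω m := by
    have h := integral_map (μ := volume) hT.measurable.aemeasurable
      (f := fun z : T2 => Real.log (nn (Mm d m (ω, z)))) (ms57 hd ω m).aestronglyMeasurable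
    rw [hT.map_eq] at h
    exact h.symm
  have h2 : Integrable (fun z : T2 => Real.log (nn (Mm d m (ω, (Tw d ω)^[n] z)))) volume :=
    Integrable.of_bound ((ms57 hd ω m).comp hT.measurable).aestronglyMeasurable
      (Real.log 2 + m * (3 * Real.log |d.a|)) (Eventually.of_forall fun _ => bd57 hd m _)
  rw [← h1]
  unfold un
  rw [← integral_add h2 (in57 hd ω n)]
  refine integral_mono (in57 hd ω (m + n)) (h2.add (in57 hd ω n)) fun z => ?_
  have e1 : Mm d (m + n) (ω, z) = Mm d m (ω, (Tw d ω)^[n] z) * Mm d n (ω, z) := by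
    rw [Mm_add, sk_iter]
  have p1 : 0 < nn (Mm d m (ω, (Tw d ω)^[n] z)) := by
    have := nn_ge_two (det_Mm (d := d) m (ω, (Tw d ω)^[n] z))
    linarith
  have p2 : 0 < nn (Mm d n (ω, z)) := by
    have := nn_ge_two (det_Mm (d := d) n (ω, z))
    linarith
  have p3 : 0 < nn (Mm d (m + n) (ω, z)) := by
    have := nn_ge_two (det_Mm (d := d) (m + n) (ω, z))
    linarith
  change Real.log (nn (Mm d (m + n) (ω, z))) ≤
    Real.log (nn (Mm d m (ω, (Tw d ω)^[n] z))) + Real.log (nn (Mm d n (ω, z)))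
  rw [← Real.log_mul p1.ne' p2.ne']
  refine Real.log_le_log p3 ?_
  rw [e1]
  exact nn_mul _ _

theorem un_bd (hd : d.Ok) (ω : Om) (n : ℕ) :
    0 ≤ un d ω n ∧ un d ω n ≤ Real.log 2 + n * (3 * Real.log |d.a|) := by
  constructor
  · exact integral_nonneg fun z => (log_nn_bd hd n (ω, z)).1
  · have h := integral_mono (in57 hd ω n)
      (integrable_const (Real.log 2 + n * (3 * Real.log |d.a|)))
      fun z => (log_nn_bd hd n (ω, z)).2
    rw [integral_const, probReal_univ, one_smul] at h
    exact h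

private theorem bdd57 (hd : d.Ok) (ω : Om) :
    BddBelow (Set.range fun n : ℕ => un d ω n / n) := by
  refine ⟨0, ?_⟩
  rintro _ ⟨n, rfl⟩
  exact div_nonneg (un_bd hd ω n).1 (Nat.cast_nonneg n)

private theorem lim57 (hd : d.Ok) (ω : Om) :
    (show Subadditive (un d ω) from fun m n => un_sub hd ω m n).lim = Lw d ω := by
  unfold Subadditive.lim Lw
  rw [iInf]
  congr 1
  ext x
  constructor
  · rintro ⟨n, hn, rfl⟩
    have hn1 : 1 ≤ n := hn
    refine ⟨n - 1, ?_⟩
    have h1 : n - 1 + 1 = n := by omega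
    have h2 : (((n - 1 : ℕ) : ℝ) + 1) = n := by
      rw [← Nat.cast_add_one, h1]
    simp only [h1, h2]
  · rintro ⟨n, rfl⟩
    refine ⟨n + 1, ?_, ?_⟩
    · change 1 ≤ n + 1
      omega
    · simp only [Nat.cast_add, Nat.cast_one]

theorem Lw_tendsto (hd : d.Ok) (ω : Om) :
    Tendsto (fun n : ℕ => un d ω n / n) atTop (𝓝 (Lw d ω)) := by
  rw [← lim57 hd ω]
  exact Subadditive.tendsto_lim _ (bdd57 hd ω)

theorem Lw_le (hd : d.Ok) (ω : Om) (n : ℕ) : n * Lw d ω ≤ un d ω n := by
  rcases Nat.eq_zero_or_pos n with h | h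
  · subst h
    simpa using (un_bd hd ω 0).1
  · have hn : (0 : ℝ) < n := by exact_mod_cast h
    rw [← lim57 hd ω]
    have h1 := Subadditive.lim_le_div
      (show Subadditive (un d ω) from fun m n => un_sub hd ω m n) (bdd57 hd ω) h.ne'
    rw [le_div_iff₀ hn] at h1
    linarith

theorem Lw_bd (hd : d.Ok) (ω : Om) : 0 ≤ Lw d ω ∧ Lw d ω ≤ 3 * Real.log |d.a| := by
  constructor
  · exact ge_of_tendsto' (Lw_tendsto hd ω) fun n =>
      div_nonneg (un_bd hd ω n).1 (Nat.cast_nonneg n)
  · have h1 : Tendsto (fun n : ℕ => Real.log 2 / n + 3 * Real.log |d.a|) atTop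
        (𝓝 (0 + 3 * Real.log |d.a|)) :=
      (tendsto_const_div_atTop_nhds_zero_nat _).add_const _
    rw [zero_add] at h1
    refine le_of_tendsto_of_tendsto (Lw_tendsto hd ω) h1 ?_
    filter_upwards [eventually_ge_atTop 1] with n hn
    have hnp : (0 : ℝ) < n := by exact_mod_cast hn
    rw [div_le_iff₀ hnp, add_mul, div_mul_cancel₀ _ hnp.ne']
    have := (un_bd hd ω n).2
    linarith

theorem meas_un (hd : d.Ok) (n : ℕ) : Measurable fun ω => un d ω n := by
  have h : Measurable fun p : Pt => Real.log (nn (Mm d n p)) := (meas_nn hd n).log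
  exact (h.stronglyMeasurable.integral_prod_right' (ν := (volume : Measure T2))).measurable

theorem meas_Lw (hd : d.Ok) : Measurable (Lw d) := by
  refine measurable_of_tendsto_metrizable (f := fun n : ℕ => fun ω => un d ω n / n)
    (fun n => (meas_un hd n).div_const _) ?_
  rw [tendsto_pi_nhds]
  exact fun ω => Lw_tendsto hd ω

theorem Em_eq (hd : d.Ok) (n : ℕ) : Em d n = ∫ ω, un d ω n ∂PP := by
  have h := int_log_nn hd n
  unfold Em un
  unfold mu at h ⊢
  exact integral_prod _ h

theorem Lw_int (hd : d.Ok) :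
    Tendsto (fun n : ℕ => Em d n / n) atTop (𝓝 (∫ ω, Lw d ω ∂PP)) := by
  have h := tendsto_integral_of_dominated_convergence (μ := PP)
    (F := fun n : ℕ => fun ω => un d ω n / n) (f := Lw d)
    (fun _ => Real.log 2 + 3 * Real.log |d.a|)
    (fun n => ((meas_un hd n).div_const _).aestronglyMeasurable) (integrable_const _)
    (fun n => Eventually.of_forall fun ω => ?_)
    (Eventually.of_forall fun ω => Lw_tendsto hd ω)
  · refine h.congr fun n => ?_
    rw [integral_div, Em_eq hd n]
  · obtain ⟨h1, h2⟩ := un_bd hd ω n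
    rw [Real.norm_eq_abs, abs_of_nonneg (div_nonneg h1 (Nat.cast_nonneg n))]
    have hl := la57 hd
    have hl2 : 0 ≤ Real.log 2 := Real.log_nonneg (by norm_num)
    rcases Nat.eq_zero_or_pos n with h | h
    · subst h
      simp only [Nat.cast_zero, div_zero]
      linarith
    · have hnp : (0 : ℝ) < n := by exact_mod_cast h
      have hn1 : (1 : ℝ) ≤ n := by exact_mod_cast h
      rw [div_le_iff₀ hnp]
      have : Real.log 2 * 1 ≤ Real.log 2 * n := mul_le_mul_of_nonneg_left hn1 hl2
      linarith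

private theorem log_vv57 (hd : d.Ok) (p : Pt) :
    0 ≤ Real.log (|vv d p| + 2) ∧ Real.log (|vv d p| + 2) ≤ 3 * Real.log |d.a| := by
  have h := nn_mv_le hd p
  rw [nn_mv] at h
  have h0 := abs_nonneg (vv d p)
  refine ⟨Real.log_nonneg (by linarith), ?_⟩
  have h1 := Real.log_le_log (by linarith) h
  rw [Real.log_pow] at h1
  exact_mod_cast h1

/-- the function on the line -/
private noncomputable def ff57 (d : Dat) (q : Om × ℝ) : ℝ := Real.log (|2 + d.a * d.p2 q.1 q.2| + 2)

private theorem ff57_meas (hd : d.Ok) : Measurable (ff57 d) := by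
  have h := (((p_meas hd).2.const_mul d.a).const_add 2)
  have h2 : Measurable fun q : Om × ℝ => |2 + d.a * d.p2 q.1 q.2| := by
    have := continuous_abs.measurable.comp h
    simpa [Function.comp_def] using this
  exact (h2.add_const 2).log

private theorem Hi57 (d : Dat) (ω : Om) : Hi d ω = ∫ x in Ico (0 : ℝ) 1, ff57 d (ω, x) := by
  unfold Hi
  rw [intervalIntegral.integral_of_le zero_le_one, integral_Ico_eq_integral_Ioc]
  rfl

private theorem prob57 : IsProbabilityMeasure (volume : Measure UnitAddCircle) := by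
  constructor
  rw [UnitAddCircle.measure_univ]

private theorem fst57 : MeasurePreserving (Prod.fst : T2 → UnitAddCircle) volume volume := by
  have hp := prob57
  exact measurePreserving_fst (μ := (volume : Measure UnitAddCircle)) (ν := (volume : Measure UnitAddCircle))

theorem un_one (hd : d.Ok) (ω : Om) : un d ω 1 = Hi d ω := by
  have h0 : MeasurePreserving (fun z : T2 => rp z.1) volume (volume.restrict (Ico (0 : ℝ) 1)) := by
    have h1 : MeasurePreserving rp volume (volume.restrict (Ico (0 : ℝ) 1)) := ⟨meas_rp, law_rp⟩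
    exact h1.comp fst57
  have hm : Measurable fun x : ℝ => ff57 d (ω, x) := (ff57_meas hd).comp measurable_prodMk_left
  rw [Hi57]
  have h := integral_map (μ := (volume : Measure T2)) h0.measurable.aemeasurable
    (f := fun x : ℝ => ff57 d (ω, x)) hm.aestronglyMeasurable
  rw [h0.map_eq] at h
  rw [h]
  unfold un
  refine integral_congr_ae (Eventually.of_forall fun z => ?_)
  change Real.log (nn (Mm d 1 (ω, z))) = ff57 d (ω, rp z.1)
  rw [Mm_one, nn_mv]
  rfl

theorem Lw_le_Hi (hd : d.Ok) (ω : Om) : Lw d ω ≤ Hi d ω := by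
  have h := Lw_le hd ω 1
  rw [un_one hd] at h
  simpa using h

theorem Hi_bd (hd : d.Ok) (ω : Om) : 0 ≤ Hi d ω ∧ Hi d ω ≤ 3 * Real.log |d.a| := by
  rw [← un_one hd]
  unfold un
  have e : ∀ z : T2, Real.log (nn (Mm d 1 (ω, z))) = Real.log (|vv d (ω, z)| + 2) := by
    intro z
    rw [Mm_one, nn_mv]
  constructor
  · refine integral_nonneg fun z => ?_
    change 0 ≤ Real.log (nn (Mm d 1 (ω, z)))
    rw [e]
    exact (log_vv57 hd _).1
  · have h := integral_mono (in57 hd ω 1) (integrable_const (3 * Real.log |d.a|)) fun z => by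
      change Real.log (nn (Mm d 1 (ω, z))) ≤ 3 * Real.log |d.a|
      rw [e]
      exact (log_vv57 hd _).2
    rw [integral_const, probReal_univ, one_smul] at h
    exact h

theorem meas_Hi (hd : d.Ok) : Measurable (Hi d) := by
  have h : Hi d = fun ω => un d ω 1 := funext fun ω => (un_one hd ω).symm
  rw [h]
  exact meas_un hd 1

theorem Hi_mean (hd : d.Ok) : ∫ ω, Hi d ω ∂PP = ∫ p, Real.log (|vv d p| + 2) ∂mu := by
  have h1 : ∀ ω, Hi d ω = un d ω 1 := fun ω => (un_one hd ω).symm
  simp only [h1]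
  rw [← Em_eq hd 1]
  unfold Em
  refine integral_congr_ae (Eventually.of_forall fun p => ?_)
  change Real.log (nn (Mm d 1 p)) = Real.log (|vv d p| + 2)
  rw [Mm_one, nn_mv]

end Pool.Agent.Helper95.PV
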