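import Pool.Agent.Helper95.PV.Nd
import Pool.Agent.Helper11.FE.Fin

/-! Block PV-PSYS: standard maps with a potential of class `C^(2+s)` as a system of project FE (`Pool/Agent/Helper11/FE/Defs.lean`).

`F q = (2 q.1 - q.2 + a f1 q.1, q.1)`, `A q = !![2 + a f2 q.1, -1; 1, 0]`, `G = F`, `A' = A` (reversibility), `L = 100 R |a|`, `B = 100`.
* `deriv`: direct. `per`, `perA`: periodicity (integer translations). `bd`: `|2 + a f2| + 2 ≤ |a| R + 4`. `hol`: `|a| |f2 x - f2 x'| ≤ |a| R |x - x'|^s`. `cone`: `|u| ≤ 2(|u| + |v|)`. `hK`: as `kk_le` in `FE/Inst.lean`.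
* `FG, GF, rev, rev'`: direct computation.
* `jump` (new form: see `FE/Defs.lean`): by the hypothesis `hbig` there is `x₀` with `|f2 x₀| ≥ |a|^(-s/4)`; `ℓ = (|a|^(-s/4)/(2R))^(1/s) ≤ 1`; on `[x₀ + μ, x₀ + μ + ℓ]` `f2` has constant sign and `|f2| ≥ |a|^(-s/4)/2` (`hold`, periodicity), so by the mean value theorem
  `|(F q).1 - (F q').1| ≥ (|a|^(1-s/4)/2 - 2 - 1/8) |q.1 - q'.1| ≥ max (4/ℓ) 8 |q.1 - q'.1|` for `|a| ≥ A`: `4/ℓ = 4 (2R)^(1/s) |a|^(1/4)`. -/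

set_option autoImplicit false
open MeasureTheory Real Set Filter Topology
open scoped ENNReal

namespace Pool.Agent.Helper95.PV

open Pool.Agent.Helper18.UC (T2 rep toT nn clm sh)
open Pool.Agent.Helper11.FE (Sys IsT)

/-- derivatives of a periodic potential of class `C^(2+s)` -/
structure PotOk (R s : ℝ) (f1 f2 : ℝ → ℝ) : Prop where
  per1 : ∀ x, f1 (x + 1) = f1 x
  per2 : ∀ x, f2 (x + 1) = f2 x
  der : ∀ x, HasDerivAt f1 (f2 x) x
  bd1 : ∀ x, |f1 x| ≤ R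
  bd2 : ∀ x, |f2 x| ≤ R
  hold : ∀ x y, |f2 x - f2 y| ≤ R * |x - y| ^ s

/-- the plane map -/
def FF (a : ℝ) (f1 : ℝ → ℝ) (q : ℝ × ℝ) : ℝ × ℝ := (2 * q.1 - q.2 + a * f1 q.1, q.1)

/-- the torus map -/
noncomputable def TF (a : ℝ) (f1 : ℝ → ℝ) (z : T2) : T2 :=
  (((2 * rp z.1 + a * f1 (rp z.1) : ℝ) : UnitAddCircle) - z.2, z.1)

def AF (a : ℝ) (f2 : ℝ → ℝ) (q : ℝ × ℝ) : Matrix (Fin 2) (Fin 2) ℝ := mv (2 + a * f2 q.1)

/-- the system -/
noncomputable def PS (a R s : ℝ) (f1 f2 : ℝ → ℝ) : Sys :=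
  ⟨FF a f1, FF a f1, AF a f2, AF a f2, 100 * R * |a|, s⟩

private theorem per_int {f : ℝ → ℝ} (h : ∀ x, f (x + 1) = f x) (x : ℝ) (k : ℤ) : f (x + k) = f x := by
  have h1 : Function.Periodic f 1 := h
  have h2 := h1.int_mul k x
  rwa [mul_one] at h2

private theorem cont2 {R s : ℝ} (hs : 0 < s) {f1 f2 : ℝ → ℝ} (h : PotOk R s f1 f2) : Continuous f2 := by
  rw [continuous_iff_continuousAt]
  intro x
  have h1 : Tendsto (fun y : ℝ => R * |y - x| ^ s) (𝓝 x) (𝓝 0) := by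
    have h2 : Continuous fun y : ℝ => R * |y - x| ^ s :=
      continuous_const.mul ((continuous_abs.comp (continuous_id.sub continuous_const)).rpow_const fun _ => Or.inr hs.le)
    have h3 := h2.tendsto x
    simpa [hs.ne'] using h3
  have h4 : Tendsto (fun y : ℝ => |f2 y - f2 x|) (𝓝 x) (𝓝 0) :=
    squeeze_zero (fun _ => abs_nonneg _) (fun y => h.hold y x) h1
  have h5 : Tendsto (fun y : ℝ => f2 y - f2 x) (𝓝 x) (𝓝 0) := (tendsto_zero_iff_abs_tendsto_zero _).2 h4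
  have h6 := h5.add_const (f2 x)
  simpa [ContinuousAt] using h6

private theorem AF00 (a : ℝ) (f2 : ℝ → ℝ) (q : ℝ × ℝ) : AF a f2 q 0 0 = 2 + a * f2 q.1 := rfl
private theorem AF01 (a : ℝ) (f2 : ℝ → ℝ) (q : ℝ × ℝ) : AF a f2 q 0 1 = -1 := rfl
private theorem AF10 (a : ℝ) (f2 : ℝ → ℝ) (q : ℝ × ℝ) : AF a f2 q 1 0 = 1 := rfl
private theorem AF11 (a : ℝ) (f2 : ℝ → ℝ) (q : ℝ × ℝ) : AF a f2 q 1 1 = 0 := rfl

/-- the constants -/
private theorem kk_aux {s : ℝ} (hs : 0 < s) {R : ℝ} (hR : 1 ≤ R) : ∃ C A : ℝ, 0 < C ∧ 100 ≤ A ∧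
    ∀ (a : ℝ) (f1 f2 : ℝ → ℝ), A ≤ |a| →
      2 * (PS a R s f1 f2).KK 100 ≤ (PS a R s f1 f2).L ∧
      Real.log ((PS a R s f1 f2).KK 100) < 1 / (1 + s) * Real.log |a| + C ∧
      1 / (1 + s) * Real.log |a| + C ≤ Real.log (PS a R s f1 f2).L ∧
      Real.log (PS a R s f1 f2).L ≤ Real.log |a| + C := by
  obtain ⟨b, hb⟩ : ∃ b : ℝ, b = 32 * 100 ^ 2 * (100 * R) := ⟨_, rfl⟩
  have hb1 : 1 ≤ b := by rw [hb]; linarith
  have hb0 : 0 < b := by linarith
  have hp : (0:ℝ) < 1 + s := by linarith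
  have hlb : 0 ≤ Real.log b := Real.log_nonneg hb1
  have hlR : Real.log (100 * R) ≤ Real.log b := Real.log_le_log (by linarith) (by rw [hb]; linarith)
  refine ⟨Real.log b + 1, max 100 (max (b ^ (1 / s)) (Real.exp ((Real.log b + 1) * (1 + s) / s))), by linarith,
    le_max_left _ _, ?_⟩
  intro a f1 f2 ha
  have ha1 : 100 ≤ |a| := (le_max_left _ _).trans ha
  have ha2 : b ^ (1 / s) ≤ |a| := ((le_max_left _ _).trans (le_max_right _ _)).trans ha
  have ha3 : Real.exp ((Real.log b + 1) * (1 + s) / s) ≤ |a| := ((le_max_right _ _).trans (le_max_right _ _)).trans ha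
  have ha0 : 0 < |a| := by linarith
  have hL : (PS a R s f1 f2).L = 100 * R * |a| := rfl
  have hbs : b ≤ |a| ^ s := by
    have h1 : (b ^ (1 / s)) ^ s ≤ |a| ^ s := Real.rpow_le_rpow (by positivity) ha2 hs.le
    rwa [← Real.rpow_mul hb0.le, one_div, inv_mul_cancel₀ hs.ne', Real.rpow_one] at h1
  have hKK : (PS a R s f1 f2).KK 100 = (b * |a|) ^ (1 / (1 + s)) := by
    unfold Sys.KK PS
    simp only
    congr 1
    rw [hb]
    ring
  have hKK1 : (b * |a|) ^ (1 / (1 + s)) ≤ |a| := by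
    have h1 : b * |a| ≤ |a| ^ (1 + s) := by
      rw [Real.rpow_one_add' ha0.le hp.ne', mul_comm]
      exact mul_le_mul_of_nonneg_left hbs ha0.le
    calc (b * |a|) ^ (1 / (1 + s)) ≤ (|a| ^ (1 + s)) ^ (1 / (1 + s)) :=
          Real.rpow_le_rpow (by positivity) h1 (by positivity)
      _ = |a| := by rw [← Real.rpow_mul ha0.le, mul_one_div_cancel hp.ne', Real.rpow_one]
  have hRa : |a| ≤ R * |a| := le_mul_of_one_le_left ha0.le hR
  have hlL : Real.log (100 * R * |a|) = Real.log (100 * R) + Real.log |a| :=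
    Real.log_mul (by positivity) ha0.ne'
  have hl100 : 0 ≤ Real.log (100 * R) := Real.log_nonneg (by linarith)
  rw [hKK, hL]
  refine ⟨by nlinarith, ?_, ?_, ?_⟩
  · rw [Real.log_rpow (by positivity), Real.log_mul hb0.ne' ha0.ne', mul_add]
    have h2 : 1 / (1 + s) ≤ 1 := by rw [div_le_one hp]; linarith
    have h3 : 1 / (1 + s) * Real.log b ≤ 1 * Real.log b := mul_le_mul_of_nonneg_right h2 hlb
    linarith
  · have h2 : (Real.log b + 1) * (1 + s) / s ≤ Real.log |a| := (Real.le_log_iff_exp_le ha0).2 ha3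
    have h3 : 1 / (1 + s) * Real.log |a| + (Real.log b + 1) ≤ Real.log |a| := by
      rw [div_le_iff₀ hs] at h2
      rw [one_div, inv_mul_eq_div, div_add' _ _ _ hp.ne', div_le_iff₀ hp]
      linarith
    linarith
  · linarith

private theorem half {s : ℝ} (hs : 0 < s) (hs1 : s ≤ 1) {R : ℝ} (hR : 1 ≤ R) {a : ℝ} {f1 f2 : ℝ → ℝ} (ha : 100 ≤ |a|)
    (hK : 2 * (PS a R s f1 f2).KK 100 ≤ (PS a R s f1 f2).L) (h : PotOk R s f1 f2) :
    Pool.Agent.Helper11.FE.Half (PS a R s f1 f2) 100 := by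
  have ha0 : 0 < |a| := by linarith
  have hRa : |a| ≤ R * |a| := le_mul_of_one_le_left ha0.le hR
  refine ⟨?_, ?_, ?_, ?_, ?_, ?_, ?_, ?_, hs, hs1, le_rfl, hK⟩
  · intro i j
    have h2 : Continuous fun q : ℝ × ℝ => 2 + a * f2 q.1 :=
      continuous_const.add (continuous_const.mul ((cont2 hs h).comp continuous_fst))
    show Continuous fun q => AF a f2 q i j
    fin_cases i <;> fin_cases j
    · exact h2
    · exact continuous_const
    · exact continuous_const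
    · exact continuous_const
  · intro q
    show HasFDerivAt (FF a f1) (clm (AF a f2 q)) q
    have h1 : HasFDerivAt (fun q : ℝ × ℝ => q.1) (ContinuousLinearMap.fst ℝ ℝ ℝ) q := hasFDerivAt_fst
    have h2 : HasFDerivAt (fun q : ℝ × ℝ => q.2) (ContinuousLinearMap.snd ℝ ℝ ℝ) q := hasFDerivAt_snd
    have h3 : HasFDerivAt (fun q : ℝ × ℝ => f1 q.1) ((f2 q.1) • (ContinuousLinearMap.fst ℝ ℝ ℝ)) q :=
      (h.der q.1).comp_hasFDerivAt q h1
    have h4 := ((((h1.const_mul 2).sub h2).add (h3.const_mul a))).prodMk h1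
    refine h4.congr_fderiv (ContinuousLinearMap.ext fun v => ?_)
    rw [Pool.Agent.Helper18.UC.clm_apply]
    refine Prod.ext ?_ ?_
    · show 2 * v.1 - v.2 + a * (f2 q.1 * v.1) = (2 + a * f2 q.1) * v.1 + (-1) * v.2
      ring
    · show v.1 = 1 * v.1 + 0 * v.2
      ring
  · intro q
    show (mv (2 + a * f2 q.1)).det = 1
    unfold mv
    rw [Matrix.det_fin_two]
    simp
  · intro q k l
    show FF a f1 (sh q k l) = sh (FF a f1 q) (2 * k - l) k
    unfold FF sh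
    simp only
    rw [per_int h.per1]
    refine Prod.ext ?_ rfl
    push_cast
    ring
  · intro q k l
    show mv (2 + a * f2 (q.1 + k)) = mv (2 + a * f2 q.1)
    rw [per_int h.per2]
  · intro q
    show |2 + a * f2 q.1| + |(-1 : ℝ)| + |(1 : ℝ)| + |(0 : ℝ)| ≤ 100 * R * |a|
    have h1 : |2 + a * f2 q.1| ≤ 2 + |a| * R := by
      calc |2 + a * f2 q.1| ≤ |(2 : ℝ)| + |a * f2 q.1| := abs_add_le _ _
        _ ≤ 2 + |a| * R := by
          rw [abs_mul, abs_of_pos (by norm_num : (0 : ℝ) < 2)]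
          have := mul_le_mul_of_nonneg_left (h.bd2 q.1) ha0.le
          linarith
    rw [abs_neg, abs_one, abs_zero]
    nlinarith
  · intro q q'
    show |(2 + a * f2 q.1) - (2 + a * f2 q'.1)| + |(-1 : ℝ) - -1| + |(1 : ℝ) - 1| + |(0 : ℝ) - 0| ≤
      8 * (100 * R * |a|) * dist q q' ^ s
    have h1 : (2 + a * f2 q.1) - (2 + a * f2 q'.1) = a * (f2 q.1 - f2 q'.1) := by ring
    rw [h1, abs_mul, sub_self, sub_self, sub_self, abs_zero, add_zero, add_zero, add_zero]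
    have h2 : |q.1 - q'.1| ≤ dist q q' := by
      rw [Prod.dist_eq, Real.dist_eq]; exact le_max_left _ _
    have h3 : |q.1 - q'.1| ^ s ≤ dist q q' ^ s := Real.rpow_le_rpow (abs_nonneg _) h2 hs.le
    have h4 := h.hold q.1 q'.1
    have h5 : 0 ≤ |q.1 - q'.1| ^ s := Real.rpow_nonneg (abs_nonneg _) _
    have hR0 : 0 < R := by linarith
    calc |a| * |f2 q.1 - f2 q'.1| ≤ |a| * (R * dist q q' ^ s) :=
          mul_le_mul_of_nonneg_left (h4.trans (mul_le_mul_of_nonneg_left h3 hR0.le)) ha0.le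
      _ = (R * |a|) * dist q q' ^ s := by ring
      _ ≤ (800 * (R * |a|)) * dist q q' ^ s := by
          have : 0 ≤ (R * |a|) * dist q q' ^ s := mul_nonneg (by positivity) (h5.trans h3)
          nlinarith
      _ = 8 * (100 * R * |a|) * dist q q' ^ s := by ring
  · intro q u v
    show |(1 : ℝ) * u + 0 * v| ≤ 2 * (|u| + |v|) + 20 / (100 * R * |a|) * |(2 + a * f2 q.1) * u + (-1) * v|
    have h1 : 0 ≤ 20 / (100 * R * |a|) * |(2 + a * f2 q.1) * u + (-1) * v| := by positivity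
    rw [one_mul, zero_mul, add_zero]
    have := abs_nonneg u
    have := abs_nonneg v
    linarith

private theorem jump_aux {s : ℝ} (hs : 0 < s) (hs1 : s ≤ 1) {R : ℝ} (hR : 1 ≤ R) {a : ℝ} {f1 f2 : ℝ → ℝ}
    (ha : 100 ≤ |a|) (ha2 : 16 * (2 * R) ^ (1 / s) * |a| ^ (1 / 4 : ℝ) ≤ |a| ^ (3 / 4 : ℝ))
    (h : PotOk R s f1 f2) (hbig : ∃ x : ℝ, |a| ^ (-(s / 4)) ≤ |f2 x|) :
    ∃ x0 ℓ : ℝ, 0 < ℓ ∧ ℓ ≤ 1 ∧ ∀ (μ : ℤ) (q q' : ℝ × ℝ), q.1 ∈ Icc (x0 + μ) (x0 + μ + ℓ) →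
    q'.1 ∈ Icc (x0 + μ) (x0 + μ + ℓ) → |q.2 - q'.2| ≤ 1 / 8 * |q.1 - q'.1| →
    4 / ℓ * |q.1 - q'.1| ≤ |(FF a f1 q).1 - (FF a f1 q').1| ∧
      |(FF a f1 q).2 - (FF a f1 q').2| ≤ 1 / 8 * |(FF a f1 q).1 - (FF a f1 q').1| := by
  obtain ⟨x0, hx0⟩ := hbig
  have ha0 : 0 < |a| := by linarith
  have hR0 : 0 < R := by linarith
  have hapos : 0 < |a| ^ (-(s / 4)) := Real.rpow_pos_of_pos ha0 _
  have ha1 : |a| ^ (-(s / 4)) ≤ 1 := Real.rpow_le_one_of_one_le_of_nonpos (by linarith) (by linarith)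
  set r : ℝ := |a| ^ (-(s / 4)) / (2 * R) with hr
  have hr0 : 0 < r := by positivity
  have hr1 : r ≤ 1 / 2 := by
    rw [hr, div_le_div_iff₀ (by positivity) (by norm_num)]
    nlinarith
  set ℓ : ℝ := r ^ (1 / s) with hℓ
  have hℓ0 : 0 < ℓ := Real.rpow_pos_of_pos hr0 _
  have h1s : 1 ≤ 1 / s := by rw [le_div_iff₀ hs]; linarith
  have hℓr : ℓ ≤ r := by
    have := Real.rpow_le_rpow_of_exponent_ge hr0 (by linarith) h1s
    rwa [Real.rpow_one] at this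
  have hℓs : ℓ ^ s = r := by
    rw [hℓ, ← Real.rpow_mul hr0.le, one_div, inv_mul_cancel₀ hs.ne', Real.rpow_one]
  have hinv : 4 / ℓ = 4 * (2 * R) ^ (1 / s) * |a| ^ (1 / 4 : ℝ) := by
    have e1 : ℓ⁻¹ = (2 * R) ^ (1 / s) * |a| ^ (1 / 4 : ℝ) := by
      rw [hℓ, ← Real.inv_rpow hr0.le, hr, inv_div, div_eq_mul_inv, ← Real.rpow_neg ha0.le, neg_neg,
        Real.mul_rpow (by positivity) (by positivity), ← Real.rpow_mul ha0.le]
      congr 2
      field_simp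
    rw [div_eq_mul_inv, e1]; ring
  refine ⟨x0, ℓ, hℓ0, by linarith, ?_⟩
  intro μ q q' hq hq' hy
  set D := |q.1 - q'.1| with hD
  have hD0 : 0 ≤ D := abs_nonneg _
  -- lower bound of f2 on the interval
  have hlow : ∀ y ∈ Icc (x0 + μ) (x0 + μ + ℓ), |a| ^ (-(s / 4)) / 2 ≤ |f2 y| := by
    intro y hy
    have h1 := h.hold (x0 + μ) y
    rw [per_int h.per2] at h1
    have h2 : |x0 + μ - y| ^ s ≤ r := by
      rw [← hℓs]
      refine Real.rpow_le_rpow (abs_nonneg _) ?_ hs.le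
      rw [abs_le]; constructor <;> linarith [hy.1, hy.2]
    have h3 : R * |x0 + μ - y| ^ s ≤ |a| ^ (-(s / 4)) / 2 := by
      calc R * |x0 + μ - y| ^ s ≤ R * r := mul_le_mul_of_nonneg_left h2 hR0.le
        _ = |a| ^ (-(s / 4)) / 2 := by rw [hr]; field_simp
    have h4 := abs_sub_abs_le_abs_sub (f2 x0) (f2 y)
    linarith
  -- mean value theorem
  have hmv : |a| ^ (-(s / 4)) / 2 * D ≤ |f1 q.1 - f1 q'.1| := by
    rcases lt_trichotomy q.1 q'.1 with hlt | heq | hlt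
    · obtain ⟨c, hc, hc2⟩ := exists_hasDerivAt_eq_slope f1 f2 hlt
        (fun x _ => (h.der x).continuousAt.continuousWithinAt) (fun x _ => h.der x)
      have h1 := hlow c ⟨hq.1.trans hc.1.le, hc.2.le.trans hq'.2⟩
      have h2 : q'.1 - q.1 ≠ 0 := by linarith
      rw [eq_div_iff h2] at hc2
      rw [abs_sub_comm (f1 q.1), ← hc2, abs_mul, hD, abs_sub_comm q.1]
      exact mul_le_mul_of_nonneg_right h1 (abs_nonneg _)
    · rw [hD, heq, sub_self, abs_zero, mul_zero]; exact abs_nonneg _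
    · obtain ⟨c, hc, hc2⟩ := exists_hasDerivAt_eq_slope f1 f2 hlt
        (fun x _ => (h.der x).continuousAt.continuousWithinAt) (fun x _ => h.der x)
      have h1 := hlow c ⟨hq'.1.trans hc.1.le, hc.2.le.trans hq.2⟩
      have h2 : q.1 - q'.1 ≠ 0 := by linarith
      rw [eq_div_iff h2] at hc2
      rw [← hc2, abs_mul, hD]
      exact mul_le_mul_of_nonneg_right h1 (abs_nonneg _)
  have hX : (FF a f1 q).1 - (FF a f1 q').1 = a * (f1 q.1 - f1 q'.1) - ((q.2 - q'.2) - 2 * (q.1 - q'.1)) := by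
    show (2 * q.1 - q.2 + a * f1 q.1) - (2 * q'.1 - q'.2 + a * f1 q'.1) = _
    ring
  have hlb : (|a| * (|a| ^ (-(s / 4)) / 2) - 3) * D ≤ |(FF a f1 q).1 - (FF a f1 q').1| := by
    rw [hX]
    have h1 := abs_sub_abs_le_abs_sub (a * (f1 q.1 - f1 q'.1)) ((q.2 - q'.2) - 2 * (q.1 - q'.1))
    have h2 : |(q.2 - q'.2) - 2 * (q.1 - q'.1)| ≤ 3 * D := by
      have h3 := abs_sub (q.2 - q'.2) (2 * (q.1 - q'.1))
      rw [abs_mul, abs_of_pos (by norm_num : (0 : ℝ) < 2)] at h3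
      linarith
    have h3 : |a| * (|a| ^ (-(s / 4)) / 2 * D) ≤ |a * (f1 q.1 - f1 q'.1)| := by
      rw [abs_mul]
      exact mul_le_mul_of_nonneg_left hmv ha0.le
    nlinarith
  have h34 : |a| ^ (3 / 4 : ℝ) ≤ |a| * |a| ^ (-(s / 4)) := by
    have e1 : |a| * |a| ^ (-(s / 4)) = |a| ^ (1 + -(s / 4)) := by
      rw [Real.rpow_one_add' ha0.le (by linarith)]
    rw [e1]
    exact Real.rpow_le_rpow_of_exponent_le (by linarith) (by linarith)
  have h14 : 1 ≤ |a| ^ (1 / 4 : ℝ) := Real.one_le_rpow (by linarith) (by norm_num)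
  have h2R : 1 ≤ (2 * R) ^ (1 / s) := Real.one_le_rpow (by linarith) (by positivity)
  have hP : 1 ≤ (2 * R) ^ (1 / s) * |a| ^ (1 / 4 : ℝ) := one_le_mul_of_one_le_of_one_le h2R h14
  have h4l : 4 / ℓ ≤ |a| * (|a| ^ (-(s / 4)) / 2) - 3 := by
    rw [hinv]
    nlinarith
  have h8 : 8 ≤ 4 / ℓ := by
    rw [le_div_iff₀ hℓ0]; linarith
  have hfin : 4 / ℓ * D ≤ |(FF a f1 q).1 - (FF a f1 q').1| := (mul_le_mul_of_nonneg_right h4l hD0).trans hlb
  refine ⟨hfin, ?_⟩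
  show |q.1 - q'.1| ≤ _
  have := mul_le_mul_of_nonneg_right h8 hD0
  linarith

theorem ps_ok {s : ℝ} (hs : 0 < s) (hs1 : s ≤ 1) {R : ℝ} (hR : 1 ≤ R) : ∃ A : ℝ, 100 ≤ A ∧ ∀ (a : ℝ) (f1 f2 : ℝ → ℝ),
    A ≤ |a| → PotOk R s f1 f2 → (∃ x : ℝ, |a| ^ (-(s / 4)) ≤ |f2 x|) → (PS a R s f1 f2).Ok 100 := by
  obtain ⟨C, A, hC, hA, hkk⟩ := kk_aux hs hR
  refine ⟨max A ((16 * (2 * R) ^ (1 / s)) ^ (2 : ℝ)), hA.trans (le_max_left _ _), ?_⟩
  intro a f1 f2 ha h hbig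
  have haA : A ≤ |a| := (le_max_left _ _).trans ha
  have ha1 : 100 ≤ |a| := hA.trans haA
  have ha0 : 0 < |a| := by linarith
  have ha2 : (16 * (2 * R) ^ (1 / s)) ^ (2 : ℝ) ≤ |a| := (le_max_right _ _).trans ha
  have hK := (hkk a f1 f2 haA).1
  have hhalf := half hs hs1 hR ha1 hK h
  have hP0 : 0 ≤ 16 * (2 * R) ^ (1 / s) := by positivity
  have h3 : 16 * (2 * R) ^ (1 / s) ≤ |a| ^ (1 / 2 : ℝ) := by
    have e1 := Real.rpow_le_rpow (by positivity) ha2 (by norm_num : (0 : ℝ) ≤ 1 / 2)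
    rwa [← Real.rpow_mul hP0, show (2 : ℝ) * (1 / 2) = 1 by norm_num, Real.rpow_one] at e1
  have h4 : 16 * (2 * R) ^ (1 / s) * |a| ^ (1 / 4 : ℝ) ≤ |a| ^ (3 / 4 : ℝ) := by
    calc 16 * (2 * R) ^ (1 / s) * |a| ^ (1 / 4 : ℝ) ≤ |a| ^ (1 / 2 : ℝ) * |a| ^ (1 / 4 : ℝ) :=
          mul_le_mul_of_nonneg_right h3 (by positivity)
      _ = |a| ^ (3 / 4 : ℝ) := by rw [← Real.rpow_add ha0]; norm_num
  have hmul : ∀ v : ℝ, mv v * !![0, 1; 1, 0] * mv v = !![0, 1; 1, 0] := by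
    intro v
    unfold mv
    ext i j
    fin_cases i <;> fin_cases j <;> simp [Matrix.mul_apply, Fin.sum_univ_two]
  refine ⟨hhalf, hhalf, ?_, ?_, ?_, ?_, jump_aux hs hs1 hR ha1 h4 h hbig⟩
  · intro q
    show FF a f1 (Prod.swap (FF a f1 q)) = Prod.swap q
    unfold FF
    refine Prod.ext ?_ ?_
    · show 2 * q.1 - (2 * q.1 - q.2 + a * f1 q.1) + a * f1 q.1 = q.2
      ring
    · rfl
  · intro q
    show FF a f1 (Prod.swap (FF a f1 q)) = Prod.swap q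
    unfold FF
    refine Prod.ext ?_ ?_
    · show 2 * q.1 - (2 * q.1 - q.2 + a * f1 q.1) + a * f1 q.1 = q.2
      ring
    · rfl
  · intro q
    exact hmul _
  · intro q
    exact hmul _

theorem tw_mp {c : UnitAddCircle → UnitAddCircle} (hc : Measurable c) :
    MeasurePreserving (fun z : T2 => ((c z.1 - z.2, z.1) : T2)) volume volume := by
  have h1 : MeasurePreserving (fun z : T2 => ((z.1, c z.1 - z.2) : T2)) volume volume := by
    rw [show (volume : Measure T2) = (volume : Measure UnitAddCircle).prod volume from rfl]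
    refine MeasurePreserving.skew_product (g := fun x y => c x - y) (MeasurePreserving.id volume)
      ((hc.comp measurable_fst).sub measurable_snd) ?_
    refine Filter.Eventually.of_forall fun x => ?_
    exact (Measure.measurePreserving_sub_left volume (c x)).map_eq
  have h2 : MeasurePreserving (Prod.swap : T2 → T2) volume volume := Measure.measurePreserving_swap
  exact h2.comp h1

theorem ps_isT {a R s : ℝ} {f1 f2 : ℝ → ℝ} (h : PotOk R s f1 f2) : IsT (PS a R s f1 f2) (TF a f1) := by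
  have hcont : Continuous f1 := continuous_iff_continuousAt.2 fun x => (h.der x).continuousAt
  refine ⟨?_, ?_⟩
  · intro q
    show TF a f1 (toT q) = toT (FF a f1 q)
    obtain ⟨k, hk⟩ := rp_coe q.1
    unfold TF FF
    refine Prod.ext ?_ rfl
    show (((2 * rp (q.1 : UnitAddCircle) + a * f1 (rp (q.1 : UnitAddCircle)) : ℝ) : UnitAddCircle)) -
      (q.2 : UnitAddCircle) = ((2 * q.1 - q.2 + a * f1 q.1 : ℝ) : UnitAddCircle)
    rw [hk, per_int h.per1, ← AddCircle.coe_sub]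
    have e1 : 2 * (q.1 + k) + a * f1 q.1 - q.2 = (2 * q.1 - q.2 + a * f1 q.1) + ((2 * k : ℤ) : ℝ) := by
      push_cast; ring
    rw [e1]
    rw [AddCircle.coe_add]
    have e2 : (((2 * k : ℤ) : ℝ) : UnitAddCircle) = 0 := by
      rw [AddCircle.coe_eq_zero_iff]
      exact ⟨2 * k, by simp⟩
    rw [e2, add_zero]
  · have hc : Measurable fun x : UnitAddCircle =>
        ((2 * rp x + a * f1 (rp x) : ℝ) : UnitAddCircle) := by
      refine AddCircle.measurable_mk'.comp ?_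
      exact (measurable_const.mul meas_rp).add (measurable_const.mul (hcont.measurable.comp meas_rp))
    exact tw_mp hc

/-- the constants -/
theorem ps_kk {s : ℝ} (hs : 0 < s) (_hs1 : s ≤ 1) {R : ℝ} (hR : 1 ≤ R) : ∃ C A : ℝ, 0 < C ∧ 100 ≤ A ∧
    ∀ (a : ℝ) (f1 f2 : ℝ → ℝ), A ≤ |a| →
      Real.log ((PS a R s f1 f2).KK 100) < 1 / (1 + s) * Real.log |a| + C ∧
      1 / (1 + s) * Real.log |a| + C ≤ Real.log (PS a R s f1 f2).L ∧
      Real.log (PS a R s f1 f2).L ≤ Real.log |a| + C := by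
  obtain ⟨C, A, hC, hA, hkk⟩ := kk_aux hs hR
  exact ⟨C, A, hC, hA, fun a f1 f2 ha => (hkk a f1 f2 ha).2⟩

end Pool.Agent.Helper95.PV
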